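import Pool.Agent.TH769.ZA.Exh

set_option autoImplicit false

/-!
The construction for a chain of oracles, and comparison of constructions.
-/

namespace Pool.Agent.TH769.ZA

open Encodable Pool.Agent.Helper227 Pool.Agent.H548R2.Post
open Nat.Partrec (Code)
open Pool.Agent.TH769.CD (jp jp_congr bdd_lt)

/-- the number coding an initial segment -/
def val (X : ℕ → Bool) : ℕ → ℕ
  | 0 => 0
  | m + 1 => 2 * val X m + (if X m = true then 1 else 0)

theorem val_congr {X Y : ℕ → Bool} {m : ℕ} (h : ∀ i < m, X i = Y i) : val X m = val Y m := by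
  induction m with
  | zero => rfl
  | succ m ih =>
    unfold val
    rw [ih fun i hi => h i (by omega), h m (Nat.lt_succ_self m)]

theorem val_eq {X Y : ℕ → Bool} {m : ℕ} (h : val X m = val Y m) : ∀ i < m, X i = Y i := by
  induction m with
  | zero => intro i hi; omega
  | succ m ih =>
    intro i hi
    unfold val at h
    have h1 : val X m = val Y m := by
      split_ifs at h <;> omega
    rcases Nat.lt_succ_iff_lt_or_eq.1 hi with h2 | h2
    · exact ih h1 i h2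
    · subst h2
      rw [h1] at h
      cases hx : X i <;> cases hy : Y i <;> simp [hx, hy] at h ⊢

theorem val_le {X Y : ℕ → Bool} {m : ℕ} (h : val X (m + 1) ≤ val Y (m + 1)) :
    val X m ≤ val Y m := by
  unfold val at h
  split_ifs at h <;> omega

/-- `z` is enumerated into the `n`-th set by stage `s` from the `p`-th oracle -/
def EY (Y : ℤ → ℕ → Bool) (s n z : ℕ) (p : ℤ) : Prop := En s n z (Y p)

/-- the `e`-th program halts on `e` within `s` steps with use `u` -/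
def CY (Y : ℤ → ℕ → Bool) (s e u : ℕ) (p : ℤ) (v : ℕ → Prop) : Prop :=
  hlt s e e (pre (jp (Y p) v) u) = true

def vY (Y : ℤ → ℕ → Bool) (m : ℕ) (p : ℤ) : ℕ := val (Y p) m

theorem fine_vY (Y : ℤ → ℕ → Bool) : Fine (vY Y) := fun _ _ _ h => val_le h

/-- the link between `p` and `p + 1` looks right at stage `s` -/
def LY (Y TY SY : ℤ → ℕ → Bool) (p : ℤ) (s : ℕ) : Prop :=
  ∀ i < s, TY p i = Y (p + 1) i ∧ SY (p + 1) i = Y p i

theorem anti_LY (Y TY SY : ℤ → ℕ → Bool) : Anti (LY Y TY SY) :=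
  fun _ _ _ hs h i hi => h i (by omega)

/-- the history of the construction before stage `s` -/
def Hs (Y : ℤ → ℕ → Bool) (L : ℤ → ℕ → Prop) : ℕ → ℕ → ℤ → ℕ → Prop
  | 0 => fun _ _ _ => False
  | s + 1 => fun s' p z => Hs Y L s s' p z ∨
      (s' = s ∧ Step (EY Y) (CY Y) (QZ (vY Y) L) (VZ (Hs Y L s)) s p z)

/-- `z` is put into the set of index `p` at stage `s` -/
def AA (Y : ℤ → ℕ → Bool) (L : ℤ → ℕ → Prop) (s : ℕ) (p : ℤ) (z : ℕ) : Prop :=
  Step (EY Y) (CY Y) (QZ (vY Y) L) (VZ (Hs Y L s)) s p z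

theorem Hs_iff {Y : ℤ → ℕ → Bool} {L : ℤ → ℕ → Prop} {s s' : ℕ} {p : ℤ} {z : ℕ} :
    Hs Y L s s' p z ↔ s' < s ∧ AA Y L s' p z := by
  induction s with
  | zero => simp [Hs]
  | succ s ih =>
    show (Hs Y L s s' p z ∨ (s' = s ∧
      Step (EY Y) (CY Y) (QZ (vY Y) L) (VZ (Hs Y L s)) s p z)) ↔ _
    rw [ih]
    constructor
    · rintro (h | ⟨h1, h2⟩)
      · exact ⟨by omega, h.2⟩
      · subst h1
        exact ⟨Nat.lt_succ_self _, h2⟩
    · rintro ⟨h1, h2⟩
      rcases Nat.lt_succ_iff_lt_or_eq.1 h1 with h | h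
      · exact Or.inl ⟨h, h2⟩
      · subst h
        exact Or.inr ⟨rfl, h2⟩

section

variable {E E' : ℕ → ℕ → ℕ → ℤ → Prop} {C C' : ℕ → ℕ → ℕ → ℤ → (ℕ → Prop) → Prop}
  {Q Q' : ℕ → ℕ → ℤ → ℤ → Prop} {A A' V V' : ℕ → ℤ → ℕ → Prop}

theorem cand_tr {d : ℤ} {m s : ℕ} {p : ℤ} {z : ℕ}
    (hst : ∀ u < s + 1, (IsSt Q' m s (p + d) u ↔ IsSt Q m s p u))
    (hq : ∀ i < 2 * (2 * s) + 1, (Q' m s (p + d) (wd p (2 * s) i + d) ↔
      Q m s p (wd p (2 * s) i)))
    (hE : ∀ i < 2 * (2 * s) + 1, ∀ y, (E' s m y (wd p (2 * s) i + d) ↔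
      E s m y (wd p (2 * s) i)))
    (hV : ∀ i < 2 * (2 * s) + 1, ∀ y, (V' s (wd p (2 * s) i + d) y ↔ V s (wd p (2 * s) i) y))
    (hC : ∀ i < 2 * (2 * s) + 1, ∀ e u, u < s + 1 →
      (C' s e u (wd p (2 * s) i + d) (V' s (wd p (2 * s) i + d)) ↔
        C s e u (wd p (2 * s) i) (V s (wd p (2 * s) i)))) :
    Cand E' C' Q' V' m s (p + d) z ↔ Cand E C Q V m s p z := by
  unfold Cand Ok
  simp only [wd_add]
  refine and_congr Iff.rfl (and_congr ?_ (and_congr ?_ ?_))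
  · exact exists_congr fun u => and_congr_right fun hu => by rw [hst u hu]
  · refine exists_congr fun i => and_congr_right fun hi => ?_
    rw [hq i hi, hE i hi]
    refine and_congr Iff.rfl (and_congr Iff.rfl (forall_congr' fun y => forall_congr' fun _ => ?_))
    rw [hV i hi, hE i hi]
  · refine forall_congr' fun i => forall_congr' fun hi => ?_
    rw [hq i hi]
    refine imp_congr Iff.rfl (forall_congr' fun e => forall_congr' fun _ => imp_congr ?_ ?_)
    · exact exists_congr fun u => and_congr_right fun hu => hC i hi e u hu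
    · exact exists_congr fun u => and_congr_right fun _ => and_congr_right fun hu => hC i hi e u hu

theorem step_V {s : ℕ} {p : ℤ} {z : ℕ} (h : ∀ p y, (V s p y ↔ V' s p y)) :
    Step E C Q V s p z ↔ Step E C Q V' s p z := by
  have : V s = V' s := by
    funext p y
    exact propext (h p y)
  unfold Step Act Cand
  rw [this]

end

theorem AA_eq (Y : ℤ → ℕ → Bool) (L : ℤ → ℕ → Prop) (s : ℕ) (p : ℤ) (z : ℕ) :
    AA Y L s p z ↔ Step (EY Y) (CY Y) (QZ (vY Y) L) (VZ (AA Y L)) s p z := by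
  refine step_V fun p y => exists_congr fun s' => and_congr_right fun hs' => ?_
  rw [Hs_iff]
  exact ⟨fun h => h.2, fun h => ⟨hs', h⟩⟩

/-- the radius of the interval on which stage `s` depends -/
def ff (s : ℕ) : ℕ := s * (s + 1) + 5 * s + 5

theorem ff_ge (s : ℕ) : 5 * s + 5 ≤ ff s := by
  unfold ff
  have := Nat.zero_le (s * (s + 1))
  omega

theorem ff_step {s' s : ℕ} (h : s' < s) : ff s' + 2 * s ≤ ff s := by
  unfold ff
  obtain ⟨k, rfl⟩ := Nat.exists_eq_add_of_lt h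
  nlinarith [Nat.zero_le (s' * k), Nat.zero_le (k * k)]

/-- the data on the interval from `lo` to `hi` agree after the translation by `d` -/
structure AgY (Y : ℤ → ℕ → Bool) (L : ℤ → ℕ → Prop) (Y' : ℤ → ℕ → Bool) (L' : ℤ → ℕ → Prop)
    (d lo hi : ℤ) (N : ℕ) : Prop where
  hY : ∀ w, lo ≤ w → w ≤ hi → ∀ i < N, Y' (w + d) i = Y w i
  hL : ∀ w, lo ≤ w → w ≤ hi → ∀ s < N, (L' (w + d) s ↔ L w s)

section

variable {Y Y' : ℤ → ℕ → Bool} {L L' : ℤ → ℕ → Prop} {d lo hi : ℤ} {N : ℕ}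
  {A A' : ℕ → ℤ → ℕ → Prop}

theorem AgY.ag (h : AgY Y L Y' L' d lo hi N) : Ag (vY Y) L (vY Y') L' d lo hi N :=
  ⟨fun w h1 h2 _ hm => val_congr fun i hi => h.hY w h1 h2 i (by omega), h.hL⟩

theorem CY_congr {X X' : ℤ → ℕ → Bool} {p p' : ℤ} {s e u : ℕ} {v v' : ℕ → Prop}
    (h1 : ∀ i < u, X p i = X' p' i) (h2 : ∀ y < u, (v y ↔ v' y)) :
    CY X s e u p v ↔ CY X' s e u p' v' := by
  unfold CY
  rw [T03_pre (jp_congr h1 h2) le_rfl]

theorem comp_A (h : AgY Y L Y' L' d lo hi N)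
    (hA : ∀ s < N, ∀ p, lo ≤ p → p ≤ hi → ∀ z,
      (A s p z ↔ Step (EY Y) (CY Y) (QZ (vY Y) L) (VZ A) s p z))
    (hA' : ∀ s < N, ∀ p, lo ≤ p → p ≤ hi → ∀ z,
      (A' s (p + d) z ↔ Step (EY Y') (CY Y') (QZ (vY Y') L') (VZ A') s (p + d) z)) :
    ∀ s < N, ∀ p, lo ≤ p - ff s → p + ff s ≤ hi → ∀ z, (A' s (p + d) z ↔ A s p z) := by
  intro s
  induction s using Nat.strong_induction_on with
  | _ s ih =>
    intro hs p h1 h2 z
    have hf := ff_ge s
    rw [hA s hs p (by omega) (by omega), hA' s hs p (by omega) (by omega)]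
    have hV : ∀ i < 2 * (2 * s) + 1, ∀ y,
        (VZ A' s (wd p (2 * s) i + d) y ↔ VZ A s (wd p (2 * s) i) y) := by
      intro i hi y
      have hb := wd_bd (p := p) hi
      push_cast at hb
      refine exists_congr fun s' => and_congr_right fun hs' => ?_
      have := ff_step hs'
      exact ih s' hs' (by omega) _ (by omega) (by omega) y
    have hag := h.ag
    have hc : ∀ m z, (Cand (EY Y') (CY Y') (QZ (vY Y') L') (VZ A') m s (p + d) z ↔
        Cand (EY Y) (CY Y) (QZ (vY Y) L) (VZ A) m s p z) := by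
      intro m z
      refine cand_tr (fun u hu => isSt_tr hag hs (by omega) (by omega) (by omega))
        (fun i _ => qz_tr hag hs (by omega) (by omega)) (fun i hi y => ?_) hV
        (fun i hi e u hu => ?_)
      · have hb := wd_bd (p := p) hi
        push_cast at hb
        exact En_congr fun j hj => h.hY _ (by omega) (by omega) j (by omega)
      · have hb := wd_bd (p := p) hi
        push_cast at hb
        exact CY_congr (fun j hj => h.hY _ (by omega) (by omega) j (by omega))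
          (fun y _ => hV i hi y)
    exact exists_congr fun m => and_congr_right fun _ => and_congr (hc m z)
      (forall_congr' fun z' => forall_congr' fun _ => not_congr (hc m z'))

theorem AA_shift (hY : ∀ w i, Y' (w + d) i = Y w i) (hL : ∀ w s, (L' (w + d) s ↔ L w s))
    (s : ℕ) (p : ℤ) (z : ℕ) : AA Y' L' s (p + d) z ↔ AA Y L s p z :=
  comp_A (lo := p - ff s) (hi := p + ff s) (N := s + 1) ⟨fun w _ _ i _ => hY w i,
    fun w _ _ s _ => hL w s⟩ (fun s _ p _ _ z => AA_eq Y L s p z)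
    (fun s _ p _ _ z => AA_eq Y' L' s (p + d) z) s (Nat.lt_succ_self s) p le_rfl le_rfl z

theorem sys (hL : Anti L) : Sys (EY Y) (CY Y) (QZ (vY Y) L) (AA Y L) where
  cls := cls_QZ hL (fine_vY Y)
  hA := AA_eq Y L
  monoE s s' n z p h hE := En_mono h hE
  locC s s' e u p v v' hC hs hv := by
    have h1 := (CY_congr (X := Y) (X' := Y) (p := p) (p' := p) (s := s) (e := e)
      (fun _ _ => rfl) hv).1 hC
    exact hlt_mono hs h1

/-- the set of index `p` -/
def VT (Y : ℤ → ℕ → Bool) (L : ℤ → ℕ → Prop) (p : ℤ) (z : ℕ) : Prop := ∃ s, AA Y L s p z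

theorem sy_Y (h : Sy (vY Y) L d) : ∀ w i, Y (w + d) i = Y w i :=
  fun w i => val_eq (h.1 (i + 1) w) i (Nat.lt_succ_self i)

theorem VT_sy (h : Sy (vY Y) L d) (p : ℤ) (z : ℕ) : VT Y L (p + d) z ↔ VT Y L p z :=
  exists_congr fun s => AA_shift (sy_Y h) h.2 s p z

theorem good_iff (hL : Anti L) {a b : ℤ} {m u z : ℕ} (hz : z.unpair.1 = Nat.pair m u)
    (hg : ∃ d, Sy (vY Y) L d ∧ QZ (vY Y) L m u a (b + d)) : VT Y L a z ↔ VT Y L b z := by
  obtain ⟨d, h1, h2⟩ := hg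
  rw [← VT_sy h1 b]
  have hS := sys (Y := Y) hL
  exact ⟨fun ⟨s, h⟩ => ⟨s, inv_good hS hz h2 s h⟩,
    fun ⟨s, h⟩ => ⟨s, inv_good hS hz (hS.cls.symm _ _ _ _ h2) s h⟩⟩

theorem bad_chg (hL : Anti L) {a b : ℤ} {m u : ℕ}
    (H : ∃ d, Sy (vY Y) L d ∧ ∃ s0, ∀ s ≥ s0, QZ (vY Y) L m s a (b + d))
    (hg : ¬ ∃ d, Sy (vY Y) L d ∧ QZ (vY Y) L m u a (b + d)) :
    ∃ s, u < s ∧ Chg (QZ (vY Y) L) m s a := by
  obtain ⟨d, h1, h2⟩ := H
  exact chg_exists (sys (Y := Y) hL) (fun h => hg ⟨d, h1, h⟩) h2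

theorem bad_iff (hL : Anti L) {a : ℤ} {m u s z : ℕ} (hz : z.unpair.1 = Nat.pair m u)
    (hs : u < s) (hc : Chg (QZ (vY Y) L) m s a) : VT Y L a z ↔ VZ (AA Y L) s a z :=
  ⟨fun ⟨t, h⟩ => ⟨t, inv_bad (sys hL) hz hs hc t h, h⟩, fun ⟨t, _, h⟩ => ⟨t, h⟩⟩

end

end Pool.Agent.TH769.ZA
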