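import Pool.Agent.TH769.ZA.Chn

set_option autoImplicit false

/-!
The degrees of the sets constructed.
-/

namespace Pool.Agent.TH769.ZA

open Encodable Pool.Agent.Helper227 Pool.Agent.H548R2.Post
open Nat.Partrec (Code)
open Pool.Agent.TH769.CD (jp jp_congr bdd_lt pf_add pf_mul pf_div pf_mod pf_pow pf_getD pf_take
  pf_append pf_cons pf_length pf_range pf_natPair pf_unpair pf_encode pf_testBit pf_xorb pf_andb
  pf_hlt pf_xor pp_exlt pp_alllt pp_imp pp_eq pp_le pp_lt pp_mem pf_decide pf_pre pp_En pf_ext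
  ext_pre_eq)

attribute [local fun_prop] Primrec
attribute [local fun_prop] Primrec.id Primrec.const Primrec.comp Primrec.pair Primrec.fst Primrec.snd
attribute [local fun_prop] pf_add pf_mul pf_div pf_mod pf_pow pf_getD pf_take pf_append pf_cons
  pf_length pf_range pf_natPair pf_unpair pf_encode pf_testBit pf_xorb pf_andb pf_hlt pf_xor
  pf_sub pf_wd pf_ff

/-- the construction for the chain through `X` -/
def AX (T S : (ℕ → Bool) → (ℕ → Bool)) (X : ℕ → Bool) : ℕ → ℤ → ℕ → Prop :=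
  AA (ch T S X) (lk T S X)

/-- the set of index `p` of the chain through `X` -/
def VX (T S : (ℕ → Bool) → (ℕ → Bool)) (X : ℕ → Bool) (p : ℤ) (z : ℕ) : Prop :=
  VT (ch T S X) (lk T S X) p z

/-- the classes of the chain through `X` -/
def QX (T S : (ℕ → Bool) → (ℕ → Bool)) (X : ℕ → Bool) : ℕ → ℕ → ℤ → ℤ → Prop :=
  QZ (vY (ch T S X)) (lk T S X)

/-- the value of the operator: the join of `X` with the set constructed -/
noncomputable def WX (T S : (ℕ → Bool) → (ℕ → Bool)) (X : ℕ → Bool) : ℕ → Bool :=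
  jp X (VX T S X 0)

section

variable {T S : (ℕ → Bool) → (ℕ → Bool)}

theorem sysX (X : ℕ → Bool) : Sys (EY (ch T S X)) (CY (ch T S X)) (QX T S X) (AX T S X) :=
  sys anti_lk

theorem WX_even (X : ℕ → Bool) (m : ℕ) : WX T S X (2 * m) = X m := by
  unfold WX jp
  rw [if_pos (by omega)]
  congr 1
  omega

theorem WX_odd (X : ℕ → Bool) (m : ℕ) : WX T S X (2 * m + 1) = true ↔ VX T S X 0 m := by
  unfold WX jp
  rw [if_neg (by omega), show (2 * m + 1) / 2 = m by omega]
  exact @decide_eq_true_iff _ (Classical.propDecidable _)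

theorem VX_iff (X : ℕ → Bool) (p : ℤ) (z : ℕ) : VX T S X p z ↔ ∃ t, VZ (AX T S X) t p z :=
  ⟨fun ⟨s, h⟩ => ⟨s + 1, s, Nat.lt_succ_self s, h⟩, fun ⟨_, s, _, h⟩ => ⟨s, h⟩⟩

theorem le_WX (X : ℕ → Bool) : TLe X (WX T S X) := by
  have hf : Computable fun n : ℕ => 2 * n := by
    have : Primrec fun n : ℕ => 2 * n := by fun_prop
    exact this.to_comp
  exact tLe_of_computable hf fun n => (WX_even X n).symm

/-! The jump of `WX`. -/

theorem stable (X : ℕ → Bool) (u : ℕ) :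
    ∃ s0, ∀ t ≥ s0, ∀ u' ≤ u, pre (jp X (VZ (AX T S X) t 0)) u' = pre (WX T S X) u' := by
  classical
  obtain ⟨a, ha⟩ := bdd_lt u (fun y t => (VZ (AX T S X) t 0 y ↔ VX T S X 0 y)) (fun y _ => by
    by_cases h : VX T S X 0 y
    · obtain ⟨s, hs⟩ := h
      exact ⟨s + 1, fun t ht => ⟨fun _ => ⟨s, hs⟩, fun _ => ⟨s, by omega, hs⟩⟩⟩
    · refine ⟨0, fun t _ => ⟨fun h1 => (VX_iff X 0 y).2 ⟨t, h1⟩, fun h1 => absurd h1 h⟩⟩)
  refine ⟨a, fun t ht u' hu' => ?_⟩
  refine T03_pre (s := u') (fun i hi => ?_) le_rfl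
  exact jp_congr (u := u') (fun _ _ => rfl) (fun y hy => ha y (by omega) t ht) i hi

theorem jump_true' (X : ℕ → Bool) (e : ℕ) (h : jump (WX T S X) e = true) :
    ∃ s0, ∀ s ≥ s0, En s e e (jp X (VZ (AX T S X) s 0)) := by
  rw [jump_eq_true] at h
  obtain ⟨k, hk⟩ := h
  obtain ⟨s1, hs1⟩ := (exists_hlt_iff e e _).2 hk
  obtain ⟨s2, hs2⟩ := stable (T := T) (S := S) X k
  refine ⟨max (max s1 s2) k, fun s hs => ⟨k, by omega, ?_⟩⟩
  rw [hs2 s (by omega) k le_rfl]
  exact hlt_mono (by omega) hs1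

theorem jump_false' (X : ℕ → Bool) (e : ℕ) (h : jump (WX T S X) e = false) :
    ∃ s0, ∀ s ≥ s0, ¬ En s e e (jp X (VZ (AX T S X) s 0)) := by
  obtain ⟨s0, hs0⟩ := keep (sysX (T := T) (S := S) X) e 0
  refine ⟨s0, fun s hs hEn => ?_⟩
  obtain ⟨u, hu, hh⟩ := hEn
  obtain ⟨a, ha⟩ := stable (T := T) (S := S) X s
  obtain ⟨u', h1, h2, h3⟩ := hs0 s hs (max s a) (le_max_left _ _) s
    ⟨u, by omega, by omega, hh⟩
  have h4 : hlt (max s a) e e (pre (jp X (VZ (AX T S X) (max s a) 0)) u') = true := h3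
  rw [ha _ (le_max_right _ _) u' (by omega)] at h4
  have h5 : jump (WX T S X) e = true := by
    rw [jump_eq_true]
    exact ⟨u', (exists_hlt_iff e e _).1 ⟨_, h4⟩⟩
  rw [h] at h5
  exact Bool.false_ne_true h5

variable {g g' : List Bool → List Bool}

theorem pf_jpF {β : Type} [Primcodable β] {O : β → Tb} {t i : β → ℕ} (hO : Primrec O)
    (ht : Primrec t) (hi : Primrec i) : Primrec fun b => jp (YO (O b) 0) (VF (O b) (t b)) (i b) := by
  classical
  unfold jp
  refine Primrec.ite (pp_eq (by fun_prop) (by fun_prop)) ?_ (pf_decide ?_ _)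
  · exact pf_YO (by fun_prop) (by fun_prop) (by fun_prop)
  · exact pp_VF (by fun_prop) (by fun_prop) (by fun_prop)

section si

variable (hg : Apx g T) (hg' : Apx g' S) (cg : Computable g) (cg' : Computable g')

include hg hg' cg cg'

theorem si_VV (X : ℕ → Bool) : SI X fun x : ℕ × ℕ => VZ (AX T S X) x.1 0 x.2 :=
  si_tab hg hg' cg cg' X (F := fun O x => VF O x.1 x.2) (κ := fun x => x.1)
    (pp_VF (by fun_prop) (by fun_prop) (by fun_prop)) (by fun_prop)
    (fun _ _ h => VF_iff h)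

theorem si_nVV (X : ℕ → Bool) : SI X fun x : ℕ × ℕ => ¬ VZ (AX T S X) x.1 0 x.2 :=
  si_tab hg hg' cg cg' X (F := fun O x => ¬ VF O x.1 x.2) (κ := fun x => x.1)
    (PrimrecPred.not (pp_VF (by fun_prop) (by fun_prop) (by fun_prop))) (by fun_prop)
    (fun _ _ h => not_congr (VF_iff h))

theorem si_Q (X : ℕ → Bool) : SI X fun x : (ℕ × ℕ) × ℤ => QX T S X x.1.1 x.1.2 0 x.2 :=
  si_tab hg hg' cg cg' X (F := fun O x => QZ (vY (YO O)) (LO O) x.1.1 x.1.2 0 x.2)
    (κ := fun x => x.1.2)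
    (pp_QF (by fun_prop) (by fun_prop) (by fun_prop) (by fun_prop)) (by fun_prop)
    (fun _ _ h => QF_iff h)

theorem si_Chg (X : ℕ → Bool) : SI X fun x : ℕ × ℕ => Chg (QX T S X) x.1 x.2 0 :=
  si_tab hg hg' cg cg' X (F := fun O x => Chg (QZ (vY (YO O)) (LO O)) x.1 x.2 0)
    (κ := fun x => x.2)
    (pp_ChF (by fun_prop) (by fun_prop) (by fun_prop)) (by fun_prop)
    (fun _ _ h => ChF_iff h)

theorem low (X : ℕ → Bool) : TLe (jump (WX T S X)) (jump X) := by
  have hF : PrimrecPred fun x : Tb × (ℕ × ℕ) => En x.2.2 x.2.1 x.2.1 (jp (YO x.1 0) (VF x.1 x.2.2)) :=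
    pp_En (Y := fun x : Tb × (ℕ × ℕ) => jp (YO x.1 0) (VF x.1 x.2.2))
      (pf_jpF (by fun_prop) (by fun_prop) (by fun_prop)) (by fun_prop)
      (by fun_prop) (by fun_prop)
  have hR : ∀ (a : ℕ × ℕ) O, Gd (ch T S X) (fun p => T (ch T S X p)) (fun p => S (ch T S X p)) O
      a.2 → (En a.2 a.1 a.1 (jp (YO O 0) (VF O a.2)) ↔
        En a.2 a.1 a.1 (jp X (VZ (AX T S X) a.2 0))) := by
    intro a O h
    refine En_congr (jp_congr (fun i hi => ?_) (fun y _ => VF_iff h))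
    exact (h 0 (by omega) (by omega) i (by omega)).1
  refine tLe_jump_of_limit (p := fun e s => En s e e (jp X (VZ (AX T S X) s 0))) ?_ ?_
    (fun e he => jump_true' X e he) (fun e he => jump_false' X e he)
  · exact si_tab hg hg' cg cg' X (κ := fun x => x.2) hF (by fun_prop) hR
  · exact si_tab hg hg' cg cg' X (κ := fun x => x.2) (PrimrecPred.not hF) (by fun_prop)
      (fun a O h => not_congr (hR a O h))

theorem si_Vi (X : ℕ → Bool) : SI X fun z : ℕ => VX T S X 0 z := by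
  have h : SI X fun z : ℕ => ∃ t, VZ (AX T S X) t 0 z :=
    SI.ex (p := fun (z t : ℕ) => VZ (AX T S X) t 0 z)
      ((si_VV hg hg' cg cg' X).comp (f := fun x : ℕ × ℕ => (x.2, x.1)) (by fun_prop))
  exact h.of_eq fun z => (VX_iff X 0 z).symm

theorem si_WX (X : ℕ → Bool) : SI X fun m : ℕ => WX T S X m = true := by
  have h1 : SI X fun m : ℕ => m % 2 = 0 ∧ X (m / 2) = true :=
    SI.and (SI.of_prim (pp_eq (by fun_prop) (by fun_prop)))
      (SI.query.comp (f := fun m : ℕ => (m / 2, true)) (by fun_prop))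
  have h2 : SI X fun m : ℕ => ¬ (m % 2 = 0) ∧ VX T S X 0 (m / 2) :=
    SI.and (SI.of_prim (PrimrecPred.not (pp_eq (by fun_prop) (by fun_prop))))
      ((si_Vi hg hg' cg cg' X).comp (f := fun m : ℕ => m / 2) (by fun_prop))
  refine (SI.or h1 h2).of_eq fun m => ?_
  rcases Nat.even_or_odd' m with ⟨n, rfl | rfl⟩
  · rw [WX_even]
    have e1 : (2 * n) % 2 = 0 := by omega
    have e2 : (2 * n) / 2 = n := by omega
    simp [e1, e2]
  · rw [WX_odd]
    have e1 : (2 * n + 1) % 2 = 1 := by omega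
    have e2 : (2 * n + 1) / 2 = n := by omega
    simp [e1, e2]

theorem WX_le_jump (X : ℕ → Bool) : TLe (WX T S X) (jump X) := by
  rw [tLe_iff_SI]
  obtain ⟨h2, h3⟩ := (si_WX hg hg' cg cg' X).decide_jump
  have h4 : SI (jump X) fun x : ℕ × Bool =>
      (WX T S X x.1 = true ∧ x.2 = true) ∨ (¬ WX T S X x.1 = true ∧ x.2 = false) := by
    refine SI.or (SI.and (h2.comp Primrec.fst) (SI.of_prim ?_))
      (SI.and (h3.comp (f := fun x : ℕ × Bool => x.1) Primrec.fst) (SI.of_prim ?_))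
    · exact Primrec.eq.comp Primrec.snd (Primrec.const true)
    · exact Primrec.eq.comp Primrec.snd (Primrec.const false)
  refine h4.of_eq fun x => ?_
  rcases x with ⟨n, b⟩
  cases b <;> simp

end si

theorem not_WX_le (X : ℕ → Bool) : ¬ TLe (WX T S X) X := by
  intro h
  have h1 : SI X (fun x : ℕ × Bool => WX T S X x.1 = x.2) := tLe_iff_SI.1 h
  have h2 : SI X (fun z : ℕ => WX T S X (2 * z + 1) = false) :=
    h1.comp (f := fun z : ℕ => (2 * z + 1, false)) (by fun_prop)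
  have h3 : SI X (fun z : ℕ => z ∈ {z | ¬ VX T S X 0 z}) := by
    refine h2.of_eq fun z => ?_
    rw [Set.mem_ofPred_eq, ← WX_odd, Bool.not_eq_true]
  obtain ⟨n, hn⟩ := ceIn_iff_exists_WE.1 (SI.iff_ceIn.2 h3)
  refine pos (sysX (T := T) (S := S) X) n 0 (fun z hz => ?_) (fun z s hz t hE => ?_)
  · have h4 : z ∈ WE X n := by
      rw [← hn]
      rintro ⟨s, hs⟩
      exact hz s hs
    exact (mem_WE_iff X n z).1 h4
  · have h4 : z ∈ WE X n := (mem_WE_iff X n z).2 ⟨t, hE⟩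
    rw [← hn] at h4
    exact h4 ⟨s, hz⟩

/-! The index. -/

theorem index_S1 (cg : Computable g) (cg' : Computable g') :
    S1 fun x : List Bool × ℕ => (x.2 % 2 = 0 ∧ x.1[x.2 / 2]? = some true) ∨
    (x.2 % 2 = 1 ∧ ∃ t, Lg (On g g' x.1 (KK t)) (KK t) (t + 1) ∧
      VF (On g g' x.1 (KK t)) t (x.2 / 2)) := by
  have hK : Primrec fun x : ℕ => KK x := by
    unfold KK
    fun_prop
  refine S1.or (S1.of_prim (PrimrecPred.and (pp_eq (by fun_prop) (by fun_prop))
    (pp_eq (Primrec.list_getElem?.comp (by fun_prop) (by fun_prop)) (by fun_prop))))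
    (S1.and (S1.of_prim (pp_eq (by fun_prop) (by fun_prop))) ?_)
  refine S1.ex (p := fun (x : List Bool × ℕ) (t : ℕ) =>
    Lg (On g g' x.1 (KK t)) (KK t) (t + 1) ∧ VF (On g g' x.1 (KK t)) t (x.2 / 2)) ?_
  have h1 : PrimrecPred fun y : Tb × (List Bool × ℕ) × ℕ => Lg y.1 (KK y.2.2) (y.2.2 + 1) ∧
      VF y.1 y.2.2 (y.2.1.2 / 2) :=
    PrimrecPred.and (pp_Lg (by fun_prop) (hK.comp (by fun_prop)) (by fun_prop))
      (pp_VF (by fun_prop) (by fun_prop) (by fun_prop))
  have h2 : Computable fun y : (List Bool × ℕ) × ℕ => ((y.1.1, KK y.2) : List Bool × ℕ) :=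
    (Computable.fst.comp Computable.fst).pair (hK.to_comp.comp Computable.snd)
  exact (S1.of_prim h1).comp_computable
    (f := fun y : (List Bool × ℕ) × ℕ => (On g g' y.1.1 (KK y.2), y))
    (((comp_On cg cg').comp h2).pair Computable.id)

theorem exists_index (hg : Apx g T) (hg' : Apx g' S) (cg : Computable g) (cg' : Computable g') :
    ∃ e : ℕ, ∀ X : ℕ → Bool, WE X e = {m | WX T S X m = true} := by
  obtain ⟨c, hc⟩ := Nat.Partrec.Code.exists_code.1 (index_S1 cg cg').re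
  refine ⟨encode c, fun X => ?_⟩
  ext m
  simp only [WE, Set.mem_ofPred_eq, Denumerable.ofNat_encode]
  have h1 : (∃ k : ℕ, (c.eval (encode ((List.range k).map X, m))).Dom) ↔
      ∃ k : ℕ, (m % 2 = 0 ∧ (pre X k)[m / 2]? = some true) ∨
      (m % 2 = 1 ∧ ∃ t, Lg (On g g' (pre X k) (KK t)) (KK t) (t + 1) ∧
        VF (On g g' (pre X k) (KK t)) t (m / 2)) := by
    refine exists_congr fun k => ?_
    rw [hc]
    simp [Part.assert, pre]
  rw [h1]
  have h2 : ∀ k : ℕ, (pre X k)[m / 2]? = some true ↔ m / 2 < k ∧ X (m / 2) = true := by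
    intro k
    unfold pre
    rw [List.getElem?_map]
    by_cases hk : m / 2 < k
    · rw [List.getElem?_eq_getElem (by simpa using hk)]
      simp [hk]
    · rw [List.getElem?_eq_none (by simpa using hk)]
      simp [hk]
  rcases Nat.even_or_odd' m with ⟨n, rfl | rfl⟩
  · rw [WX_even]
    have e2 : (2 * n) / 2 = n := by omega
    rw [e2] at h2 ⊢
    constructor
    · rintro ⟨k, ⟨-, h4⟩ | ⟨h3, -⟩⟩
      · exact ((h2 k).1 h4).2
      · omega
    · intro h
      exact ⟨n + 1, Or.inl ⟨by omega, (h2 _).2 ⟨by omega, h⟩⟩⟩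
  · rw [WX_odd, VX_iff]
    have e2 : (2 * n + 1) / 2 = n := by omega
    rw [e2]
    constructor
    · rintro ⟨k, ⟨h3, -⟩ | ⟨-, t, h3, h4⟩⟩
      · omega
      · exact ⟨t, (VF_iff (gd_of_long hg hg' h3)).1 h4⟩
    · rintro ⟨t, ht⟩
      obtain ⟨M, hM⟩ := long_exists (X := X) hg hg' (KK t) (t + 1)
      refine ⟨M, Or.inr ⟨by omega, t, hM M le_rfl, ?_⟩⟩
      exact (VF_iff (gd_of_long hg hg' (hM M le_rfl))).2 ht

/-- the functional is a reduction -/
theorem apx_le (hg : Apx g T) (cg : Computable g) (X : ℕ → Bool) : TLe (T X) X := by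
  have hP : S1 fun y : (ℕ × Bool) × List Bool => (g y.2)[y.1.1]? = some y.1.2 := by
    have h1 : PrimrecPred fun y : List Bool × (ℕ × Bool) => y.1[y.2.1]? = some y.2.2 :=
      pp_eq (Primrec.list_getElem?.comp (by fun_prop) (by fun_prop))
        (Primrec.option_some.comp (by fun_prop))
    exact (S1.of_prim h1).comp_computable
      (f := fun y : (ℕ × Bool) × List Bool => (g y.2, y.1))
      ((cg.comp Computable.snd).pair Computable.fst)
  rw [tLe_iff_SI]
  have h2 : SI X fun x : ℕ × Bool => ∃ L, (g (pre X L))[x.1]? = some x.2 :=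
    SI.ex (p := fun (x : ℕ × Bool) (L : ℕ) => (g (pre X L))[x.1]? = some x.2) (si_gen hP)
  refine h2.of_eq fun x => ?_
  constructor
  · rintro ⟨L, h3⟩
    obtain ⟨L', h4⟩ := hg.ok X L
    rw [h4] at h3
    by_cases h : x.1 < L'
    · rw [pre_getElem? _ _ _ h] at h3
      simpa using h3
    · rw [pre_getElem?_none _ _ _ (by omega)] at h3
      cases h3
  · intro h3
    obtain ⟨M, hM⟩ := hg.long X (x.1 + 1)
    obtain ⟨L', h4⟩ := hg.ok X M
    have h5 := hM M le_rfl
    rw [h4, length_pre] at h5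
    exact ⟨M, by rw [h4, pre_getElem? _ _ _ (by omega), h3]⟩

theorem chr_WX {X : ℕ → Bool} : chr {m | WX T S X m = true} = WX T S X := by
  funext m
  simp [chr]

end

end Pool.Agent.TH769.ZA
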