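import Pool.Agent.TH769.ZA.Prm

set_option autoImplicit false

/-!
The table of the history, and its correctness.
-/

namespace Pool.Agent.TH769.ZA

open Encodable Pool.Agent.Helper227 Pool.Agent.H548R2.Post
open Nat.Partrec (Code)
open Pool.Agent.TH769.CD (jp jp_congr bdd_lt pf_add pf_mul pf_div pf_mod pf_pow pf_getD pf_take
  pf_append pf_cons pf_length pf_range pf_natPair pf_unpair pf_encode pf_testBit pf_xorb pf_andb
  pf_hlt pf_xor pp_exlt pp_alllt pp_imp pp_eq pp_le pp_lt pp_mem pf_decide pf_pre pp_En pf_ext)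

attribute [local fun_prop] Primrec
attribute [local fun_prop] Primrec.id Primrec.const Primrec.comp Primrec.pair Primrec.fst Primrec.snd
attribute [local fun_prop] pf_add pf_mul pf_div pf_mod pf_pow pf_getD pf_take pf_append pf_cons
  pf_length pf_range pf_natPair pf_unpair pf_encode pf_testBit pf_xorb pf_andb pf_hlt pf_xor
  pf_sub pf_wd

/-- the rows of the finite data -/
abbrev Tb : Type := List (List Bool × List Bool × List Bool)

def rowO (O : Tb) (p : ℤ) : List Bool × List Bool × List Bool := O.getD (encode p) ([], [], [])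

def YO (O : Tb) (p : ℤ) (i : ℕ) : Bool := ext (rowO O p).1 i

def TO (O : Tb) (p : ℤ) (i : ℕ) : Bool := ext (rowO O p).2.1 i

def SO (O : Tb) (p : ℤ) (i : ℕ) : Bool := ext (rowO O p).2.2 i

def LO (O : Tb) : ℤ → ℕ → Prop := LY (YO O) (TO O) (SO O)

/-- the relation coded by a list of numbers -/
def mm (H : List ℕ) (s : ℕ) (p : ℤ) (z : ℕ) : Prop := Nat.pair (encode p) (Nat.pair s z) ∈ H

section

variable {α β : Type} [Primcodable α] [Primcodable β]

theorem pf_rowO {O : β → Tb} {p : β → ℤ} (hO : Primrec O) (hp : Primrec p) :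
    Primrec fun b => rowO (O b) (p b) := pf_getD hO (pf_encode hp)

theorem pf_YO {O : β → Tb} {p : β → ℤ} {i : β → ℕ} (hO : Primrec O) (hp : Primrec p)
    (hi : Primrec i) : Primrec fun b => YO (O b) (p b) (i b) :=
  pf_ext (Primrec.fst.comp (pf_rowO hO hp)) hi

theorem pf_TO {O : β → Tb} {p : β → ℤ} {i : β → ℕ} (hO : Primrec O) (hp : Primrec p)
    (hi : Primrec i) : Primrec fun b => TO (O b) (p b) (i b) :=
  pf_ext (Primrec.fst.comp (Primrec.snd.comp (pf_rowO hO hp))) hi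

theorem pf_SO {O : β → Tb} {p : β → ℤ} {i : β → ℕ} (hO : Primrec O) (hp : Primrec p)
    (hi : Primrec i) : Primrec fun b => SO (O b) (p b) (i b) :=
  pf_ext (Primrec.snd.comp (Primrec.snd.comp (pf_rowO hO hp))) hi

theorem pf_zs {p : β → ℤ} (hp : Primrec p) : Primrec fun b => p b + 1 := by
  refine (pf_wd (r := fun _ => 0) (i := fun _ => 1) hp (by fun_prop) (by fun_prop)).of_eq
    fun b => ?_
  unfold wd
  omega

theorem pf_val {Y : α → ℕ → Bool} (hY : Primrec fun x : α × ℕ => Y x.1 x.2) {m : α → ℕ}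
    (hm : Primrec m) : Primrec fun a => val (Y a) (m a) := by
  have hh : Primrec₂ fun (a : α) (y : ℕ × ℕ) => 2 * y.2 + (if Y a y.1 = true then 1 else 0) := by
    have h1 : Primrec fun z : α × (ℕ × ℕ) => Y z.1 z.2.1 :=
      hY.comp (f := fun x : α × ℕ => Y x.1 x.2) (g := fun z : α × (ℕ × ℕ) => (z.1, z.2.1))
        (by fun_prop)
    have h2 : Primrec fun z : α × (ℕ × ℕ) => 2 * z.2.2 + (if Y z.1 z.2.1 = true then 1 else 0) :=
      pf_add (by fun_prop) (Primrec.ite (pp_eq h1 (by fun_prop)) (by fun_prop) (by fun_prop))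
    exact h2
  have h := Primrec.nat_rec' (f := m) (g := fun _ => 0) hm (Primrec.const 0) hh
  refine h.of_eq fun a => ?_
  generalize m a = n
  induction n with
  | zero => rfl
  | succ n ih =>
    change _ = 2 * val (Y a) n + (if Y a n = true then 1 else 0)
    rw [← ih]

end

theorem pp_eE : PrimrecPred fun x : (Tb × List ℕ) × ℕ × ℕ × ℕ × ℤ =>
    EY (YO x.1.1) x.2.1 x.2.2.1 x.2.2.2.1 x.2.2.2.2 := by
  refine pp_En ?_ (by fun_prop) (by fun_prop) (by fun_prop)
  exact pf_YO (by fun_prop) (by fun_prop) (by fun_prop)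

theorem pp_eV : PrimrecPred fun x : (Tb × List ℕ) × ℕ × ℤ × ℕ =>
    VZ (mm x.1.2) x.2.1 x.2.2.1 x.2.2.2 := by
  refine pp_exlt (by fun_prop) ?_
  exact pp_mem (by fun_prop) (by fun_prop)

theorem pf_ev : Primrec fun x : (Tb × List ℕ) × ℕ × ℤ => vY (YO x.1.1) x.2.1 x.2.2 := by
  refine pf_val ?_ (by fun_prop)
  exact pf_YO (by fun_prop) (by fun_prop) (by fun_prop)

theorem pp_eL : PrimrecPred fun x : (Tb × List ℕ) × ℤ × ℕ => LO x.1.1 x.2.1 x.2.2 := by
  refine pp_alllt (by fun_prop) (PrimrecPred.and (pp_eq (pf_TO (by fun_prop) (by fun_prop)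
    (by fun_prop)) (pf_YO (by fun_prop) (pf_zs (by fun_prop)) (by fun_prop)))
    (pp_eq (pf_SO (by fun_prop) (pf_zs (by fun_prop)) (by fun_prop)) (pf_YO (by fun_prop)
    (by fun_prop) (by fun_prop))))

theorem pp_eQ : PrimrecPred fun x : (Tb × List ℕ) × ℕ × ℕ × ℤ × ℤ =>
    QZ (vY (YO x.1.1)) (LO x.1.1) x.2.1 x.2.2.1 x.2.2.2.1 x.2.2.2.2 :=
  pp_QZ (v := fun x : Tb × List ℕ => vY (YO x.1)) (L := fun x : Tb × List ℕ => LO x.1) pf_ev pp_eL

theorem pp_eC : PrimrecPred fun x : (Tb × List ℕ) × ℕ × ℕ × ℕ × ℤ =>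
    CY (YO x.1.1) x.2.1 x.2.2.1 x.2.2.2.1 x.2.2.2.2 (VZ (mm x.1.2) x.2.1 x.2.2.2.2) := by
  classical
  refine pp_eq (pf_hlt (by fun_prop) (by fun_prop) (by fun_prop) (pf_pre ?_ (by fun_prop)))
      (by fun_prop)
  unfold jp
  refine Primrec.ite (pp_eq (by fun_prop) (by fun_prop)) ?_ (pf_decide ?_ _)
  · exact pf_YO (by fun_prop) (by fun_prop) (by fun_prop)
  · exact pp_V (V := fun x : Tb × List ℕ => VZ (mm x.2)) pp_eV (by fun_prop) (by fun_prop)
      (by fun_prop) (by fun_prop)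

/-- a bound for the codes -/
def Bd (K S : ℕ) : ℕ := Nat.pair K (Nat.pair S S)

/-- the membership condition for a code `x` at stage `s` -/
def Nw (O : Tb) (K s : ℕ) (H : List ℕ) (x : ℕ) : Prop :=
  x.unpair.1 < K ∧ x.unpair.2.unpair.1 = s ∧
    Step (EY (YO O)) (CY (YO O)) (QZ (vY (YO O)) (LO O)) (VZ (mm H)) s
      (Denumerable.ofNat ℤ x.unpair.1) x.unpair.2.unpair.2

open Classical in
/-- the list of the codes of the actions before stage `s` -/
noncomputable def HL (O : Tb) (K S : ℕ) : ℕ → List ℕ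
  | 0 => []
  | s + 1 => HL O K S s ++ (List.range (Bd K S)).filterMap
      (fun x => if Nw O K s (HL O K S s) x then some x else none)

theorem pp_Nw : PrimrecPred fun y : (Tb × ℕ) × ℕ × List ℕ × ℕ =>
    Nw y.1.1 y.1.2 y.2.1 y.2.2.1 y.2.2.2 := by
  refine PrimrecPred.and (pp_lt (by fun_prop) (by fun_prop)) (PrimrecPred.and
    (pp_eq (by fun_prop) (by fun_prop)) ?_)
  refine pp_Step (E := fun x : Tb × List ℕ => EY (YO x.1)) (C := fun x : Tb × List ℕ => CY (YO x.1))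
    (Q := fun x : Tb × List ℕ => QZ (vY (YO x.1)) (LO x.1)) (V := fun x : Tb × List ℕ =>
      VZ (mm x.2)) pp_eE pp_eC pp_eQ pp_eV
    (a := fun y : (Tb × ℕ) × ℕ × List ℕ × ℕ => (y.1.1, y.2.2.1)) (by fun_prop) (by fun_prop)
    ?_ (by fun_prop)
  exact (Primrec.ofNat ℤ).comp (by fun_prop)

theorem pf_HL : Primrec fun x : (Tb × ℕ × ℕ) × ℕ => HL x.1.1 x.1.2.1 x.1.2.2 x.2 := by
  classical
  have hh : Primrec₂ fun (x : (Tb × ℕ × ℕ) × ℕ) (y : ℕ × List ℕ) =>
      y.2 ++ (List.range (Bd x.1.2.1 x.1.2.2)).filterMap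
        (fun c => if Nw x.1.1 x.1.2.1 y.1 y.2 c then some c else none) := by
    have h1 : Primrec₂ fun (z : ((Tb × ℕ × ℕ) × ℕ) × (ℕ × List ℕ)) (c : ℕ) =>
        if Nw z.1.1.1 z.1.1.2.1 z.2.1 z.2.2 c then some c else none := by
      refine Primrec.ite (c := fun w : (((Tb × ℕ × ℕ) × ℕ) × (ℕ × List ℕ)) × ℕ =>
        Nw w.1.1.1.1 w.1.1.1.2.1 w.1.2.1 w.1.2.2 w.2) ?_ (Primrec.option_some.comp Primrec.snd)
        (Primrec.const none)
      exact pp_Nw.comp (f := fun w : (((Tb × ℕ × ℕ) × ℕ) × (ℕ × List ℕ)) × ℕ =>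
        ((w.1.1.1.1, w.1.1.1.2.1), (w.1.2.1, (w.1.2.2, w.2)))) (by fun_prop)
    have h2 : Primrec fun z : ((Tb × ℕ × ℕ) × ℕ) × (ℕ × List ℕ) =>
        List.range (Bd z.1.1.2.1 z.1.1.2.2) := by
      unfold Bd
      fun_prop
    have h3 := Primrec.listFilterMap h2 h1
    exact pf_append (f := fun z : ((Tb × ℕ × ℕ) × ℕ) × (ℕ × List ℕ) => z.2.2) (by fun_prop) h3
  have h := Primrec.nat_rec' (f := fun x : (Tb × ℕ × ℕ) × ℕ => x.2)
    (g := fun _ => ([] : List ℕ)) Primrec.snd (Primrec.const []) hh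
  refine h.of_eq ?_
  rintro ⟨⟨O, K, S⟩, s⟩
  induction s with
  | zero => rfl
  | succ s ih =>
    change _ = HL O K S s ++ (List.range (Bd K S)).filterMap
      (fun x => if Nw O K s (HL O K S s) x then some x else none)
    rw [← ih]

theorem mm_HL {O : Tb} {K S n : ℕ} (hn : n ≤ S) {s : ℕ} {p : ℤ} {z : ℕ} :
    mm (HL O K S n) s p z ↔ s < n ∧ encode p < K ∧
      Step (EY (YO O)) (CY (YO O)) (QZ (vY (YO O)) (LO O)) (VZ (mm (HL O K S s))) s p z := by
  induction n with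
  | zero => simp [mm, HL]
  | succ n ih =>
    have h1 : mm (HL O K S (n + 1)) s p z ↔ mm (HL O K S n) s p z ∨
        (Nat.pair (encode p) (Nat.pair s z) < Bd K S ∧
          Nw O K n (HL O K S n) (Nat.pair (encode p) (Nat.pair s z))) := by
      unfold mm
      rw [HL, List.mem_append, List.mem_filterMap]
      refine or_congr Iff.rfl ?_
      constructor
      · rintro ⟨x, hx, h2⟩
        split_ifs at h2 with h3
        have h4 : x = Nat.pair (encode p) (Nat.pair s z) := by simpa using h2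
        subst h4
        exact ⟨List.mem_range.1 hx, h3⟩
      · rintro ⟨h2, h3⟩
        exact ⟨_, List.mem_range.2 h2, by rw [if_pos h3]⟩
    rw [h1, ih (by omega)]
    unfold Nw
    simp only [Nat.unpair_pair, Denumerable.ofNat_encode]
    constructor
    · rintro (⟨h2, h3⟩ | ⟨-, h2, h3, h4⟩)
      · exact ⟨by omega, h3⟩
      · subst h3
        exact ⟨Nat.lt_succ_self _, h2, h4⟩
    · rintro ⟨h2, h3, h4⟩
      rcases Nat.lt_succ_iff_lt_or_eq.1 h2 with h5 | h5
      · exact Or.inl ⟨h5, h3, h4⟩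
      · subst h5
        refine Or.inr ⟨?_, h3, rfl, h4⟩
        obtain ⟨n', -, hact⟩ := h4
        have h6 : z < s := hact.1.1
        unfold Bd
        refine (Nat.pair_lt_pair_left _ h3).trans (Nat.pair_lt_pair_right _ ?_)
        exact (Nat.pair_lt_pair_left _ (show s < S by omega)).trans
          (Nat.pair_lt_pair_right _ (by omega))

theorem mm_eq {O : Tb} {K S : ℕ} {s : ℕ} {p : ℤ} {z : ℕ} (hs : s < S) (hp : encode p < K) :
    mm (HL O K S S) s p z ↔
      Step (EY (YO O)) (CY (YO O)) (QZ (vY (YO O)) (LO O)) (VZ (mm (HL O K S S))) s p z := by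
  rw [mm_HL le_rfl]
  have h : Step (EY (YO O)) (CY (YO O)) (QZ (vY (YO O)) (LO O)) (VZ (mm (HL O K S s))) s p z ↔
      Step (EY (YO O)) (CY (YO O)) (QZ (vY (YO O)) (LO O)) (VZ (mm (HL O K S S))) s p z := by
    refine step_V fun p y => exists_congr fun s' => and_congr_right fun hs' => ?_
    rw [mm_HL hs.le, mm_HL le_rfl]
    exact ⟨fun h => ⟨by omega, h.2⟩, fun h => ⟨hs', h.2⟩⟩
  rw [h]
  exact ⟨fun h => h.2.2, fun h => ⟨hs, hp, h⟩⟩

/-- the table is right up to the parameter `t` -/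
def Gd (Y TY SY : ℤ → ℕ → Bool) (O : Tb) (t : ℕ) : Prop :=
  ∀ p : ℤ, -(ff t + 1 : ℤ) ≤ p → p ≤ ff t + 1 → ∀ i < t + 1,
    YO O p i = Y p i ∧ TO O p i = TY p i ∧ SO O p i = SY p i

section

variable {Y TY SY : ℤ → ℕ → Bool} {O : Tb} {t : ℕ}

theorem Gd.agY (h : Gd Y TY SY O t) :
    AgY Y (LY Y TY SY) (YO O) (LO O) 0 (-(ff t)) (ff t) (t + 1) where
  hY w h1 h2 i hi := by
    rw [add_zero]
    exact (h w (by omega) (by omega) i hi).1
  hL w h1 h2 s hs := by
    rw [add_zero]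
    unfold LO LY
    refine forall_congr' fun i => forall_congr' fun hi => ?_
    obtain ⟨a1, a2, a3⟩ := h w (by omega) (by omega) i (by omega)
    obtain ⟨b1, b2, b3⟩ := h (w + 1) (by omega) (by omega) i (by omega)
    rw [a1, a2, b1, b3]

/-- The finite version of the statement that `z` is in the set before stage `t`. -/
def VF (O : Tb) (t z : ℕ) : Prop := VZ (mm (HL O (2 * ff t + 1) t t)) t 0 z

theorem enc_lt {p : ℤ} {B : ℕ} (h1 : -(B : ℤ) ≤ p) (h2 : p ≤ B) : encode p < 2 * B + 1 := by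
  rw [enc_eq]
  split_ifs <;> omega

theorem VF_iff (h : Gd Y TY SY O t) {z : ℕ} : VF O t z ↔ VZ (AA Y (LY Y TY SY)) t 0 z := by
  refine exists_congr fun s => and_congr_right fun hs => ?_
  have hg := h.agY
  have h1 := comp_A (A := AA Y (LY Y TY SY)) (A' := mm (HL O (2 * ff t + 1) t t)) (d := 0)
    (N := t) (lo := -(ff t)) (hi := ff t) (Y := Y) (Y' := YO O) (L := LY Y TY SY) (L' := LO O)
    ⟨fun w g1 g2 i hi => hg.hY w g1 g2 i (by omega), fun w g1 g2 i hi => hg.hL w g1 g2 i (by omega)⟩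
    (fun s _ p _ _ z => AA_eq Y _ s p z) (fun s hs p g1 g2 z => by
      rw [add_zero]
      exact mm_eq hs (enc_lt g1 g2)) s hs 0
      (by have := ff_step hs; omega) (by have := ff_step hs; omega) z
  rw [add_zero] at h1
  exact h1

theorem QF_iff (h : Gd Y TY SY O t) {m : ℕ} {q : ℤ} : QZ (vY (YO O)) (LO O) m t 0 q ↔
    QZ (vY Y) (LY Y TY SY) m t 0 q := by
  have hf := ff_ge t
  have := qz_tr h.agY.ag (m := m) (p := 0) (q := q) (Nat.lt_succ_self t) (by omega) (by omega)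
  rwa [add_zero, add_zero] at this

theorem ChF_iff (h : Gd Y TY SY O t) {m : ℕ} : Chg (QZ (vY (YO O)) (LO O)) m t 0 ↔
    Chg (QZ (vY Y) (LY Y TY SY)) m t 0 := by
  have hf := ff_ge t
  have := chg_tr h.agY.ag (m := m) (p := 0) (Nat.lt_succ_self t) (by omega) (by omega)
  rwa [add_zero] at this

end

section

variable {β : Type} [Primcodable β]

@[local fun_prop] theorem pf_ff {t : β → ℕ} (ht : Primrec t) : Primrec fun b => ff (t b) := by
  unfold ff
  fun_prop

theorem pp_VF {O : β → Tb} {t z : β → ℕ} (hO : Primrec O) (ht : Primrec t) (hz : Primrec z) :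
    PrimrecPred fun b => VF (O b) (t b) (z b) := by
  refine pp_exlt (by fun_prop) (pp_mem (by fun_prop) ?_)
  exact pf_HL.comp (f := fun x : (Tb × ℕ × ℕ) × ℕ => HL x.1.1 x.1.2.1 x.1.2.2 x.2)
    (g := fun y : β × ℕ => ((O y.1, (2 * ff (t y.1) + 1, t y.1)), t y.1)) (by fun_prop)

theorem pp_QF {O : β → Tb} {m t : β → ℕ} {q : β → ℤ} (hO : Primrec O) (hm : Primrec m)
    (ht : Primrec t) (hq : Primrec q) :
    PrimrecPred fun b => QZ (vY (YO (O b))) (LO (O b)) (m b) (t b) 0 (q b) :=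
  pp_eQ.comp (f := fun b => (((O b, ([] : List ℕ)) : Tb × List ℕ), m b, t b, (0 : ℤ), q b))
    (by fun_prop)

theorem pp_ChF {O : β → Tb} {m t : β → ℕ} (hO : Primrec O) (hm : Primrec m)
    (ht : Primrec t) :
    PrimrecPred fun b => Chg (QZ (vY (YO (O b))) (LO (O b))) (m b) (t b) 0 :=
  pp_Chg (Q := fun x : Tb × List ℕ => QZ (vY (YO x.1)) (LO x.1)) pp_eQ
    (a := fun b => ((O b, ([] : List ℕ)) : Tb × List ℕ)) (p := fun _ => 0) (by fun_prop) hm ht
    (by fun_prop)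

end

end Pool.Agent.TH769.ZA
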