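import Pool.Agent.TH769.ZA.Tbl

set_option autoImplicit false

/-!
The chain of oracles given by two total computable functionals, and its finite tables.
-/

namespace Pool.Agent.TH769.ZA

open Encodable Pool.Agent.Helper227 Pool.Agent.H548R2.Post
open Nat.Partrec (Code)
open Pool.Agent.TH769.CD (jp jp_congr bdd_lt pf_add pf_mul pf_div pf_mod pf_pow pf_getD pf_take
  pf_append pf_cons pf_length pf_range pf_natPair pf_unpair pf_encode pf_testBit pf_xorb pf_andb
  pf_hlt pf_xor pp_exlt pp_alllt pp_imp pp_eq pp_le pp_lt pp_mem pf_decide pf_pre pp_En pf_ext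
  ext_pre_eq)

attribute [local fun_prop] Primrec
attribute [local fun_prop] Primrec.id Primrec.const Primrec.comp Primrec.pair Primrec.fst Primrec.snd
attribute [local fun_prop] pf_add pf_mul pf_div pf_mod pf_pow pf_getD pf_take pf_append pf_cons
  pf_length pf_range pf_natPair pf_unpair pf_encode pf_testBit pf_xorb pf_andb pf_hlt pf_xor
  pf_sub pf_wd pf_ff

/-! The chain. -/

/-- the chain through `X` -/
def ch (T S : (ℕ → Bool) → (ℕ → Bool)) (X : ℕ → Bool) : ℤ → ℕ → Bool
  | Int.ofNat n => T^[n] X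
  | Int.negSucc n => S^[n + 1] X

/-- the links of the chain through `X` -/
def lk (T S : (ℕ → Bool) → (ℕ → Bool)) (X : ℕ → Bool) : ℤ → ℕ → Prop :=
  LY (ch T S X) (fun p => T (ch T S X p)) (fun p => S (ch T S X p))

section chain

variable {T S : (ℕ → Bool) → (ℕ → Bool)} {X : ℕ → Bool}

theorem ch_zero : ch T S X 0 = X := rfl

theorem ch_one : ch T S X 1 = T X := rfl

theorem neg_succ (k : ℕ) : Int.negSucc (k + 1) + 1 = Int.negSucc k := by
  simp only [Int.negSucc_eq]
  omega

theorem ch_shift (h : S (T X) = X) (w : ℤ) : ch T S (T X) w = ch T S X (w + 1) := by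
  cases w with
  | ofNat n => exact (Function.iterate_succ_apply T n X).symm
  | negSucc n =>
    change S^[n + 1] (T X) = _
    rw [Function.iterate_succ_apply, h]
    cases n with
    | zero => rfl
    | succ k => rw [neg_succ]; rfl

theorem anti_lk : Anti (lk T S X) := anti_LY _ _ _

theorem lk_shift (h : S (T X) = X) (w : ℤ) (s : ℕ) : lk T S (T X) w s ↔ lk T S X (w + 1) s := by
  unfold lk LY
  simp only [ch_shift h]

theorem tl_zero (h : S (T X) = X) : TL (lk T S X) 0 := by
  intro s i _
  change T X i = T X i ∧ S (T X) i = X i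
  rw [h]
  exact ⟨rfl, rfl⟩

/-- translation of the chain by one link -/
theorem AA_next (h : S (T X) = X) (s : ℕ) (p : ℤ) (z : ℕ) :
    AA (ch T S (T X)) (lk T S (T X)) s p z ↔ AA (ch T S X) (lk T S X) s (p + 1) z := by
  have := AA_shift (Y := ch T S X) (L := lk T S X) (Y' := ch T S (T X)) (L' := lk T S (T X))
    (d := -1) (fun w i => by rw [ch_shift h, neg_add_cancel_right])
    (fun w s => by rw [lk_shift h, neg_add_cancel_right]) s (p + 1) z
  rwa [add_neg_cancel_right] at this

theorem sy_of {d : ℤ} (h : ∀ p, ch T S X (p + d) = ch T S X p) :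
    Sy (vY (ch T S X)) (lk T S X) d := by
  refine ⟨fun m p => by unfold vY; rw [h], fun p s => ?_⟩
  unfold lk LY
  rw [show p + d + 1 = (p + 1) + d by omega]
  simp only [h]

theorem hsym : (∀ k, TL (lk T S X) k) → ∀ c c',
    (∀ i, vY (ch T S X) i c = vY (ch T S X) i c') → Sy (vY (ch T S X)) (lk T S X) (c' - c) := by
  intro hall c c' hv
  have h1 : ∀ k, T (ch T S X k) = ch T S X (k + 1) ∧ S (ch T S X (k + 1)) = ch T S X k := by
    intro k
    constructor
    · funext i
      exact (hall k (i + 1) i (Nat.lt_succ_self i)).1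
    · funext i
      exact (hall k (i + 1) i (Nat.lt_succ_self i)).2
  have h0 : ch T S X c = ch T S X c' := by
    funext i
    exact val_eq (hv (i + 1)) i (Nat.lt_succ_self i)
  have h2 : ∀ k : ℤ, ch T S X (c + k) = ch T S X (c' + k) := by
    intro k
    induction k with
    | zero => rw [add_zero, add_zero, h0]
    | succ n ih =>
      rw [show c + ((n : ℤ) + 1) = (c + n) + 1 by omega, ← (h1 _).1, ih, (h1 _).1, add_assoc]
    | pred n ih =>
      have e1 := (h1 (c + (-(n : ℤ) - 1))).2
      have e2 := (h1 (c' + (-(n : ℤ) - 1))).2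
      rw [show c + (-(n : ℤ) - 1) + 1 = c + -(n : ℤ) by omega] at e1
      rw [show c' + (-(n : ℤ) - 1) + 1 = c' + -(n : ℤ) by omega] at e2
      rw [← e1, ← e2, ih]
  refine sy_of fun p => ?_
  have := h2 (p - c)
  rw [show c + (p - c) = p by omega] at this
  rw [this]
  congr 1
  omega

end chain

/-! Finite approximations of the functionals. -/

/-- the total functional with use bound `u` and with the values given by `δ` -/
def TT (δ : ℕ → List Bool → Bool) (u : ℕ → ℕ) (X : ℕ → Bool) : ℕ → Bool :=
  fun i => δ i (pre X (u i))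

def Gn (δ : ℕ → List Bool → Bool) (u : ℕ → ℕ) (τ : List Bool) : ℕ → List Bool
  | 0 => []
  | n + 1 => cond (decide (u n ≤ τ.length) && decide ((Gn δ u τ n).length = n))
      (Gn δ u τ n ++ [δ n (τ.take (u n))]) (Gn δ u τ n)

def GG (δ : ℕ → List Bool → Bool) (u : ℕ → ℕ) (τ : List Bool) : List Bool := Gn δ u τ τ.length

structure Apx (g : List Bool → List Bool) (T : (ℕ → Bool) → (ℕ → Bool)) : Prop where
  ok : ∀ X L, ∃ L', g (pre X L) = pre (T X) L'
  long : ∀ X N, ∃ M, ∀ L ≥ M, N ≤ (g (pre X L)).length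

section apx

variable {δ : ℕ → List Bool → Bool} {u : ℕ → ℕ}

theorem pre_succ (X : ℕ → Bool) (n : ℕ) : pre X (n + 1) = pre X n ++ [X n] := by
  simp [pre, List.range_succ]

theorem Gn_ok (X : ℕ → Bool) (L n : ℕ) : ∃ n' ≤ n, Gn δ u (pre X L) n = pre (TT δ u X) n' := by
  induction n with
  | zero => exact ⟨0, le_rfl, rfl⟩
  | succ n ih =>
    obtain ⟨n', h1, h2⟩ := ih
    by_cases hc : u n ≤ L ∧ n' = n
    · obtain ⟨hc1, hc2⟩ := hc
      subst hc2
      refine ⟨n' + 1, le_rfl, ?_⟩
      rw [Gn, h2, pre_succ, length_pre, length_pre, decide_eq_true hc1, decide_eq_true rfl,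
        take_pre _ _ _ hc1]
      rfl
    · refine ⟨n', by omega, ?_⟩
      have : (decide (u n ≤ (pre X L).length) && decide ((Gn δ u (pre X L) n).length = n)) =
          false := by
        rw [h2, length_pre, length_pre, Bool.and_eq_false_iff, decide_eq_false_iff_not,
          decide_eq_false_iff_not]
        tauto
      rw [Gn, this, cond_false, h2]

theorem Gn_full (X : ℕ → Bool) (L n : ℕ) (h : ∀ i < n, u i ≤ L) :
    Gn δ u (pre X L) n = pre (TT δ u X) n := by
  induction n with
  | zero => rfl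
  | succ n ih =>
    have h2 := ih fun i hi => h i (by omega)
    have hc1 := h n (Nat.lt_succ_self n)
    rw [Gn, h2, pre_succ, length_pre, length_pre, decide_eq_true hc1, decide_eq_true rfl,
        take_pre _ _ _ hc1]
    rfl

theorem Gn_mono (τ : List Bool) {n m : ℕ} (h : n ≤ m) :
    (Gn δ u τ n).length ≤ (Gn δ u τ m).length := by
  induction m, h using Nat.le_induction with
  | base => exact le_rfl
  | succ m _ ih =>
    rw [Gn]
    cases (decide (u m ≤ τ.length) && decide ((Gn δ u τ m).length = m))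
    · exact ih
    · rw [cond_true, List.length_append]
      omega

theorem apx_GG : Apx (GG δ u) (TT δ u) where
  ok X L := by
    obtain ⟨n', -, h⟩ := Gn_ok (δ := δ) (u := u) X L (pre X L).length
    exact ⟨n', h⟩
  long X N := by
    obtain ⟨a, ha⟩ := bdd_lt N (fun i L => u i ≤ L) (fun i _ => ⟨u i, fun b hb => hb⟩)
    refine ⟨max N a, fun L hL => ?_⟩
    have h1 := Gn_full (δ := δ) (u := u) X L N (fun i hi => ha i hi L (by omega))
    have h2 := Gn_mono (δ := δ) (u := u) (pre X L) (n := N) (m := (pre X L).length)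
      (by rw [length_pre]; omega)
    rw [h1, length_pre] at h2
    exact h2

theorem Apx.iter {g : List Bool → List Bool} {T : (ℕ → Bool) → (ℕ → Bool)} (h : Apx g T) (n : ℕ) :
    Apx (g^[n]) (T^[n]) := by
  induction n with
  | zero => exact ⟨fun X L => ⟨L, rfl⟩, fun X N => ⟨N, fun L hL => by
      rw [Function.iterate_zero, id, length_pre]; exact hL⟩⟩
  | succ n ih =>
    refine ⟨fun X L => ?_, fun X N => ?_⟩
    · rw [Function.iterate_succ_apply', Function.iterate_succ_apply']
      obtain ⟨L', h1⟩ := ih.ok X L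
      rw [h1]
      exact h.ok _ _
    · obtain ⟨M', hM'⟩ := h.long (T^[n] X) N
      obtain ⟨M, hM⟩ := ih.long X M'
      refine ⟨M, fun L hL => ?_⟩
      rw [Function.iterate_succ_apply']
      obtain ⟨L', h1⟩ := ih.ok X L
      have h2 := hM L hL
      rw [h1, length_pre] at h2
      rw [h1]
      exact hM' L' h2

end apx

/-! The tables. -/

def rowG (g g' : List Bool → List Bool) (σ : List Bool) (k : ℕ) : List Bool :=
  cond (decide (k % 2 = 0)) (g^[k / 2] σ) (g'^[k / 2 + 1] σ)

def ent (g g' : List Bool → List Bool) (σ : List Bool) (k : ℕ) :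
    List Bool × List Bool × List Bool := (rowG g g' σ k, g (rowG g g' σ k), g' (rowG g g' σ k))

def On (g g' : List Bool → List Bool) (σ : List Bool) : ℕ → Tb
  | 0 => []
  | n + 1 => On g g' σ n ++ [ent g g' σ n]

/-- the number of rows -/
def KK (t : ℕ) : ℕ := 2 * (ff t + 1) + 1

/-- the rows are long -/
def Lg (O : Tb) (K N : ℕ) : Prop := ∀ k < K, N ≤ (O.getD k ([], [], [])).1.length ∧
  N ≤ (O.getD k ([], [], [])).2.1.length ∧ N ≤ (O.getD k ([], [], [])).2.2.length

section tables

variable {g g' : List Bool → List Bool} {T S : (ℕ → Bool) → (ℕ → Bool)} {X : ℕ → Bool}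

theorem On_length (σ : List Bool) (n : ℕ) : (On g g' σ n).length = n := by
  induction n with
  | zero => rfl
  | succ n ih => rw [On, List.length_append, ih]; rfl

theorem On_getD (σ : List Bool) {n k : ℕ} (hk : k < n) :
    (On g g' σ n).getD k ([], [], []) = ent g g' σ k := by
  induction n with
  | zero => omega
  | succ n ih =>
    rw [On]
    rcases Nat.lt_succ_iff_lt_or_eq.1 hk with h | h
    · rw [List.getD_append _ _ _ _ (by rw [On_length]; exact h), ih h]
    · subst h
      rw [List.getD_append_right _ _ _ _ (by rw [On_length]), On_length, Nat.sub_self]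
      rfl

theorem rowG_enc (hg : Apx g T) (hg' : Apx g' S) (L : ℕ) (p : ℤ) :
    ∃ L', rowG g g' (pre X L) (encode p) = pre (ch T S X p) L' := by
  cases p with
  | ofNat n =>
    have e : encode (Int.ofNat n) = 2 * n := rfl
    rw [e]
    unfold rowG
    rw [decide_eq_true (by omega), cond_true, show 2 * n / 2 = n by omega]
    exact (hg.iter n).ok X L
  | negSucc n =>
    have e : encode (Int.negSucc n) = 2 * n + 1 := rfl
    rw [e]
    unfold rowG
    rw [decide_eq_false (by omega), cond_false, show (2 * n + 1) / 2 = n by omega]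
    exact (hg'.iter (n + 1)).ok X L

theorem gd_of_long (hg : Apx g T) (hg' : Apx g' S) {L t : ℕ}
    (h : Lg (On g g' (pre X L) (KK t)) (KK t) (t + 1)) :
    Gd (ch T S X) (fun p => T (ch T S X p)) (fun p => S (ch T S X p))
      (On g g' (pre X L) (KK t)) t := by
  intro p h1 h2 i hi
  have hk : encode p < KK t := enc_lt (B := ff t + 1) (by push_cast; omega) (by push_cast; omega)
  obtain ⟨g1, g2, g3⟩ := h (encode p) hk
  unfold YO TO SO rowO
  rw [On_getD _ hk] at g1 g2 g3 ⊢
  unfold ent at g1 g2 g3 ⊢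
  obtain ⟨L1, e1⟩ := rowG_enc (X := X) hg hg' L p
  obtain ⟨L2, e2⟩ := hg.ok (ch T S X p) L1
  obtain ⟨L3, e3⟩ := hg'.ok (ch T S X p) L1
  simp only [e1, e2, e3, length_pre] at g1 g2 g3 ⊢
  exact ⟨ext_pre_eq (by omega), ext_pre_eq (by omega), ext_pre_eq (by omega)⟩

theorem rowG_long (hg : Apx g T) (hg' : Apx g' S) (N k : ℕ) :
    ∃ M, ∀ L ≥ M, N ≤ (rowG g g' (pre X L) k).length := by
  unfold rowG
  by_cases hk : k % 2 = 0
  · rw [decide_eq_true hk]
    exact (hg.iter (k / 2)).long X N
  · rw [decide_eq_false hk]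
    exact (hg'.iter (k / 2 + 1)).long X N

theorem long_exists (hg : Apx g T) (hg' : Apx g' S) (K N : ℕ) :
    ∃ M, ∀ L ≥ M, Lg (On g g' (pre X L) K) K N := by
  have hstep : ∀ k < K, ∃ M, ∀ L ≥ M, N ≤ (ent g g' (pre X L) k).1.length ∧
      N ≤ (ent g g' (pre X L) k).2.1.length ∧ N ≤ (ent g g' (pre X L) k).2.2.length := by
    intro k _
    have hp : k = encode (Denumerable.ofNat ℤ k) := (Denumerable.encode_ofNat k).symm
    generalize Denumerable.ofNat ℤ k = p at hp
    subst hp
    obtain ⟨M2, h2⟩ := hg.long (ch T S X p) N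
    obtain ⟨M3, h3⟩ := hg'.long (ch T S X p) N
    obtain ⟨M, hM⟩ := rowG_long (X := X) hg hg' (max N (max M2 M3)) (encode p)
    refine ⟨M, fun L hL => ?_⟩
    have h4 := hM L hL
    obtain ⟨L1, e1⟩ := rowG_enc (X := X) hg hg' L p
    unfold ent
    rw [e1, length_pre] at h4
    rw [e1]
    exact ⟨by rw [length_pre]; omega, h2 L1 (by omega), h3 L1 (by omega)⟩
  obtain ⟨M, hM⟩ := bdd_lt K _ hstep
  refine ⟨M, fun L hL k hk => ?_⟩
  rw [On_getD _ hk]
  exact hM k hk L hL

/-! Computability. -/

theorem comp_Gn {δ : ℕ → List Bool → Bool} {u : ℕ → ℕ} (hδ : Computable₂ δ) (hu : Computable u) :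
    Computable fun x : List Bool × ℕ => Gn δ u x.1 x.2 := by
  have hc : Primrec fun y : ℕ × List Bool × ℕ × List Bool =>
      (decide (y.1 ≤ y.2.1.length) && decide (y.2.2.2.length = y.2.2.1)) :=
    pf_andb (pf_decide (pp_le (by fun_prop) (by fun_prop)) _)
      (pf_decide (pp_eq (by fun_prop) (by fun_prop)) _)
  have ha : Primrec fun y : List Bool × Bool => y.1 ++ [y.2] := by fun_prop
  have ht : Primrec fun y : List Bool × ℕ => y.1.take y.2 := by fun_prop
  have hun : Computable fun w : (List Bool × ℕ) × (ℕ × List Bool) => u w.2.1 :=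
    hu.comp (Computable.fst.comp Computable.snd)
  have hx : Computable fun w : (List Bool × ℕ) × (ℕ × List Bool) => w.1.1 :=
    Computable.fst.comp Computable.fst
  have hn : Computable fun w : (List Bool × ℕ) × (ℕ × List Bool) => w.2.1 :=
    Computable.fst.comp Computable.snd
  have hI : Computable fun w : (List Bool × ℕ) × (ℕ × List Bool) => w.2.2 :=
    Computable.snd.comp Computable.snd
  have hh : Computable₂ fun (x : List Bool × ℕ) (y : ℕ × List Bool) =>
      cond (decide (u y.1 ≤ x.1.length) && decide (y.2.length = y.1))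
        (y.2 ++ [δ y.1 (x.1.take (u y.1))]) y.2 := by
    have h1 : Computable fun w : (List Bool × ℕ) × (ℕ × List Bool) =>
        cond (decide (u w.2.1 ≤ w.1.1.length) && decide (w.2.2.length = w.2.1))
          (w.2.2 ++ [δ w.2.1 (w.1.1.take (u w.2.1))]) w.2.2 :=
      Computable.cond (hc.to_comp.comp (hun.pair (hx.pair (hn.pair hI))))
        (ha.to_comp.comp (hI.pair (hδ.comp hn (ht.to_comp.comp (hx.pair hun))))) hI
    exact h1
  have h := Computable.nat_rec (f := fun x : List Bool × ℕ => x.2)
    (g := fun _ => ([] : List Bool)) Computable.snd (Computable.const []) hh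
  refine h.of_eq ?_
  rintro ⟨σ, n⟩
  induction n with
  | zero => rfl
  | succ n ih =>
    change _ = cond (decide (u n ≤ σ.length) && decide ((Gn δ u σ n).length = n))
      (Gn δ u σ n ++ [δ n (σ.take (u n))]) (Gn δ u σ n)
    rw [← ih]

theorem comp_GG {δ : ℕ → List Bool → Bool} {u : ℕ → ℕ} (hδ : Computable₂ δ) (hu : Computable u) :
    Computable (GG δ u) :=
  (comp_Gn hδ hu).comp (f := fun x : List Bool × ℕ => Gn δ u x.1 x.2)
    (g := fun τ : List Bool => (τ, τ.length)) (Computable.id.pair Primrec.list_length.to_comp)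

theorem comp_iter (hg : Computable g) : Computable fun x : List Bool × ℕ => g^[x.2] x.1 := by
  have hh : Computable₂ fun (_ : List Bool × ℕ) (y : ℕ × List Bool) => g y.2 :=
    hg.comp (Computable.snd.comp Computable.snd)
  have h := Computable.nat_rec (f := fun x : List Bool × ℕ => x.2)
    (g := fun x : List Bool × ℕ => x.1) Computable.snd Computable.fst hh
  refine h.of_eq ?_
  rintro ⟨σ, n⟩
  induction n with
  | zero => rfl
  | succ n ih =>
    simp only at ih ⊢
    rw [ih, Function.iterate_succ_apply']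

theorem comp_On (hg : Computable g) (hg' : Computable g') :
    Computable fun x : List Bool × ℕ => On g g' x.1 x.2 := by
  have h1 : Primrec fun x : List Bool × ℕ => decide (x.2 % 2 = 0) :=
    pf_decide (pp_eq (by fun_prop) (by fun_prop)) _
  have h2 : Primrec fun x : List Bool × ℕ => (x.1, x.2 / 2) := by fun_prop
  have h3 : Primrec fun x : List Bool × ℕ => (x.1, x.2 / 2 + 1) := by fun_prop
  have hrow : Computable fun x : List Bool × ℕ => rowG g g' x.1 x.2 :=
    Computable.cond h1.to_comp ((comp_iter hg).comp h2.to_comp) ((comp_iter hg').comp h3.to_comp)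
  have hent : Computable fun x : List Bool × ℕ => ent g g' x.1 x.2 :=
    hrow.pair ((hg.comp hrow).pair (hg'.comp hrow))
  have ha : Primrec fun y : Tb × (List Bool × List Bool × List Bool) => y.1 ++ [y.2] := by fun_prop
  have hh : Computable₂ fun (x : List Bool × ℕ) (y : ℕ × Tb) => y.2 ++ [ent g g' x.1 y.1] := by
    have h4 : Computable fun w : (List Bool × ℕ) × (ℕ × Tb) => w.2.2 ++ [ent g g' w.1.1 w.2.1] :=
      ha.to_comp.comp ((Computable.snd.comp Computable.snd).pair (hent.comp
        ((Computable.fst.comp Computable.fst).pair (Computable.fst.comp Computable.snd))))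
    exact h4
  have h := Computable.nat_rec (f := fun x : List Bool × ℕ => x.2)
    (g := fun _ => ([] : Tb)) Computable.snd (Computable.const []) hh
  refine h.of_eq ?_
  rintro ⟨σ, n⟩
  induction n with
  | zero => rfl
  | succ n ih =>
    change _ = On g g' σ n ++ [ent g g' σ n]
    rw [← ih]

theorem pp_Lg {β : Type} [Primcodable β] {O : β → Tb} {K N : β → ℕ} (hO : Primrec O)
    (hK : Primrec K) (hN : Primrec N) : PrimrecPred fun b => Lg (O b) (K b) (N b) := by
  have h1 : Primrec fun x : β × ℕ => (O x.1).getD x.2 ([], [], []) := by fun_prop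
  refine pp_alllt (by fun_prop) (PrimrecPred.and (pp_le (by fun_prop)
    (pf_length (Primrec.fst.comp h1))) (PrimrecPred.and (pp_le (by fun_prop)
    (pf_length (Primrec.fst.comp (Primrec.snd.comp h1)))) (pp_le (by fun_prop)
    (pf_length (Primrec.snd.comp (Primrec.snd.comp h1))))))

end tables

theorem si_gen {α : Type} [Primcodable α] {X : ℕ → Bool} {P : α × List Bool → Prop} (hP : S1 P) :
    SI X fun x : α × ℕ => P (x.1, pre X x.2) := by
  have h2 : SI X fun x : α × ℕ => ∃ σ : List Bool, (∀ i < σ.length, X i = σ.getD i false) ∧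
      σ.length = x.2 ∧ P (x.1, σ) := by
    refine SI.ex (p := fun (x : α × ℕ) (σ : List Bool) =>
      (∀ i < σ.length, X i = σ.getD i false) ∧ σ.length = x.2 ∧ P (x.1, σ))
      (SI.and ?_ (SI.and ?_ ?_))
    · refine SI.all_lt (α := (α × ℕ) × List Bool) (p := fun x i => X i = x.2.getD i false)
        (f := fun x => x.2.length) ?_ (Primrec.list_length.comp Primrec.snd)
      exact SI.query.comp (f := fun z : ((α × ℕ) × List Bool) × ℕ => (z.2, z.1.2.getD z.2 false))
        (Primrec.snd.pair ((Primrec.list_getD false).comp (Primrec.snd.comp Primrec.fst)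
          Primrec.snd))
    · exact SI.of_prim (Primrec.eq.comp (Primrec.list_length.comp Primrec.snd)
        (Primrec.snd.comp Primrec.fst))
    · exact (SI.of_s1 hP).comp (f := fun z : (α × ℕ) × List Bool => (z.1.1, z.2)) (by fun_prop)
  refine h2.of_eq fun x => ?_
  constructor
  · rintro ⟨σ, h3, h4, h5⟩
    have := t42_eq_pre h3
    rw [h4] at this
    rwa [this]
  · intro h
    exact ⟨pre X x.2, fun i hi => (pre_getD X _ _ _ (by simpa using hi)).symm, by simp, h⟩

/-- finite conditions on tables -/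
theorem si_tab {α : Type} [Primcodable α] {g g' : List Bool → List Bool}
    {T S : (ℕ → Bool) → (ℕ → Bool)} (hg : Apx g T) (hg' : Apx g' S) (cg : Computable g)
    (cg' : Computable g') (X : ℕ → Bool) {R : α → Prop} {F : Tb → α → Prop} {κ : α → ℕ}
    (hF : PrimrecPred fun x : Tb × α => F x.1 x.2) (hκ : Primrec κ)
    (hR : ∀ a O, Gd (ch T S X) (fun p => T (ch T S X p)) (fun p => S (ch T S X p)) O (κ a) →
      (F O a ↔ R a)) : SI X R := by
  have hP : S1 fun y : α × List Bool => Lg (On g g' y.2 (KK (κ y.1))) (KK (κ y.1)) (κ y.1 + 1) ∧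
      F (On g g' y.2 (KK (κ y.1))) y.1 := by
    have hK : Primrec fun x : α => KK (κ x) := by
      unfold KK
      fun_prop
    have h1 : PrimrecPred fun x : Tb × α => Lg x.1 (KK (κ x.2)) (κ x.2 + 1) ∧ F x.1 x.2 :=
      PrimrecPred.and (pp_Lg (by fun_prop) (hK.comp Primrec.snd) (by fun_prop)) hF
    have h2 : Computable fun y : α × List Bool => ((y.2, KK (κ y.1)) : List Bool × ℕ) :=
      Computable.snd.pair (hK.to_comp.comp Computable.fst)
    exact (S1.of_prim h1).comp_computable
      (f := fun y : α × List Bool => (On g g' y.2 (KK (κ y.1)), y.1))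
      (((comp_On cg cg').comp h2).pair Computable.fst)
  have h3 : SI X fun a : α => ∃ L, Lg (On g g' (pre X L) (KK (κ a))) (KK (κ a)) (κ a + 1) ∧
      F (On g g' (pre X L) (KK (κ a))) a :=
    SI.ex (p := fun (a : α) (L : ℕ) => Lg (On g g' (pre X L) (KK (κ a))) (KK (κ a)) (κ a + 1) ∧
      F (On g g' (pre X L) (KK (κ a))) a) (si_gen hP)
  refine h3.of_eq fun a => ?_
  constructor
  · rintro ⟨L, h4, h5⟩
    exact (hR a _ (gd_of_long hg hg' h4)).1 h5
  · intro h
    obtain ⟨M, hM⟩ := long_exists (X := X) hg hg' (KK (κ a)) (κ a + 1)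
    exact ⟨M, hM M le_rfl, (hR a _ (gd_of_long hg hg' (hM M le_rfl))).2 h⟩

end Pool.Agent.TH769.ZA
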