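import Pool.Agent.TH769.ZA.Core

set_option autoImplicit false

/-!
Finite classes of positions in a chain, found in the limit.  `v m p` is (the number coding) the
initial segment of length `m` of the `p`-th member of the chain, and `L p s` says that the link
between `p` and `p + 1` looks right at stage `s`.
-/

namespace Pool.Agent.TH769.ZA

open Encodable Pool.Agent.Helper227
open Pool.Agent.TH769.CD (bdd_lt)

/-- all links between `p` and `w` look right at stage `s` -/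
def Conn (L : ℤ → ℕ → Prop) (s : ℕ) (p w : ℤ) : Prop :=
  ∀ i < 2 * s + 1, (p ≤ wd p s i ∧ wd p s i < w ∨ w ≤ wd p s i ∧ wd p s i < p) → L (wd p s i) s

/-- `p` looks like a marker of level `m` -/
def Mk (v : ℕ → ℤ → ℕ) (L : ℤ → ℕ → Prop) (m s : ℕ) (p : ℤ) : Prop :=
  ∀ i < 2 * s + 1, Conn L s p (wd p s i) → v m p ≤ v m (wd p s i)

/-- `p` looks like a special position of type `j` -/
def SP (v : ℕ → ℤ → ℕ) (L : ℤ → ℕ → Prop) (j s : ℕ) (p : ℤ) : Prop :=
  (j = 0 ∧ ¬ L (p - 1) s) ∨ (j = 1 ∧ ¬ L p s) ∨ (j = 2 ∧ Mk v L s s p) ∨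
  (3 ≤ j ∧ j % 2 = 1 ∧ Mk v L ((j - 3) / 2) s p ∧
    ∀ i < 2 * s + 1, p < wd p s i → Conn L s p (wd p s i) →
      v ((j - 3) / 2) (wd p s i) ≠ v ((j - 3) / 2) p) ∨
  (3 ≤ j ∧ j % 2 = 0 ∧ Mk v L ((j - 3) / 2) s p ∧
    ∀ i < 2 * s + 1, wd p s i < p → Conn L s p (wd p s i) →
      v ((j - 3) / 2) (wd p s i) ≠ v ((j - 3) / 2) p)

def Near (v : ℕ → ℤ → ℕ) (L : ℤ → ℕ → Prop) (m s : ℕ) (p : ℤ) (j i : ℕ) : Prop :=
  Conn L s p (wd p m i) ∧ SP v L j s (wd p m i)

def Ord (v : ℕ → ℤ → ℕ) (L : ℤ → ℕ → Prop) (m s : ℕ) (p l : ℤ) : Prop :=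
  l ≤ p ∧ p ≤ l + s ∧ Conn L s p l ∧ Mk v L m s l ∧
  (∀ i < 2 * s + 1, l < wd p s i → wd p s i ≤ p → ¬ Mk v L m s (wd p s i)) ∧
  ∃ i < 2 * s + 1, p < wd l s i ∧ Conn L s l (wd l s i) ∧ Mk v L m s (wd l s i)

/-- `c` is the representative of `p` at level `m` and stage `s` -/
def Rep (v : ℕ → ℤ → ℕ) (L : ℤ → ℕ → Prop) (m s : ℕ) (p c : ℤ) : Prop :=
  (s ≤ m ∧ c = p) ∨ (m < s ∧
    ((∃ j < m + 1, ∃ i < 2 * m + 1, c = wd p m i ∧ Near v L m s p j i ∧
      ∀ j' < m + 1, ∀ i' < 2 * m + 1, (j' < j ∨ (j' = j ∧ i' < i)) → ¬ Near v L m s p j' i') ∨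
    ((∀ j < m + 1, ∀ i < 2 * m + 1, ¬ Near v L m s p j i) ∧
      (Ord v L m s p c ∨ ((∀ i < 2 * s + 1, ¬ Ord v L m s p (wd p s i)) ∧ c = p)))))

/-- `p` and `q` are in the same class of level `m` at stage `s` -/
def QZ (v : ℕ → ℤ → ℕ) (L : ℤ → ℕ → Prop) (m s : ℕ) (p q : ℤ) : Prop :=
  ∃ i < 2 * s + 1, Rep v L m s p (wd p s i) ∧ Rep v L m s q (wd p s i)

/-- the link between `k` and `k + 1` is right -/
def TL (L : ℤ → ℕ → Prop) (k : ℤ) : Prop := ∀ s, L k s

def TC (L : ℤ → ℕ → Prop) (p w : ℤ) : Prop :=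
  ∀ k, (p ≤ k ∧ k < w ∨ w ≤ k ∧ k < p) → TL L k

def TM (v : ℕ → ℤ → ℕ) (L : ℤ → ℕ → Prop) (m : ℕ) (p : ℤ) : Prop :=
  ∀ w, TC L p w → v m p ≤ v m w

def TSP (v : ℕ → ℤ → ℕ) (L : ℤ → ℕ → Prop) (j : ℕ) (p : ℤ) : Prop :=
  (j = 0 ∧ ¬ TL L (p - 1)) ∨ (j = 1 ∧ ¬ TL L p) ∨ (j = 2 ∧ ∀ i, TM v L i p) ∨
  (3 ≤ j ∧ j % 2 = 1 ∧ TM v L ((j - 3) / 2) p ∧
    ∀ w, p < w → TC L p w → v ((j - 3) / 2) w ≠ v ((j - 3) / 2) p) ∨
  (3 ≤ j ∧ j % 2 = 0 ∧ TM v L ((j - 3) / 2) p ∧
    ∀ w, w < p → TC L p w → v ((j - 3) / 2) w ≠ v ((j - 3) / 2) p)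

section

variable {v : ℕ → ℤ → ℕ} {L : ℤ → ℕ → Prop}

theorem conn_iff {s : ℕ} {p w : ℤ} (h1 : p - s ≤ w) (h2 : w ≤ p + s) :
    Conn L s p w ↔ ∀ k, (p ≤ k ∧ k < w ∨ w ≤ k ∧ k < p) → L k s := by
  constructor
  · intro h k hk
    obtain ⟨i, hi, e⟩ := ex_wd (p := p) (w := k) (r := s) (by omega) (by omega)
    have := h i hi
    rw [e] at this
    exact this hk
  · intro h i _ hk
    exact h _ hk

theorem conn_symm {s : ℕ} {p w : ℤ} (h1 : p - s ≤ w) (h2 : w ≤ p + s) (h : Conn L s p w) :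
    Conn L s w p := by
  rw [conn_iff h1 h2] at h
  rw [conn_iff (by omega) (by omega)]
  intro k hk
  exact h k hk.symm

theorem tc_refl (p : ℤ) : TC L p p := by
  intro k hk
  omega

theorem tc_symm {p w : ℤ} (h : TC L p w) : TC L w p := fun k hk => h k hk.symm

theorem tc_trans {p w x : ℤ} (h : TC L p w) (h' : TC L w x) : TC L p x := by
  intro k hk
  by_cases h1 : (p ≤ k ∧ k < w ∨ w ≤ k ∧ k < p)
  · exact h k h1
  · exact h' k (by omega)

theorem tc_conn {s : ℕ} {p w : ℤ} (h : TC L p w) : Conn L s p w := fun _ _ hk => h _ hk s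

theorem rep_bd {m s : ℕ} {p c : ℤ} (h : Rep v L m s p c) : p - s ≤ c ∧ c ≤ p + s := by
  rcases h with ⟨_, h⟩ | ⟨hm, ⟨j, _, i, hi, h, -⟩ | ⟨-, h | ⟨-, h⟩⟩⟩
  · omega
  · have := wd_bd (p := p) hi
    omega
  · have h1 := h.1
    have h2 := h.2.1
    omega
  · omega

theorem rep_exists (m s : ℕ) (p : ℤ) : ∃ c, Rep v L m s p c := by
  classical
  by_cases hs : s ≤ m
  · exact ⟨p, Or.inl ⟨hs, rfl⟩⟩
  by_cases hn : ∃ j, j < m + 1 ∧ ∃ i, i < 2 * m + 1 ∧ Near v L m s p j i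
  · obtain ⟨h1, h2⟩ := Nat.find_spec hn
    have hmin := fun j' (h' : j' < Nat.find hn) => Nat.find_min hn h'
    generalize Nat.find hn = j at h1 h2 hmin
    obtain ⟨h3, h4⟩ := Nat.find_spec h2
    have hmin2 := fun i' (h' : i' < Nat.find h2) => Nat.find_min h2 h'
    generalize Nat.find h2 = i at h3 h4 hmin2
    refine ⟨wd p m i, Or.inr ⟨by omega, Or.inl ⟨j, h1, i, h3, rfl, h4, ?_⟩⟩⟩
    intro j' hj' i' hi' hlt hN
    rcases hlt with h5 | ⟨h5, h6⟩
    · exact hmin j' h5 ⟨hj', i', hi', hN⟩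
    · subst h5
      exact hmin2 i' h6 ⟨hi', hN⟩
  · have hn' : ∀ j < m + 1, ∀ i < 2 * m + 1, ¬ Near v L m s p j i :=
      fun j hj i hi h => hn ⟨j, hj, i, hi, h⟩
    by_cases ho : ∃ c, Ord v L m s p c
    · obtain ⟨c, hc⟩ := ho
      exact ⟨c, Or.inr ⟨by omega, Or.inr ⟨hn', Or.inl hc⟩⟩⟩
    · exact ⟨p, Or.inr ⟨by omega, Or.inr ⟨hn', Or.inr ⟨fun i _ h => ho ⟨_, h⟩, rfl⟩⟩⟩⟩

theorem ord_unique {m s : ℕ} {p l l' : ℤ} (h : Ord v L m s p l) (h' : Ord v L m s p l') :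
    l = l' := by
  have aux : ∀ a b : ℤ, Ord v L m s p a → Ord v L m s p b → ¬ a < b := by
    intro a b ha hb hlt
    obtain ⟨i, hi, e⟩ := ex_wd (p := p) (w := b) (r := s) (by have := hb.2.1; omega)
      (by have := hb.1; omega)
    refine ha.2.2.2.2.1 i hi (by rw [e]; exact hlt) (by rw [e]; exact hb.1) ?_
    rw [e]
    exact hb.2.2.2.1
  rcases lt_trichotomy l l' with h1 | h1 | h1
  · exact absurd h1 (aux _ _ h h')
  · exact h1
  · exact absurd h1 (aux _ _ h' h)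

theorem rep_unique {m s : ℕ} {p c c' : ℤ} (h : Rep v L m s p c) (h' : Rep v L m s p c') :
    c = c' := by
  rcases h with ⟨h1, h2⟩ | ⟨h1, h2⟩
  · rcases h' with ⟨_, h4⟩ | ⟨h3, _⟩
    · rw [h2, h4]
    · omega
  · rcases h' with ⟨h3, _⟩ | ⟨_, h4⟩
    · omega
    rcases h2 with ⟨j, hj, i, hi, e, hN, hm⟩ | ⟨hn, h2⟩
    · rcases h4 with ⟨j', hj', i', hi', e', hN', hm'⟩ | ⟨hn', _⟩
      · have h5 : ¬ (j' < j ∨ (j' = j ∧ i' < i)) := fun h => hm j' hj' i' hi' h hN'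
        have h6 : ¬ (j < j' ∨ (j = j' ∧ i < i')) := fun h => hm' j hj i hi h hN
        have h7 : i = i' := by omega
        rw [e, e', h7]
      · exact absurd hN (hn' j hj i hi)
    · rcases h4 with ⟨j', hj', i', hi', e', hN', hm'⟩ | ⟨hn', h4⟩
      · exact absurd hN' (hn j' hj' i' hi')
      · rcases h2 with h2 | ⟨h2, e2⟩
        · rcases h4 with h4 | ⟨h4, e4⟩
          · exact ord_unique h2 h4
          · obtain ⟨i, hi, e⟩ := ex_wd (p := p) (w := c) (r := s) (by have := h2.2.1; omega)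
              (by have := h2.1; omega)
            exact absurd (by rw [e]; exact h2) (h4 i hi)
        · rcases h4 with h4 | ⟨h4, e4⟩
          · obtain ⟨i, hi, e⟩ := ex_wd (p := p) (w := c') (r := s) (by have := h4.2.1; omega)
              (by have := h4.1; omega)
            exact absurd (by rw [e]; exact h4) (h2 i hi)
          · rw [e2, e4]

theorem qz_iff {m s : ℕ} {p q : ℤ} : QZ v L m s p q ↔
    ∃ c, Rep v L m s p c ∧ Rep v L m s q c := by
  constructor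
  · rintro ⟨i, _, h⟩
    exact ⟨_, h⟩
  · rintro ⟨c, h1, h2⟩
    have hb := rep_bd h1
    obtain ⟨i, hi, e⟩ := ex_wd (p := p) (w := c) (r := s) hb.1 hb.2
    exact ⟨i, hi, by rw [e]; exact ⟨h1, h2⟩⟩

/-! The limit. -/

/-- `L` is antitone -/
def Anti (L : ℤ → ℕ → Prop) : Prop := ∀ k s s', s ≤ s' → L k s' → L k s

theorem right_end (L : ℤ → ℕ → Prop) (p : ℤ) : (∀ k, p ≤ k → TL L k) ∨
    ∃ b, p ≤ b ∧ (∀ k, p ≤ k → k < b → TL L k) ∧ ¬ TL L b := by
  classical
  by_cases h : ∃ n : ℕ, ¬ TL L (p + n)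
  · right
    have h1 := Nat.find_spec h
    have h2 := fun n' (h' : n' < Nat.find h) => Nat.find_min h h'
    generalize Nat.find h = n at h1 h2
    refine ⟨p + n, by omega, fun k hk hkn => ?_, h1⟩
    have := h2 (k - p).toNat (by omega)
    rw [show p + ((k - p).toNat : ℤ) = k by omega] at this
    exact not_not.1 this
  · left
    push Not at h
    intro k hk
    have := h (k - p).toNat
    rwa [show p + ((k - p).toNat : ℤ) = k by omega] at this

theorem left_end (L : ℤ → ℕ → Prop) (p : ℤ) : (∀ k, k < p → TL L k) ∨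
    ∃ a, a < p ∧ (∀ k, a < k → k < p → TL L k) ∧ ¬ TL L a := by
  classical
  by_cases h : ∃ n : ℕ, ¬ TL L (p - 1 - n)
  · right
    have h1 := Nat.find_spec h
    have h2 := fun n' (h' : n' < Nat.find h) => Nat.find_min h h'
    generalize Nat.find h = n at h1 h2
    refine ⟨p - 1 - n, by omega, fun k hk hkn => ?_, h1⟩
    have := h2 (p - 1 - k).toNat (by omega)
    rw [show p - 1 - ((p - 1 - k).toNat : ℤ) = k by omega] at this
    exact not_not.1 this
  · left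
    push Not at h
    intro k hk
    have := h (p - 1 - k).toNat
    rwa [show p - 1 - ((p - 1 - k).toNat : ℤ) = k by omega] at this

/-- From some stage on the connections in the component of `p` are right. -/
theorem settled (hL : Anti L) (p : ℤ) : ∃ s0 : ℕ, ∀ s ≥ s0, ∀ w, TC L p w → ∀ w', w - s ≤ w' →
    w' ≤ w + s → Conn L s w w' → TC L w w' := by
  obtain ⟨sb, hb⟩ : ∃ sb, (∀ k, p ≤ k → TL L k) ∨
      ∃ b, p ≤ b ∧ (∀ k, p ≤ k → k < b → TL L k) ∧ ∀ s ≥ sb, ¬ L b s := by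
    rcases right_end L p with h | ⟨b, h1, h2, h3⟩
    · exact ⟨0, Or.inl h⟩
    · unfold TL at h3
      push Not at h3
      obtain ⟨sb, h3⟩ := h3
      exact ⟨sb, Or.inr ⟨b, h1, h2, fun s hs h => h3 (hL b sb s hs h)⟩⟩
  obtain ⟨sa, ha⟩ : ∃ sa, (∀ k, k < p → TL L k) ∨
      ∃ a, a < p ∧ (∀ k, a < k → k < p → TL L k) ∧ ∀ s ≥ sa, ¬ L a s := by
    rcases left_end L p with h | ⟨b, h1, h2, h3⟩
    · exact ⟨0, Or.inl h⟩
    · unfold TL at h3
      push Not at h3
      obtain ⟨sb, h3⟩ := h3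
      exact ⟨sb, Or.inr ⟨b, h1, h2, fun s hs h => h3 (hL b sb s hs h)⟩⟩
  refine ⟨max sa sb, fun s hs w hw w' h1 h2 hC k hk => ?_⟩
  rw [conn_iff h1 h2] at hC
  by_cases hkp : p ≤ k
  · rcases hb with hb | ⟨b, hb1, hb2, hb3⟩
    · exact hb k hkp
    · by_cases hkb : k < b
      · exact hb2 k hkp hkb
      · exfalso
        have hwb : w ≤ b := by
          by_contra hc
          exact hb3 s (by omega) (hw b (Or.inl ⟨hb1, by omega⟩) s)
        exact hb3 s (by omega) (hC b (by omega))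
  · rcases ha with ha | ⟨a, ha1, ha2, ha3⟩
    · exact ha k (by omega)
    · by_cases hka : a < k
      · exact ha2 k hka (by omega)
      · exfalso
        have hwa : a < w := by
          by_contra hc
          exact ha3 s (by omega) (hw a (Or.inr ⟨by omega, ha1⟩) s)
        exact ha3 s (by omega) (hC a (by omega))

/-- the connections in the component of `p` are right at stage `s` -/
def Set' (L : ℤ → ℕ → Prop) (p : ℤ) (s : ℕ) : Prop := ∀ w, TC L p w → ∀ w', w - s ≤ w' →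
    w' ≤ w + s → Conn L s w w' → TC L w w'

theorem tm_mk {p w : ℤ} {m s : ℕ} (hs : Set' L p s) (hw : TC L p w) (h : TM v L m w) :
    Mk v L m s w := by
  intro i hi hC
  have hb := wd_bd (p := w) hi
  exact h _ (hs w hw _ hb.1 hb.2 hC)

theorem mk_tm {m s : ℕ} {w r : ℤ} (h : Mk v L m s w) (hr : TC L w r) (h1 : w - s ≤ r)
    (h2 : r ≤ w + s) (ht : TM v L m r) : TM v L m w := by
  intro w' hw'
  obtain ⟨i, hi, e⟩ := ex_wd h1 h2
  have h3 := h i hi
  rw [e] at h3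
  exact (h3 (tc_conn hr)).trans (ht w' (tc_trans (tc_symm hr) hw'))

theorem not_tm {m : ℕ} {w : ℤ} (h : ¬ TM v L m w) : ∃ s1, ∀ s ≥ s1, ¬ Mk v L m s w := by
  unfold TM at h
  push Not at h
  obtain ⟨w', h1, h2⟩ := h
  refine ⟨(w' - w).natAbs, fun s hs hM => ?_⟩
  obtain ⟨i, hi, e⟩ := ex_wd (p := w) (w := w') (r := s) (by omega) (by omega)
  have h3 := hM i hi
  rw [e] at h3
  exact absurd (h3 (tc_conn h1)) (by omega)

theorem tm_exists (m : ℕ) (p : ℤ) : ∃ w, TC L p w ∧ TM v L m w := by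
  classical
  have h : ∃ n, ∃ w, TC L p w ∧ v m w = n := ⟨v m p, p, tc_refl p, rfl⟩
  obtain ⟨w, h1, h2⟩ := Nat.find_spec h
  refine ⟨w, h1, fun w' hw' => ?_⟩
  rw [h2]
  exact Nat.find_min' h ⟨w', tc_trans h1 hw', rfl⟩

/-- the coding of initial segments is compatible -/
def Fine (v : ℕ → ℤ → ℕ) : Prop := ∀ m p w, v (m + 1) p ≤ v (m + 1) w → v m p ≤ v m w

theorem fine_le (hv : Fine v) {m n : ℕ} (h : m ≤ n) {p w : ℤ} (h1 : v n p ≤ v n w) :
    v m p ≤ v m w := by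
  induction n, h using Nat.le_induction with
  | base => exact h1
  | succ n _ ih => exact ih (hv n p w h1)

theorem tm_down (hv : Fine v) {m n : ℕ} (h : m ≤ n) {p : ℤ} (h1 : TM v L n p) : TM v L m p :=
  fun w hw => fine_le hv h (h1 w hw)

theorem sp_lim (hL : Anti L) (hv : Fine v) (j : ℕ) (w : ℤ) :
    ∃ s0, ∀ s ≥ s0, (SP v L j s w ↔ TSP v L j w) := by
  obtain ⟨s0, hs0⟩ := settled hL w
  have hTL : ∀ k, ∃ s1, ∀ s ≥ s1, (¬ L k s ↔ ¬ TL L k) := by
    intro k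
    by_cases h : TL L k
    · exact ⟨0, fun s _ => ⟨fun h1 => absurd (h s) h1, fun h1 => absurd h h1⟩⟩
    · have h' := h
      unfold TL at h'
      push Not at h'
      obtain ⟨s1, h1⟩ := h'
      exact ⟨s1, fun s hs => ⟨fun _ => h, fun _ h2 => h1 (hL k s1 s hs h2)⟩⟩
  have hMk : ∀ m, ∃ s1, ∀ s ≥ s1, (Mk v L m s w ↔ TM v L m w) := by
    intro m
    by_cases h : TM v L m w
    · exact ⟨s0, fun s hs => ⟨fun _ => h, fun _ => tm_mk (hs0 s hs) (tc_refl w) h⟩⟩
    · obtain ⟨s1, h1⟩ := not_tm h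
      exact ⟨s1, fun s hs => ⟨fun h2 => absurd h2 (h1 s hs), fun h2 => absurd h2 h⟩⟩
  unfold SP TSP
  rcases Nat.lt_or_ge j 3 with hj | hj
  · obtain rfl | rfl | rfl : j = 0 ∨ j = 1 ∨ j = 2 := by omega
    · obtain ⟨s1, h1⟩ := hTL (w - 1)
      refine ⟨s1, fun s hs => ?_⟩
      simpa using h1 s hs
    · obtain ⟨s1, h1⟩ := hTL w
      refine ⟨s1, fun s hs => ?_⟩
      simpa using h1 s hs
    · by_cases h : ∀ i, TM v L i w
      · refine ⟨s0, fun s hs => ?_⟩
        have : Mk v L s s w := tm_mk (hs0 s hs) (tc_refl w) (h s)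
        simp [h, this]
      · have h' := h
        push Not at h'
        obtain ⟨i, hi⟩ := h'
        unfold TM at hi
        push Not at hi
        obtain ⟨w', h1, h2⟩ := hi
        refine ⟨max i (w' - w).natAbs, fun s hs => ?_⟩
        have : ¬ Mk v L s s w := by
          intro hM
          obtain ⟨k, hk, e⟩ := ex_wd (p := w) (w := w') (r := s) (by omega) (by omega)
          have h3 := hM k hk
          rw [e] at h3
          exact absurd (fine_le hv (by omega : i ≤ s) (h3 (tc_conn h1))) (by omega)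
        simp [h, this]
  · have hj0 : ¬ j = 0 := by omega
    have hj1 : ¬ j = 1 := by omega
    have hj2 : ¬ j = 2 := by omega
    obtain ⟨s1, h1⟩ := hMk ((j - 3) / 2)
    rcases Nat.mod_two_eq_zero_or_one j with hp | hp
    · have hR : ∃ s2, ∀ s ≥ s2, ((∀ i < 2 * s + 1, wd w s i < w → Conn L s w (wd w s i) →
          v ((j - 3) / 2) (wd w s i) ≠ v ((j - 3) / 2) w) ↔
          ∀ w', w' < w → TC L w w' → v ((j - 3) / 2) w' ≠ v ((j - 3) / 2) w) := by
        by_cases h : ∀ w', w' < w → TC L w w' → v ((j - 3) / 2) w' ≠ v ((j - 3) / 2) w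
        · refine ⟨s0, fun s hs => ⟨fun _ => h, fun _ i hi hlt hC => ?_⟩⟩
          have hb := wd_bd (p := w) hi
          exact h _ hlt (hs0 s hs w (tc_refl w) _ hb.1 hb.2 hC)
        · have h' := h
          push Not at h'
          obtain ⟨w', g1, g2, g3⟩ := h'
          refine ⟨(w' - w).natAbs, fun s hs => ⟨fun hh => ?_, fun hh => absurd hh h⟩⟩
          obtain ⟨k, hk, e⟩ := ex_wd (p := w) (w := w') (r := s) (by omega) (by omega)
          have h3 := hh k hk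
          rw [e] at h3
          exact absurd g3 (h3 g1 (tc_conn g2))
      obtain ⟨s2, h2⟩ := hR
      refine ⟨max s1 s2, fun s hs => ?_⟩
      have e1 := h1 s (by omega)
      have e2 := h2 s (by omega)
      simp only [hj0, hj1, hj2, false_and, false_or, hp, hj, true_and, Nat.zero_ne_one]
      rw [e1, e2]
    · have hR : ∃ s2, ∀ s ≥ s2, ((∀ i < 2 * s + 1, w < wd w s i → Conn L s w (wd w s i) →
          v ((j - 3) / 2) (wd w s i) ≠ v ((j - 3) / 2) w) ↔
          ∀ w', w < w' → TC L w w' → v ((j - 3) / 2) w' ≠ v ((j - 3) / 2) w) := by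
        by_cases h : ∀ w', w < w' → TC L w w' → v ((j - 3) / 2) w' ≠ v ((j - 3) / 2) w
        · refine ⟨s0, fun s hs => ⟨fun _ => h, fun _ i hi hlt hC => ?_⟩⟩
          have hb := wd_bd (p := w) hi
          exact h _ hlt (hs0 s hs w (tc_refl w) _ hb.1 hb.2 hC)
        · have h' := h
          push Not at h'
          obtain ⟨w', g1, g2, g3⟩ := h'
          refine ⟨(w' - w).natAbs, fun s hs => ⟨fun hh => ?_, fun hh => absurd hh h⟩⟩
          obtain ⟨k, hk, e⟩ := ex_wd (p := w) (w := w') (r := s) (by omega) (by omega)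
          have h3 := hh k hk
          rw [e] at h3
          exact absurd g3 (h3 g1 (tc_conn g2))
      obtain ⟨s2, h2⟩ := hR
      refine ⟨max s1 s2, fun s hs => ?_⟩
      have e1 := h1 s (by omega)
      have e2 := h2 s (by omega)
      simp only [hj0, hj1, hj2, false_and, false_or, hp, hj, true_and, Nat.one_ne_zero, or_false]
      rw [e1, e2]

def TNear (v : ℕ → ℤ → ℕ) (L : ℤ → ℕ → Prop) (m : ℕ) (p : ℤ) (j i : ℕ) : Prop :=
  TC L p (wd p m i) ∧ TSP v L j (wd p m i)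

theorem near_lim (hL : Anti L) (hv : Fine v) (m : ℕ) (p : ℤ) : ∃ s0, ∀ s ≥ s0,
    ∀ j < m + 1, ∀ i < 2 * m + 1, (Near v L m s p j i ↔ TNear v L m p j i) := by
  obtain ⟨s1, h1⟩ := settled hL p
  obtain ⟨s2, h2⟩ := bdd_lt (m + 1) (fun j s => ∀ i < 2 * m + 1,
    (SP v L j s (wd p m i) ↔ TSP v L j (wd p m i))) (fun j _ => by
      obtain ⟨a, ha⟩ := bdd_lt (2 * m + 1) (fun i s =>
        (SP v L j s (wd p m i) ↔ TSP v L j (wd p m i))) (fun i _ => sp_lim hL hv j _)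
      exact ⟨a, fun b hb i hi => ha i hi b hb⟩)
  refine ⟨max m (max s1 s2), fun s hs j hj i hi => ?_⟩
  have hb := wd_bd (p := p) hi
  refine and_congr ⟨fun h => ?_, tc_conn⟩ (h2 j hj s (by omega) i hi)
  exact h1 s (by omega) p (tc_refl p) _ (by omega) (by omega) h

theorem rep_near (hL : Anti L) (hv : Fine v) {m : ℕ} {p : ℤ} {j i : ℕ} (hj : j < m + 1)
    (hi : i < 2 * m + 1) (hN : TNear v L m p j i)
    (hmin : ∀ j' < m + 1, ∀ i' < 2 * m + 1, (j' < j ∨ (j' = j ∧ i' < i)) →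
      ¬ TNear v L m p j' i') : ∃ s0, ∀ s ≥ s0, Rep v L m s p (wd p m i) := by
  obtain ⟨s0, h0⟩ := near_lim hL hv m p
  refine ⟨max s0 (m + 1), fun s hs => Or.inr ⟨by omega, Or.inl ⟨j, hj, i, hi, rfl,
    (h0 s (by omega) j hj i hi).2 hN, fun j' hj' i' hi' hlt h => ?_⟩⟩⟩
  exact hmin j' hj' i' hi' hlt ((h0 s (by omega) j' hj' i' hi').1 h)

/-- the representative of an ordinary position between two markers -/
theorem rep_ord (hL : Anti L) (hv : Fine v) {m : ℕ} {p l r : ℤ}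
    (hno : ∀ j < m + 1, ∀ i < 2 * m + 1, ¬ TNear v L m p j i) (hl : TC L p l)
    (hlt : TM v L m l) (hlp : l ≤ p) (hmax : ∀ w, l < w → w ≤ p → ¬ TM v L m w)
    (hr : TC L p r) (hrt : TM v L m r) (hpr : p < r) : ∃ s0, ∀ s ≥ s0, Rep v L m s p l := by
  obtain ⟨s0, h0⟩ := near_lim hL hv m p
  obtain ⟨s1, h1⟩ := settled hL p
  refine ⟨max (max s0 s1) (max (m + 1) (r - l).natAbs), fun s hs => Or.inr ⟨by omega, Or.inr
    ⟨fun j hj i hi h => hno j hj i hi ((h0 s (by omega) j hj i hi).1 h), Or.inl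
      ⟨hlp, by omega, tc_conn hl, tm_mk (h1 s (by omega)) hl hlt, ?_, ?_⟩⟩⟩⟩
  · intro i hi g1 g2 hM
    refine hmax _ g1 g2 (mk_tm hM (r := l) ?_ (by omega) (by omega) hlt)
    intro k hk
    exact hl k (by omega)
  · obtain ⟨i, hi, e⟩ := ex_wd (p := l) (w := r) (r := s) (by omega) (by omega)
    refine ⟨i, hi, ?_⟩
    rw [e]
    exact ⟨hpr, tc_conn (tc_trans (tc_symm hl) hr), tm_mk (h1 s (by omega)) hr hrt⟩

/-- greatest true marker below `p` -/
theorem greatest_tm {m : ℕ} {p l0 : ℤ} (h1 : TM v L m l0) (h2 : l0 ≤ p) :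
    ∃ l, l0 ≤ l ∧ l ≤ p ∧ TM v L m l ∧ ∀ w, l < w → w ≤ p → ¬ TM v L m w := by
  classical
  have hex : ∃ n : ℕ, TM v L m (p - n) := ⟨(p - l0).toNat, by
    rw [show p - ((p - l0).toNat : ℤ) = l0 by omega]; exact h1⟩
  have h3 := Nat.find_spec hex
  have h4 := fun n' (h' : n' < Nat.find hex) => Nat.find_min hex h'
  have h5 : Nat.find hex ≤ (p - l0).toNat := Nat.find_min' hex (by
    rw [show p - ((p - l0).toNat : ℤ) = l0 by omega]; exact h1)
  generalize Nat.find hex = n at h3 h4 h5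
  refine ⟨p - n, by omega, by omega, h3, fun w hw1 hw2 hw3 => ?_⟩
  have := h4 (p - w).toNat (by omega)
  rw [show p - ((p - w).toNat : ℤ) = w by omega] at this
  exact this hw3

theorem rep_lim (hL : Anti L) (hv : Fine v) (m : ℕ) (p : ℤ) :
    ∃ c s0, ∀ s ≥ s0, Rep v L m s p c := by
  classical
  by_cases hn : ∃ j, j < m + 1 ∧ ∃ i, i < 2 * m + 1 ∧ TNear v L m p j i
  · obtain ⟨h1, h2⟩ := Nat.find_spec hn
    have hmin := fun j' (h' : j' < Nat.find hn) => Nat.find_min hn h'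
    generalize Nat.find hn = j at h1 h2 hmin
    obtain ⟨h3, h4⟩ := Nat.find_spec h2
    have hmin2 := fun i' (h' : i' < Nat.find h2) => Nat.find_min h2 h'
    generalize Nat.find h2 = i at h3 h4 hmin2
    obtain ⟨s0, hs0⟩ := rep_near hL hv h1 h3 h4 (fun j' hj' i' hi' hlt hN => by
      rcases hlt with h5 | ⟨h5, h6⟩
      · exact hmin j' h5 ⟨hj', i', hi', hN⟩
      · subst h5
        exact hmin2 i' h6 ⟨hi', hN⟩)
    exact ⟨_, s0, hs0⟩
  · have hno : ∀ j < m + 1, ∀ i < 2 * m + 1, ¬ TNear v L m p j i :=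
      fun j hj i hi h => hn ⟨j, hj, i, hi, h⟩
    obtain ⟨s0, h0⟩ := near_lim hL hv m p
    obtain ⟨s1, h1⟩ := settled hL p
    by_cases hl : ∃ l0, TC L p l0 ∧ TM v L m l0 ∧ l0 ≤ p
    · obtain ⟨l0, g1, g2, g3⟩ := hl
      obtain ⟨l, g4, g5, g6, g7⟩ := greatest_tm g2 g3
      have hl : TC L p l := fun k hk => g1 k (by omega)
      by_cases hr : ∃ r, TC L p r ∧ TM v L m r ∧ p < r
      · obtain ⟨r, k1, k2, k3⟩ := hr
        exact ⟨l, rep_ord hL hv hno hl g6 g5 g7 k1 k2 k3⟩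
      · refine ⟨p, max (max s0 s1) (max (m + 1) (p - l).natAbs), fun s hs => Or.inr ⟨by omega,
          Or.inr ⟨fun j hj i hi h => hno j hj i hi ((h0 s (by omega) j hj i hi).1 h),
            Or.inr ⟨fun i hi ho => ?_, rfl⟩⟩⟩⟩
        obtain ⟨o1, o2, o3, o4, o5, i', hi', o6, o7, o8⟩ := ho
        have hb := wd_bd (p := p) hi
        generalize wd p s i = l' at o1 o2 o3 o4 o5 o6 o7 o8 hb
        have hb' := wd_bd (p := l') hi'
        have t1 : TC L p l' := h1 s (by omega) p (tc_refl p) l' (by omega) (by omega) o3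
        have hll : l' = l := by
          rcases lt_trichotomy l' l with hlt | hlt | hlt
          · exfalso
            obtain ⟨k, hk, e⟩ := ex_wd (p := p) (w := l) (r := s) (by omega) (by omega)
            refine o5 k hk (by rw [e]; exact hlt) (by rw [e]; exact g5) ?_
            rw [e]
            exact tm_mk (h1 s (by omega)) hl g6
          · exact hlt
          · exfalso
            exact g7 l' hlt o1 (mk_tm o4 (r := l) (tc_trans (tc_symm t1) hl) (by omega)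
              (by omega) g6)
        subst hll
        have t2 : TC L l' (wd l' s i') := h1 s (by omega) l' t1 _ (by omega) (by omega) o7
        have t3 : TM v L m (wd l' s i') := mk_tm o8 (r := l') (tc_symm t2) (by omega)
          (by omega) g6
        exact hr ⟨_, tc_trans t1 t2, t3, o6⟩
    · obtain ⟨r, k1, k2⟩ := tm_exists (v := v) (L := L) m p
      have k3 : p < r := by
        by_contra hc
        exact hl ⟨r, k1, k2, by omega⟩
      refine ⟨p, max (max s0 s1) (max (m + 1) (r - p).natAbs), fun s hs => Or.inr ⟨by omega,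
          Or.inr ⟨fun j hj i hi h => hno j hj i hi ((h0 s (by omega) j hj i hi).1 h),
            Or.inr ⟨fun i hi ho => ?_, rfl⟩⟩⟩⟩
      obtain ⟨o1, o2, o3, o4, o5, i', hi', o6, o7, o8⟩ := ho
      have hb := wd_bd (p := p) hi
      generalize wd p s i = l' at o1 o2 o3 o4 o5 o6 o7 o8 hb
      have hb' := wd_bd (p := l') hi'
      have t1 : TC L p l' := h1 s (by omega) p (tc_refl p) l' (by omega) (by omega) o3
      have t2 : TC L l' (wd l' s i') := h1 s (by omega) l' t1 _ (by omega) (by omega) o7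
      generalize wd l' s i' = r' at o6 o7 o8 hb' t2
      have t3 : TM v L m l' := by
        by_cases hrr : r ≤ r'
        · exact mk_tm o4 (r := r) (tc_trans (tc_symm t1) k1) (by omega) (by omega) k2
        · have : TM v L m r' := mk_tm o8 (r := r)
            (tc_trans (tc_symm t2) (tc_trans (tc_symm t1) k1)) (by omega) (by omega) k2
          exact mk_tm o4 (r := r') t2 (by omega) (by omega) this
      exact hl ⟨l', t1, t3, o1⟩

theorem rep_far (hL : Anti L) (m : ℕ) (c : ℤ) :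
    ∃ N s0 : ℕ, ∀ s ≥ s0, ∀ q, Rep v L m s q c → c - N ≤ q ∧ q ≤ c + N := by
  obtain ⟨s1, h1⟩ := settled hL c
  by_cases hc : TM v L m c
  · by_cases hr : ∃ r, c < r ∧ TC L c r ∧ TM v L m r
    · obtain ⟨r, k1, k2, k3⟩ := hr
      refine ⟨max m (r - c).natAbs, max s1 (m + 1), fun s hs q hq => ?_⟩
      rcases hq with ⟨g, _⟩ | ⟨_, ⟨j, _, i, hi, h, -⟩ | ⟨-, h | ⟨-, h⟩⟩⟩
      · omega
      · have := wd_bd (p := q) hi
        omega
      · obtain ⟨o1, o2, o3, o4, o5, -⟩ := h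
        have hqr : q < r := by
          by_contra hn
          obtain ⟨k, hk, e⟩ := ex_wd (p := q) (w := r) (r := s) (by omega) (by omega)
          refine o5 k hk (by rw [e]; exact k1) (by rw [e]; omega) ?_
          rw [e]
          exact tm_mk (h1 s (by omega)) k2 k3
        omega
      · omega
    · refine ⟨m, max s1 (m + 1), fun s hs q hq => ?_⟩
      rcases hq with ⟨g, _⟩ | ⟨_, ⟨j, _, i, hi, h, -⟩ | ⟨-, h | ⟨-, h⟩⟩⟩
      · omega
      · have := wd_bd (p := q) hi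
        omega
      · exfalso
        obtain ⟨o1, o2, o3, o4, o5, i', hi', o6, o7, o8⟩ := h
        have hb' := wd_bd (p := c) hi'
        have t2 : TC L c (wd c s i') := h1 s (by omega) c (tc_refl c) _ (by omega) (by omega) o7
        exact hr ⟨_, by omega, t2, mk_tm o8 (r := c) (tc_symm t2) (by omega) (by omega) hc⟩
      · omega
  · obtain ⟨s2, h2⟩ := not_tm hc
    refine ⟨m, max s2 (m + 1), fun s hs q hq => ?_⟩
    rcases hq with ⟨g, _⟩ | ⟨_, ⟨j, _, i, hi, h, -⟩ | ⟨-, h | ⟨-, h⟩⟩⟩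
    · omega
    · have := wd_bd (p := q) hi
      omega
    · exact absurd h.2.2.2.1 (h2 s (by omega))
    · omega

theorem cls_QZ (hL : Anti L) (hv : Fine v) : Cls (QZ v L) where
  refl m s p := by
    obtain ⟨c, hc⟩ := rep_exists (v := v) (L := L) m s p
    exact qz_iff.2 ⟨c, hc, hc⟩
  symm m s p q h := by
    obtain ⟨c, h1, h2⟩ := qz_iff.1 h
    exact qz_iff.2 ⟨c, h2, h1⟩
  trans m s p q r h h' := by
    obtain ⟨c, h1, h2⟩ := qz_iff.1 h
    obtain ⟨c', h3, h4⟩ := qz_iff.1 h'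
    rw [rep_unique h3 h2] at h4
    exact qz_iff.2 ⟨c, h1, h4⟩
  bdd m s p q h := by
    obtain ⟨c, h1, h2⟩ := qz_iff.1 h
    have := rep_bd h1
    have := rep_bd h2
    omega
  lim m p := by
    classical
    obtain ⟨c, s0, h0⟩ := rep_lim hL hv m p
    obtain ⟨N, s1, h1⟩ := rep_far (v := v) hL m c
    choose g t hg using fun q => rep_lim (v := v) hL hv m q
    refine ⟨(Finset.Icc (c - N) (c + N)).filter (fun q => g q = c),
      max (max s0 s1) ((Finset.Icc (c - N) (c + N)).sup t), fun s hs q => ?_⟩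
    rw [Finset.mem_filter, Finset.mem_Icc]
    have ht : ∀ q, c - N ≤ q → q ≤ c + N → t q ≤ s := fun q h2 h3 =>
      le_trans (Finset.le_sup (f := t) (Finset.mem_Icc.2 ⟨h2, h3⟩)) (by omega)
    constructor
    · intro h
      obtain ⟨c', h2, h3⟩ := qz_iff.1 h
      rw [rep_unique h2 (h0 s (by omega))] at h3
      have h4 := h1 s (by omega) q h3
      exact ⟨h4, rep_unique (hg q s (ht q h4.1 h4.2)) h3⟩
    · rintro ⟨h4, h5⟩
      refine qz_iff.2 ⟨c, h0 s (by omega), ?_⟩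
      have := hg q s (ht q h4.1 h4.2)
      rwa [h5] at this

end

end Pool.Agent.TH769.ZA
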