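import Pool.Agent.TH769.CD.Fin

set_option autoImplicit false

/-!
A finite injury construction along a chain of oracles indexed by the integers, where the `m`-th
requirement treats the members of a finite class of indices in the same way; the class is found in
the limit.
-/

namespace Pool.Agent.TH769.ZA

open Encodable Pool.Agent.Helper227
open Pool.Agent.TH769.CD (bdd_lt)

/-- the `i`-th member of the window of radius `r` around `p` -/
def wd (p : ℤ) (r i : ℕ) : ℤ := p - r + i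

theorem ex_wd {p w : ℤ} {r : ℕ} (h1 : p - r ≤ w) (h2 : w ≤ p + r) :
    ∃ i < 2 * r + 1, wd p r i = w := by
  refine ⟨(w - (p - r)).toNat, ?_, ?_⟩
  · omega
  · unfold wd
    omega

theorem wd_bd {p : ℤ} {r i : ℕ} (h : i < 2 * r + 1) : p - r ≤ wd p r i ∧ wd p r i ≤ p + r := by
  unfold wd
  omega

/-- If there is a computation then there is one with use at most `z`. -/
def Ok (C : ℕ → ℕ → ℕ → ℤ → (ℕ → Prop) → Prop) (s e z : ℕ) (p : ℤ) (v : ℕ → Prop) : Prop :=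
  (∃ u < s + 1, C s e u p v) → ∃ u < z + 1, u < s + 1 ∧ C s e u p v

/-- the class of `p` at level `m` changes at stage `s` -/
def Chg (Q : ℕ → ℕ → ℤ → ℤ → Prop) (m s : ℕ) (p : ℤ) : Prop :=
  ∃ i < 2 * (2 * s) + 1, ¬ (Q m (s - 1) p (wd p (2 * s) i) ↔ Q m s p (wd p (2 * s) i))

/-- `u` is the stage at which the current class of `p` was formed -/
def IsSt (Q : ℕ → ℕ → ℤ → ℤ → Prop) (m s : ℕ) (p : ℤ) (u : ℕ) : Prop :=
  (u = 0 ∨ Chg Q m u p) ∧ ∀ s' < s + 1, u < s' → ¬ Chg Q m s' p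

def Cand (E : ℕ → ℕ → ℕ → ℤ → Prop) (C : ℕ → ℕ → ℕ → ℤ → (ℕ → Prop) → Prop)
    (Q : ℕ → ℕ → ℤ → ℤ → Prop) (V : ℕ → ℤ → ℕ → Prop) (m s : ℕ) (p : ℤ) (z : ℕ) : Prop :=
  z < s ∧ (∃ u < s + 1, IsSt Q m s p u ∧ z.unpair.1 = Nat.pair m u) ∧
  (∃ i < 2 * (2 * s) + 1, Q m s p (wd p (2 * s) i) ∧ E s m z (wd p (2 * s) i) ∧
    ∀ y < s, V s (wd p (2 * s) i) y → ¬ E s m y (wd p (2 * s) i)) ∧
  ∀ i < 2 * (2 * s) + 1, Q m s p (wd p (2 * s) i) → ∀ e < m,
    Ok C s e z (wd p (2 * s) i) (V s (wd p (2 * s) i))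

def Act (E : ℕ → ℕ → ℕ → ℤ → Prop) (C : ℕ → ℕ → ℕ → ℤ → (ℕ → Prop) → Prop)
    (Q : ℕ → ℕ → ℤ → ℤ → Prop) (V : ℕ → ℤ → ℕ → Prop) (m s : ℕ) (p : ℤ) (z : ℕ) : Prop :=
  Cand E C Q V m s p z ∧ ∀ z' < z, ¬ Cand E C Q V m s p z'

def Step (E : ℕ → ℕ → ℕ → ℤ → Prop) (C : ℕ → ℕ → ℕ → ℤ → (ℕ → Prop) → Prop)
    (Q : ℕ → ℕ → ℤ → ℤ → Prop) (V : ℕ → ℤ → ℕ → Prop) (s : ℕ) (p : ℤ) (z : ℕ) : Prop :=
  ∃ m < s, Act E C Q V m s p z

/-- the set of index `p` before stage `s` -/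
def VZ (A : ℕ → ℤ → ℕ → Prop) (s : ℕ) (p : ℤ) (z : ℕ) : Prop := ∃ s' < s, A s' p z

/-- a family of equivalence relations with finite limit classes -/
structure Cls (Q : ℕ → ℕ → ℤ → ℤ → Prop) : Prop where
  refl : ∀ m s p, Q m s p p
  symm : ∀ m s p q, Q m s p q → Q m s q p
  trans : ∀ m s p q r, Q m s p q → Q m s q r → Q m s p r
  bdd : ∀ m s p q, Q m s p q → p - 2 * s ≤ q ∧ q ≤ p + 2 * s
  lim : ∀ m p, ∃ (B : Finset ℤ) (s0 : ℕ), ∀ s ≥ s0, ∀ q, (Q m s p q ↔ q ∈ B)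

structure Sys (E : ℕ → ℕ → ℕ → ℤ → Prop) (C : ℕ → ℕ → ℕ → ℤ → (ℕ → Prop) → Prop)
    (Q : ℕ → ℕ → ℤ → ℤ → Prop) (A : ℕ → ℤ → ℕ → Prop) : Prop where
  cls : Cls Q
  hA : ∀ s p z, A s p z ↔ Step E C Q (VZ A) s p z
  monoE : ∀ s s' n z p, s ≤ s' → E s n z p → E s' n z p
  locC : ∀ s s' e u p v v', C s e u p v → s ≤ s' → (∀ y < u, (v y ↔ v' y)) → C s' e u p v'

section

variable {E : ℕ → ℕ → ℕ → ℤ → Prop} {C : ℕ → ℕ → ℕ → ℤ → (ℕ → Prop) → Prop}
  {Q : ℕ → ℕ → ℤ → ℤ → Prop} {A V : ℕ → ℤ → ℕ → Prop}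

theorem chg_iff (hQ : Cls Q) {m s : ℕ} {p : ℤ} :
    ¬ Chg Q m s p ↔ ∀ q, (Q m (s - 1) p q ↔ Q m s p q) := by
  unfold Chg
  push Not
  constructor
  · intro h q
    by_cases hq : p - 2 * s ≤ q ∧ q ≤ p + 2 * s
    · obtain ⟨i, hi, e⟩ := ex_wd (r := 2 * s) (w := q) (p := p) (by push_cast; exact hq.1)
        (by push_cast; exact hq.2)
      have := h i hi
      rw [e] at this
      exact this
    · constructor
      · intro h1
        have h2 := hQ.bdd _ _ _ _ h1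
        exact absurd ⟨by omega, by omega⟩ hq
      · intro h1
        exact absurd (hQ.bdd _ _ _ _ h1) hq
  · intro h i _
    exact h (wd p (2 * s) i)

theorem chg_class (hQ : Cls Q) {m s : ℕ} {p q : ℤ} (h : Q m s p q) (hc : Chg Q m s p) :
    Chg Q m s q := by
  by_contra hn
  rw [chg_iff hQ] at hn
  refine (not_iff_not.2 Iff.rfl).1 (?_ : ¬ Chg Q m s p) hc
  rw [chg_iff hQ]
  have h1 : Q m (s - 1) q p := (hn p).2 (hQ.symm _ _ _ _ h)
  intro w
  constructor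
  · intro h2
    exact hQ.trans _ _ _ _ _ h ((hn w).1 (hQ.trans _ _ _ _ _ h1 h2))
  · intro h2
    exact hQ.trans _ _ _ _ _ (hQ.symm _ _ _ _ h1)
      ((hn w).2 (hQ.trans _ _ _ _ _ (hQ.symm _ _ _ _ h) h2))

/-- between the start stage and the current stage the class is the same -/
theorem same_of_st (hQ : Cls Q) {m s u : ℕ} {p : ℤ} (h : IsSt Q m s p u) {s' : ℕ} (h1 : u ≤ s')
    (h2 : s' ≤ s) (q : ℤ) : Q m s' p q ↔ Q m u p q := by
  induction s', h1 using Nat.le_induction with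
  | base => rfl
  | succ s' hs ih =>
    have h3 := (chg_iff hQ).1 (h.2 (s' + 1) (by omega) (by omega)) q
    rw [Nat.add_sub_cancel] at h3
    rw [← h3]
    exact ih (by omega)

theorem isSt_class (hQ : Cls Q) {m s u : ℕ} {p q : ℤ} (hu : u ≤ s) (h : IsSt Q m s p u)
    (hpq : Q m s p q) : IsSt Q m s q u := by
  have h0 : ∀ s', u ≤ s' → s' ≤ s → Q m s' p q := fun s' h1 h2 =>
    (same_of_st hQ h h1 h2 q).2 ((same_of_st hQ h hu le_rfl q).1 hpq)
  refine ⟨?_, fun s' hs' hlt hc => ?_⟩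
  · rcases h.1 with h1 | h1
    · exact Or.inl h1
    · exact Or.inr (chg_class hQ (h0 u le_rfl hu) h1)
  · exact h.2 s' hs' hlt (chg_class hQ (hQ.symm _ _ _ _ (h0 s' hlt.le (by omega))) hc)

theorem st_unique {m s u u' : ℕ} {p : ℤ} (h : IsSt Q m s p u) (h' : IsSt Q m s p u')
    (hu : u ≤ s) (hu' : u' ≤ s) : u = u' := by
  rcases lt_trichotomy u u' with h1 | h1 | h1
  · rcases h'.1 with h2 | h2
    · omega
    · exact absurd h2 (h.2 u' (by omega) h1)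
  · exact h1
  · rcases h.1 with h2 | h2
    · omega
    · exact absurd h2 (h'.2 u (by omega) h1)

theorem st_exists (m s : ℕ) (p : ℤ) : ∃ u ≤ s, IsSt Q m s p u := by
  induction s with
  | zero => exact ⟨0, le_rfl, Or.inl rfl, fun s' h1 h2 => by omega⟩
  | succ s ih =>
    by_cases hc : Chg Q m (s + 1) p
    · exact ⟨s + 1, le_rfl, Or.inr hc, fun s' h1 h2 => by omega⟩
    · obtain ⟨u, hu, h1, h2⟩ := ih
      refine ⟨u, by omega, h1, fun s' h3 h4 => ?_⟩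
      rcases Nat.lt_succ_iff_lt_or_eq.1 h3 with h5 | h5
      · exact h2 s' h5 h4
      · rw [h5]
        exact hc

theorem cand_iff (hQ : Cls Q) {m s : ℕ} {p : ℤ} {z : ℕ} : Cand E C Q V m s p z ↔
    z < s ∧ (∃ u < s + 1, IsSt Q m s p u ∧ z.unpair.1 = Nat.pair m u) ∧
    (∃ w, Q m s p w ∧ E s m z w ∧ ∀ y < s, V s w y → ¬ E s m y w) ∧
    ∀ w, Q m s p w → ∀ e < m, Ok C s e z w (V s w) := by
  unfold Cand
  refine and_congr_right fun _ => and_congr_right fun _ => and_congr ?_ ?_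
  · constructor
    · rintro ⟨i, _, h⟩
      exact ⟨_, h⟩
    · rintro ⟨w, hw, h⟩
      have hb := hQ.bdd _ _ _ _ hw
      obtain ⟨i, hi, e⟩ := ex_wd (r := 2 * s) (w := w) (p := p) (by push_cast; exact hb.1)
        (by push_cast; exact hb.2)
      exact ⟨i, hi, by rw [e]; exact ⟨hw, h⟩⟩
  · constructor
    · intro h w hw
      have hb := hQ.bdd _ _ _ _ hw
      obtain ⟨i, hi, e⟩ := ex_wd (r := 2 * s) (w := w) (p := p) (by push_cast; exact hb.1)
        (by push_cast; exact hb.2)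
      have := h i hi
      rw [e] at this
      exact this hw
    · intro h i _ hw
      exact h _ hw

theorem cand_class (hQ : Cls Q) {m s : ℕ} {p q : ℤ} {z : ℕ} (hpq : Q m s p q)
    (h : Cand E C Q V m s p z) : Cand E C Q V m s q z := by
  rw [cand_iff hQ] at h ⊢
  obtain ⟨h1, ⟨u, hu, hst, hz⟩, ⟨w, hw, hE, hy⟩, hok⟩ := h
  refine ⟨h1, ⟨u, hu, isSt_class hQ (by omega) hst hpq, hz⟩,
    ⟨w, hQ.trans _ _ _ _ _ (hQ.symm _ _ _ _ hpq) hw, hE, hy⟩, fun w' hw' => ?_⟩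
  exact hok w' (hQ.trans _ _ _ _ _ hpq hw')

theorem act_class (hQ : Cls Q) {m s : ℕ} {p q : ℤ} {z : ℕ} (hpq : Q m s p q)
    (h : Act E C Q V m s p z) : Act E C Q V m s q z :=
  ⟨cand_class hQ hpq h.1, fun z' hz' hc => h.2 z' hz' (cand_class hQ (hQ.symm _ _ _ _ hpq) hc)⟩

/-- The requirement `m` acts only finitely often for `p`. -/
theorem acts_finite (hS : Sys E C Q A) (m : ℕ) (p : ℤ) :
    ∃ s0, ∀ s ≥ s0, ∀ z, ¬ Cand E C Q (VZ A) m s p z := by
  classical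
  obtain ⟨B, s1, hB⟩ := hS.cls.lim m p
  let Bad : Set ℕ := {s | s1 ≤ s ∧ m < s ∧ ∃ z, Cand E C Q (VZ A) m s p z}
  have key : ∀ s, ∃ q, s ∈ Bad → q ∈ B ∧ ∃ z, E s m z q ∧ A s q z ∧ z < s ∧
      ∀ y < s, VZ A s q y → ¬ E s m y q := by
    intro s
    by_cases hs : s ∈ Bad
    · obtain ⟨h1, h2, hz⟩ := hs
      have hmin : ∀ z' < Nat.find hz, ¬ Cand E C Q (VZ A) m s p z' :=
        fun z' h' => Nat.find_min hz h'
      have hc := Nat.find_spec hz
      generalize Nat.find hz = z at hmin hc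
      obtain ⟨h3, -, ⟨w, hw, hE, hy⟩, -⟩ := (cand_iff hS.cls).1 hc
      refine ⟨w, fun _ => ⟨(hB s h1 w).1 hw, z, hE, ?_, h3, hy⟩⟩
      exact (hS.hA s w z).2 ⟨m, h2, act_class hS.cls hw ⟨hc, hmin⟩⟩
    · exact ⟨0, fun h => absurd h hs⟩
  choose f hf using key
  have hne : ∀ s s', s ∈ Bad → s' ∈ Bad → s < s' → f s ≠ f s' := by
    intro s s' hs hs' hss he
    obtain ⟨-, z, hE, hA1, hz, -⟩ := hf s hs
    obtain ⟨-, z', -, -, -, hy'⟩ := hf s' hs'
    rw [← he] at hy'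
    exact hy' z (by omega) ⟨s, hss, hA1⟩ (hS.monoE s s' m z _ hss.le hE)
  have hinj : Set.InjOn f Bad := by
    intro s hs s' hs' he
    by_contra hn
    rcases lt_or_gt_of_ne hn with h | h
    · exact hne s s' hs hs' h he
    · exact hne s' s hs' hs h he.symm
  have hmaps : Set.MapsTo f Bad (B : Set ℤ) := fun s hs => (hf s hs).1
  have hfin : Bad.Finite := Set.Finite.of_injOn hmaps hinj B.finite_toSet
  obtain ⟨b, hb⟩ := hfin.bddAbove
  refine ⟨max (b + 1) (max s1 (m + 1)), fun s hs z hz => ?_⟩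
  have h3 : s ∈ Bad := ⟨by omega, by omega, z, hz⟩
  have h4 := hb h3
  omega

/-- From some stage on the computations for `e` are preserved. -/
theorem keep (hS : Sys E C Q A) (e : ℕ) (p : ℤ) :
    ∃ s0, ∀ s ≥ s0, ∀ t ≥ s, ∀ z, (∃ u < z + 1, u < s + 1 ∧ C s e u p (VZ A s p)) →
      ∃ u < z + 1, u < t + 1 ∧ C t e u p (VZ A t p) := by
  classical
  obtain ⟨s0, h0⟩ := bdd_lt (e + 1) (fun m s => ∀ z, ¬ Cand E C Q (VZ A) m s p z)
    (fun m _ => acts_finite hS m p)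
  refine ⟨s0, fun s hs t ht => ?_⟩
  induction t, ht using Nat.le_induction with
  | base => exact fun z h => h
  | succ t ht ih =>
    intro z hz
    obtain ⟨u, hu1, hu2, hu3⟩ := ih z hz
    have hex : ∃ u, C t e u p (VZ A t p) := ⟨u, hu3⟩
    have hle : Nat.find hex ≤ u := Nat.find_min' hex hu3
    have hmin : ∀ u' < Nat.find hex, ¬ C t e u' p (VZ A t p) := fun u' h' => Nat.find_min hex h'
    have hsp := Nat.find_spec hex
    generalize Nat.find hex = u0 at hle hmin hsp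
    refine ⟨u0, by omega, by omega, hS.locC t (t + 1) e u0 p _ _ hsp (Nat.le_succ t)
      fun y hy => ⟨fun ⟨s', h1, h2⟩ => ⟨s', by omega, h2⟩, ?_⟩⟩
    rintro ⟨s', h1, h2⟩
    rcases Nat.lt_succ_iff_lt_or_eq.1 h1 with h3 | h3
    · exact ⟨s', h3, h2⟩
    · exfalso
      subst h3
      obtain ⟨m, hm, hact⟩ := (hS.hA s' p y).1 h2
      have hme : e < m := by
        by_contra hc
        exact h0 m (by omega) s' (by omega) y hact.1
      have hok := ((cand_iff hS.cls).1 hact.1).2.2.2 p (hS.cls.refl _ _ _) e hme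
      obtain ⟨u', g1, g2, g3⟩ := hok ⟨u0, by omega, hsp⟩
      exact hmin u' (by omega) g3

theorem okbound (hS : Sys E C Q A) (e : ℕ) (p : ℤ) :
    ∃ R, ∀ z ≥ R, ∀ s, Ok C s e z p (VZ A s p) := by
  obtain ⟨s0, h0⟩ := keep hS e p
  by_cases hcase : ∃ s1 ≥ s0, ∃ u < s1 + 1, C s1 e u p (VZ A s1 p)
  · obtain ⟨s1, hs1, u1, hu1, hC1⟩ := hcase
    refine ⟨s1, fun z hz s => ?_⟩
    rintro ⟨u, hu, hC⟩
    by_cases hlt : s < s1
    · exact ⟨u, by omega, hu, hC⟩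
    · exact h0 s1 hs1 s (by omega) z ⟨u1, by omega, hu1, hC1⟩
  · refine ⟨s0, fun z hz s => ?_⟩
    rintro ⟨u, hu, hC⟩
    by_cases hlt : s < s0
    · exact ⟨u, by omega, hu, hC⟩
    · exact absurd ⟨s, by omega, u, hu, hC⟩ hcase

/-- The complement of the set is not the `n`-th set. -/
theorem pos (hS : Sys E C Q A) (n : ℕ) (p : ℤ) (h1 : ∀ z, (∀ s, ¬ A s p z) → ∃ t, E t n z p)
    (h2 : ∀ z s, A s p z → ∀ t, ¬ E t n z p) : False := by
  classical
  obtain ⟨B, s1, hB⟩ := hS.cls.lim n p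
  obtain ⟨s2, hs2⟩ := acts_finite hS n p
  obtain ⟨R, hR⟩ : ∃ R, ∀ w ∈ B, ∀ z ≥ R, ∀ e < n, ∀ s, Ok C s e z w (VZ A s w) := by
    have : ∀ w ∈ B, ∃ R, ∀ z ≥ R, ∀ e < n, ∀ s, Ok C s e z w (VZ A s w) := by
      intro w _
      obtain ⟨R, hR⟩ := bdd_lt n (fun e z => ∀ s, Ok C s e z w (VZ A s w))
        (fun e _ => okbound hS e w)
      exact ⟨R, fun z hz e he => hR e he z hz⟩
    choose g hg using this
    refine ⟨B.attach.sup (fun w => g w.1 w.2), fun w hw z hz e he s => ?_⟩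
    exact hg w hw z (le_trans (Finset.le_sup (f := fun w : B => g w.1 w.2)
      (Finset.mem_attach B ⟨w, hw⟩)) hz) e he s
  obtain ⟨u, hu, hst⟩ := st_exists (Q := Q) n s1 p
  have hst' : ∀ s ≥ s1, IsSt Q n s p u := by
    intro s hs
    refine ⟨hst.1, fun s' h3 h4 => ?_⟩
    by_cases h5 : s' < s1 + 1
    · exact hst.2 s' h5 h4
    · rw [chg_iff hS.cls]
      intro q
      rw [hB (s' - 1) (by omega), hB s' (by omega)]
  obtain ⟨z, hzc, hz⟩ : ∃ z : ℕ, z.unpair.1 = Nat.pair n u ∧ max s2 R ≤ z :=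
    ⟨Nat.pair (Nat.pair n u) (max s2 R), by rw [Nat.unpair_pair], Nat.right_le_pair _ _⟩
  have hzV : ∀ s, ¬ A s p z := by
    intro s hs
    obtain ⟨m, hm, hact⟩ := (hS.hA s p z).1 hs
    obtain ⟨h3, ⟨u', hu', -, h4⟩, -⟩ := hact.1
    rw [hzc] at h4
    have h5 := congrArg Nat.unpair h4
    rw [Nat.unpair_pair, Nat.unpair_pair] at h5
    have h6 : n = m := congrArg Prod.fst h5
    subst h6
    exact hs2 s (by omega) z hact.1
  obtain ⟨t0, ht0⟩ := h1 z hzV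
  refine hs2 (max (max s1 s2) (max t0 (z + 1))) (by omega) z ((cand_iff hS.cls).2
    ⟨by omega, ⟨u, by omega, hst' _ (by omega), hzc⟩, ⟨p, hS.cls.refl _ _ _,
      hS.monoE t0 _ n z p (by omega) ht0, fun y _ hV => ?_⟩, fun w hw e he => ?_⟩)
  · obtain ⟨q, -, hq⟩ := hV
    exact h2 y q hq _
  · exact hR w ((hB _ (by omega) w).1 hw) z (by omega) e he _

/-- In a column whose class contains `q`, the sets of `p` and `q` agree. -/
theorem inv_good (hS : Sys E C Q A) {m u z : ℕ} {p q : ℤ} (hz : z.unpair.1 = Nat.pair m u)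
    (hQ : Q m u p q) (s : ℕ) (h : A s p z) : A s q z := by
  obtain ⟨m', hm', hact⟩ := (hS.hA s p z).1 h
  obtain ⟨h3, ⟨u', hu', hst, h4⟩, -⟩ := hact.1
  rw [hz] at h4
  have h5 := congrArg Nat.unpair h4
  rw [Nat.unpair_pair, Nat.unpair_pair] at h5
  have h6 : m = m' := congrArg Prod.fst h5
  have h7 : u = u' := congrArg Prod.snd h5
  subst h6
  subst h7
  have h8 : Q m s p q := (same_of_st hS.cls hst (by omega) le_rfl q).2 hQ
  exact (hS.hA s q z).2 ⟨m, hm', act_class hS.cls h8 hact⟩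

/-- After a change of the class nothing is put into the old column. -/
theorem inv_bad (hS : Sys E C Q A) {m u z s : ℕ} {p : ℤ} (hz : z.unpair.1 = Nat.pair m u)
    (hus : u < s) (hc : Chg Q m s p) (t : ℕ) (h : A t p z) : t < s := by
  obtain ⟨m', hm', hact⟩ := (hS.hA t p z).1 h
  obtain ⟨h3, ⟨u', hu', hst, h4⟩, -⟩ := hact.1
  rw [hz] at h4
  have h5 := congrArg Nat.unpair h4
  rw [Nat.unpair_pair, Nat.unpair_pair] at h5
  have h6 : m = m' := congrArg Prod.fst h5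
  have h7 : u = u' := congrArg Prod.snd h5
  subst h6
  subst h7
  by_contra hts
  exact hst.2 s (by omega) hus hc

/-- For each level only finitely many elements are put in. -/
theorem level_finite (hS : Sys E C Q A) (m : ℕ) (p : ℤ) : ∃ N, ∀ z s, A s p z →
    z.unpair.1.unpair.1 = m → z < N := by
  obtain ⟨s0, hs0⟩ := acts_finite hS m p
  refine ⟨s0, fun z s h hz => ?_⟩
  obtain ⟨m', hm', hact⟩ := (hS.hA s p z).1 h
  obtain ⟨h3, ⟨u', hu', hst, h4⟩, -⟩ := hact.1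
  rw [h4, Nat.unpair_pair] at hz
  simp only at hz
  subst hz
  by_contra hc
  exact hs0 s (by omega) z hact.1

/-- A column with a wrong class will be abandoned. -/
theorem chg_exists (hS : Sys E C Q A) {m u : ℕ} {p q : ℤ} (hn : ¬ Q m u p q)
    (hl : ∃ s0, ∀ s ≥ s0, Q m s p q) : ∃ s, u < s ∧ Chg Q m s p := by
  by_contra hc
  push Not at hc
  obtain ⟨s0, hs0⟩ := hl
  have : ∀ s ≥ u, ¬ Q m s p q := by
    intro s hs
    induction s, hs using Nat.le_induction with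
    | base => exact hn
    | succ s hs ih =>
      have h1 := (chg_iff hS.cls).1 (hc (s + 1) (by omega)) q
      rw [Nat.add_sub_cancel] at h1
      rwa [← h1]
  exact this (max s0 u) (by omega) (hs0 _ (by omega))

end

end Pool.Agent.TH769.ZA
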