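import Pool.Agent.TH769.ZA.Tr

set_option autoImplicit false

/-!
The classes of all but finitely many levels contain both ends of a right link, up to a symmetry of
the chain.
-/

namespace Pool.Agent.TH769.ZA

open Encodable Pool.Agent.Helper227
open Pool.Agent.TH769.CD (bdd_lt)

/-- `d` is a symmetry of the chain -/
def Sy (v : ℕ → ℤ → ℕ) (L : ℤ → ℕ → Prop) (d : ℤ) : Prop :=
  (∀ m p, v m (p + d) = v m p) ∧ ∀ p s, (L (p + d) s ↔ L p s)

section

variable {v : ℕ → ℤ → ℕ} {L : ℤ → ℕ → Prop} {d : ℤ}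

theorem sy_ag (h : Sy v L d) (lo hi : ℤ) (N : ℕ) : Ag v L v L d lo hi N :=
  ⟨fun w _ _ m _ => h.1 m w, fun w _ _ s _ => h.2 w s⟩

theorem rep_sy (h : Sy v L d) {m s : ℕ} {p c : ℤ} :
    Rep v L m s (p + d) (c + d) ↔ Rep v L m s p c :=
  rep_tr (sy_ag h (p - 3 * s - 1) (p + 3 * s + 1) (s + 1)) (Nat.lt_succ_self s) le_rfl le_rfl

theorem qz_sy (h : Sy v L d) {m s : ℕ} {p q : ℤ} :
    QZ v L m s (p + d) (q + d) ↔ QZ v L m s p q :=
  qz_tr (sy_ag h (p - 5 * s - 1) (p + 5 * s + 1) (s + 1)) (Nat.lt_succ_self s) le_rfl le_rfl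

theorem sy_zero : Sy v L 0 := ⟨fun m p => by rw [add_zero], fun p s => by rw [add_zero]⟩

theorem sy_neg (h : Sy v L d) : Sy v L (-d) :=
  ⟨fun m p => by rw [← h.1 m (p + -d), neg_add_cancel_right],
    fun p s => by rw [← h.2 (p + -d), neg_add_cancel_right]⟩

theorem sy_add {d' : ℤ} (h : Sy v L d) (h' : Sy v L d') : Sy v L (d + d') :=
  ⟨fun m p => by rw [← add_assoc, h'.1, h.1], fun p s => by rw [← add_assoc, h'.2, h.2]⟩

/-- least true marker above `p` -/
theorem least_tm {m : ℕ} {p r0 : ℤ} (h1 : TM v L m r0) (h2 : p ≤ r0) :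
    ∃ r, p ≤ r ∧ TM v L m r ∧ ∀ w, w < r → p ≤ w → ¬ TM v L m w := by
  classical
  have hex : ∃ n : ℕ, TM v L m (p + n) := ⟨(r0 - p).toNat, by
    rw [show p + ((r0 - p).toNat : ℤ) = r0 by omega]; exact h1⟩
  have h3 := Nat.find_spec hex
  have h4 := fun n' (h' : n' < Nat.find hex) => Nat.find_min hex h'
  generalize Nat.find hex = n at h3 h4
  refine ⟨p + n, by omega, h3, fun w hw1 hw2 hw3 => ?_⟩
  have := h4 (w - p).toNat (by omega)
  rw [show p + ((w - p).toNat : ℤ) = w by omega] at this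
  exact this hw3

theorem sp_uniq {j : ℕ} {c c' : ℤ} (hj : j ≠ 2) (h : TSP v L j c) (h' : TSP v L j c')
    (hc : TC L c c') : c = c' := by
  by_contra hne
  unfold TSP at h h'
  rcases h with ⟨e, h⟩ | ⟨e, h⟩ | ⟨e, h⟩ | ⟨h3, hp, h4, h5⟩ | ⟨h3, hp, h4, h5⟩
  · subst e
    have h2 : ¬ TL L (c' - 1) := by simpa using h'
    rcases lt_or_gt_of_ne hne with hlt | hlt
    · exact h2 (hc (c' - 1) (Or.inl ⟨by omega, by omega⟩))
    · exact h (hc (c - 1) (Or.inr ⟨by omega, by omega⟩))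
  · subst e
    have h2 : ¬ TL L c' := by simpa using h'
    rcases lt_or_gt_of_ne hne with hlt | hlt
    · exact h (hc c (Or.inl ⟨le_rfl, hlt⟩))
    · exact h2 (hc c' (Or.inr ⟨le_rfl, hlt⟩))
  · exact hj e
  · rcases h' with ⟨e, _⟩ | ⟨e, _⟩ | ⟨e, _⟩ | ⟨_, _, h4', h5'⟩ | ⟨_, hp', _⟩
    · omega
    · omega
    · omega
    · have he : v ((j - 3) / 2) c = v ((j - 3) / 2) c' := le_antisymm (h4 c' hc) (h4' c (tc_symm hc))
      rcases lt_or_gt_of_ne hne with hlt | hlt
      · exact h5 c' hlt hc he.symm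
      · exact h5' c hlt (tc_symm hc) he
    · omega
  · rcases h' with ⟨e, _⟩ | ⟨e, _⟩ | ⟨e, _⟩ | ⟨_, hp', _⟩ | ⟨_, _, h4', h5'⟩
    · omega
    · omega
    · omega
    · omega
    · have he : v ((j - 3) / 2) c = v ((j - 3) / 2) c' := le_antisymm (h4 c' hc) (h4' c (tc_symm hc))
      rcases lt_or_gt_of_ne hne with hlt | hlt
      · exact h5' c hlt (tc_symm hc) he
      · exact h5 c' hlt hc he.symm

theorem no_end {a : ℤ} (h : ∀ j < 2, ∀ w, TC L a w → ¬ TSP v L j w) : ∀ k, TL L k := by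
  intro k
  by_cases hk : a ≤ k
  · rcases right_end L a with h1 | ⟨b, h1, h2, h3⟩
    · exact h1 k hk
    · exact absurd (Or.inr (Or.inl ⟨rfl, h3⟩)) (h 1 (by omega) b (fun k' hk' =>
        h2 k' (by omega) (by omega)))
  · rcases left_end L a with h1 | ⟨b, h1, h2, h3⟩
    · exact h1 k (by omega)
    · refine absurd (Or.inl ⟨rfl, ?_⟩) (h 0 (by omega) (b + 1) (fun k' hk' =>
        h2 k' (by omega) (by omega)))
      rw [show b + 1 - 1 = b by omega]
      exact h3

theorem exh (hL : Anti L) (hv : Fine v)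
    (hsym : (∀ k, TL L k) → ∀ c c', (∀ i, v i c = v i c') → Sy v L (c' - c)) (a : ℤ)
    (ha : TL L a) : ∃ m0, ∀ m ≥ m0, ∃ d, Sy v L d ∧ ∃ s0, ∀ s ≥ s0,
      QZ v L m s (a + 1) (a + d) := by
  classical
  by_cases hsp : ∃ j, ∃ w, TC L a w ∧ TSP v L j w
  · obtain ⟨w0, hw0, hs0⟩ := Nat.find_spec hsp
    have hmin' := fun j' (h' : j' < Nat.find hsp) => Nat.find_min hsp h'
    generalize Nat.find hsp = j0 at hs0 hmin'
    have hmin : ∀ j' < j0, ∀ w, TC L a w → ¬ TSP v L j' w := fun j' h' w h1 h2 =>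
      hmin' j' h' ⟨w, h1, h2⟩
    refine ⟨max j0 ((w0 - a).natAbs + 1), fun m hm => ?_⟩
    have key : ∀ p, TC L a p → p - m ≤ w0 → w0 ≤ p + m → ∃ c, TSP v L j0 c ∧ TC L a c ∧
        ∃ s0, ∀ s ≥ s0, Rep v L m s p c := by
      intro p hp h1 h2
      obtain ⟨i0, hi0, e0⟩ := ex_wd (r := m) h1 h2
      have hex : ∃ i, i < 2 * m + 1 ∧ TNear v L m p j0 i := ⟨i0, hi0, by
        unfold TNear
        rw [e0]
        exact ⟨tc_trans (tc_symm hp) hw0, hs0⟩⟩
      obtain ⟨g1, g2⟩ := Nat.find_spec hex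
      have g3 := fun i' (h' : i' < Nat.find hex) => Nat.find_min hex h'
      generalize Nat.find hex = i at g1 g2 g3
      refine ⟨wd p m i, g2.2, tc_trans hp g2.1, rep_near hL hv (by omega) g1 g2 ?_⟩
      intro j' hj' i' hi' hlt hN
      rcases hlt with h5 | ⟨h5, h6⟩
      · exact hmin j' h5 _ (tc_trans hp hN.1) hN.2
      · subst h5
        exact g3 i' h6 ⟨hi', hN⟩
    have ta : TC L a (a + 1) := fun k hk => by
      have : k = a := by omega
      rw [this]
      exact ha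
    obtain ⟨c, c1, c2, s1, c3⟩ := key a (tc_refl a) (by omega) (by omega)
    obtain ⟨c', c1', c2', s2, c3'⟩ := key (a + 1) ta (by omega) (by omega)
    by_cases hj : j0 = 2
    · subst hj
      have hall : ∀ k, TL L k := no_end hmin
      have e1 : ∀ i, TM v L i c := by
        have : (2 = 2 ∧ ∀ i, TM v L i c) := by simpa [TSP] using c1
        exact this.2
      have e2 : ∀ i, TM v L i c' := by
        have : (2 = 2 ∧ ∀ i, TM v L i c') := by simpa [TSP] using c1'
        exact this.2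
      have hcc : TC L c c' := tc_trans (tc_symm c2) c2'
      have hsy := hsym hall c c' (fun i => le_antisymm (e1 i c' hcc) (e2 i c (tc_symm hcc)))
      refine ⟨c' - c, hsy, max s1 s2, fun s hs => qz_iff.2 ⟨c', c3' s (by omega), ?_⟩⟩
      have := (rep_sy hsy).2 (c3 s (by omega))
      rwa [show c + (c' - c) = c' by omega] at this
    · have he : c = c' := sp_uniq hj c1 c1' (tc_trans (tc_symm c2) c2')
      subst he
      refine ⟨0, sy_zero, max s1 s2, fun s hs => qz_iff.2 ⟨c, c3' s (by omega), ?_⟩⟩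
      rw [add_zero]
      exact c3 s (by omega)
  · have hno : ∀ j w, TC L a w → ¬ TSP v L j w := fun j w h1 h2 => hsp ⟨j, w, h1, h2⟩
    have hall : ∀ k, TL L k := no_end (v := v) (a := a) (fun j _ => hno j)
    have tcall : ∀ p w, TC L p w := fun p w k _ => hall k
    have up : ∀ m N, ∃ r, N < r ∧ TM v L m r := by
      intro m N
      obtain ⟨l0, -, hl0⟩ := tm_exists (v := v) (L := L) m a
      by_cases hN : N < l0
      · exact ⟨l0, hN, hl0⟩
      · obtain ⟨l, g1, g2, g3, g4⟩ := greatest_tm hl0 (show l0 ≤ N by omega)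
        have h1 := hno (2 * m + 3) l (tcall _ _)
        have e1 : (2 * m + 3 - 3) / 2 = m := by omega
        have h2 : ¬ ∀ w, l < w → TC L l w → v m w ≠ v m l := fun h =>
          h1 (Or.inr (Or.inr (Or.inr (Or.inl ⟨by omega, by omega, by rw [e1]; exact g3, by
            rw [e1]; exact h⟩))))
        push Not at h2
        obtain ⟨w, h3, -, h4⟩ := h2
        have h5 : TM v L m w := fun w' _ => by
          rw [h4]
          exact g3 w' (tcall _ _)
        refine ⟨w, ?_, h5⟩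
        by_contra hc
        exact g4 w h3 (by omega) h5
    have down : ∀ m N, ∃ l, l ≤ N ∧ TM v L m l := by
      intro m N
      obtain ⟨l0, -, hl0⟩ := tm_exists (v := v) (L := L) m a
      by_cases hN : l0 ≤ N
      · exact ⟨l0, hN, hl0⟩
      · obtain ⟨r, g1, g2, g3⟩ := least_tm hl0 (show N + 1 ≤ l0 by omega)
        have h1 := hno (2 * m + 4) r (tcall _ _)
        have e1 : (2 * m + 4 - 3) / 2 = m := by omega
        have h2 : ¬ ∀ w, w < r → TC L r w → v m w ≠ v m r := fun h =>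
          h1 (Or.inr (Or.inr (Or.inr (Or.inr ⟨by omega, by omega, by rw [e1]; exact g2, by
            rw [e1]; exact h⟩))))
        push Not at h2
        obtain ⟨w, h3, -, h4⟩ := h2
        have h5 : TM v L m w := fun w' _ => by
          rw [h4]
          exact g2 w' (tcall _ _)
        refine ⟨w, ?_, h5⟩
        by_contra hc
        exact g3 w h3 (by omega) h5
    have h2 : ¬ ∀ i, TM v L i (a + 1) := fun h =>
      hno 2 (a + 1) (tcall _ _) (Or.inr (Or.inr (Or.inl ⟨rfl, h⟩)))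
    push Not at h2
    obtain ⟨i0, hi0⟩ := h2
    refine ⟨i0, fun m hm => ⟨0, sy_zero, ?_⟩⟩
    have hma : ¬ TM v L m (a + 1) := fun h => hi0 (tm_down hv hm h)
    obtain ⟨l0, g1, g2⟩ := down m a
    obtain ⟨l, g3, g4, g5, g6⟩ := greatest_tm g2 g1
    obtain ⟨r, g7, g8⟩ := up m (a + 1)
    obtain ⟨s1, h1⟩ := rep_ord hL hv (m := m) (p := a) (l := l) (r := r)
      (fun j _ i _ h => hno j _ (tcall _ _) h.2) (tcall _ _) g5 g4 g6 (tcall _ _) g8 (by omega)
    obtain ⟨s2, h3⟩ := rep_ord hL hv (m := m) (p := a + 1) (l := l) (r := r)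
      (fun j _ i _ h => hno j _ (tcall _ _) h.2) (tcall _ _) g5 (by omega) (fun w hw1 hw2 hw3 => by
        by_cases hw : w = a + 1
        · rw [hw] at hw3
          exact hma hw3
        · exact g6 w hw1 (by omega) hw3) (tcall _ _) g8 g7
    refine ⟨max s1 s2, fun s hs => qz_iff.2 ⟨l, h3 s (by omega), ?_⟩⟩
    rw [add_zero]
    exact h1 s (by omega)

end

end Pool.Agent.TH769.ZA
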