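import Pool.Agent.TH769.ZA.Deg

set_option autoImplicit false

/-!
Invariance of the operator.
-/

namespace Pool.Agent.TH769.ZA

open Encodable Pool.Agent.Helper227 Pool.Agent.H548R2.Post
open Nat.Partrec (Code)
open Pool.Agent.TH769.CD (jp jp_congr bdd_lt pf_add pf_mul pf_div pf_mod pf_pow pf_getD pf_take
  pf_append pf_cons pf_length pf_range pf_natPair pf_unpair pf_encode pf_testBit pf_xorb pf_andb
  pf_hlt pf_xor pp_exlt pp_alllt pp_imp pp_eq pp_le pp_lt pp_mem pf_decide pf_pre pp_En pf_ext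
  ext_pre_eq)

attribute [local fun_prop] Primrec
attribute [local fun_prop] Primrec.id Primrec.const Primrec.comp Primrec.pair Primrec.fst Primrec.snd
attribute [local fun_prop] pf_add pf_mul pf_div pf_mod pf_pow pf_getD pf_take pf_append pf_cons
  pf_length pf_range pf_natPair pf_unpair pf_encode pf_testBit pf_xorb pf_andb pf_hlt pf_xor
  pf_sub pf_wd pf_ff

theorem sy_group (v : ℕ → ℤ → ℕ) (L : ℤ → ℕ → Prop) :
    ∃ G : ℕ, ∀ d : ℤ, Sy v L d ↔ ∃ n : ℕ, d = n * G ∨ d = -(n * G) := by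
  let H : AddSubgroup ℤ :=
    { carrier := {d | Sy v L d}
      add_mem' := fun {_ _} h h' => sy_add h h'
      zero_mem' := sy_zero
      neg_mem' := fun {_} h => sy_neg h }
  obtain ⟨a, ha⟩ := Int.subgroup_cyclic H
  have hm : ∀ d, Sy v L d ↔ ∃ k : ℤ, k * a = d := by
    intro d
    have h1 : Sy v L d ↔ d ∈ H := Iff.rfl
    rw [h1, ha, AddSubgroup.mem_closure_singleton]
    simp only [smul_eq_mul]
  obtain ⟨G, hG⟩ : ∃ G : ℕ, a = G ∨ a = -G := ⟨a.natAbs, Int.natAbs_eq a⟩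
  refine ⟨G, fun d => ?_⟩
  rw [hm]
  constructor
  · rintro ⟨k, rfl⟩
    obtain ⟨n, hn⟩ : ∃ n : ℕ, k = n ∨ k = -n := ⟨k.natAbs, Int.natAbs_eq k⟩
    refine ⟨n, ?_⟩
    rcases hG with rfl | rfl <;> rcases hn with rfl | rfl
    · exact Or.inl rfl
    · exact Or.inr (by ring)
    · exact Or.inr (by ring)
    · exact Or.inl (by ring)
  · rintro ⟨n, rfl | rfl⟩
    · rcases hG with rfl | rfl
      · exact ⟨n, rfl⟩
      · exact ⟨-n, by ring⟩
    · rcases hG with rfl | rfl
      · exact ⟨-n, by ring⟩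
      · exact ⟨n, by ring⟩

section

variable {T S : (ℕ → Bool) → (ℕ → Bool)} {g g' : List Bool → List Bool}

theorem inv_neg (hg : Apx g T) (hg' : Apx g' S) (cg : Computable g) (cg' : Computable g')
    (X W : ℕ → Bool) (b : ℤ) (hW : ∀ z, W (2 * z + 1) = true ↔ VX T S X b z) (hX : TLe X W)
    (H : ∃ m0, ∀ m ≥ m0, ∃ d, Sy (vY (ch T S X)) (lk T S X) d ∧
      ∃ s0, ∀ s ≥ s0, QX T S X m s 0 (b + d)) :
    SI W fun z => ¬ VX T S X 0 z := by
  classical
  obtain ⟨m0, H⟩ := H
  obtain ⟨G, hG⟩ := sy_group (vY (ch T S X)) (lk T S X)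
  have hgood : ∀ m u, (∃ d, Sy (vY (ch T S X)) (lk T S X) d ∧ QX T S X m u 0 (b + d)) ↔
      ∃ n : ℕ, QX T S X m u 0 (wd b 0 (n * G)) ∨ QX T S X m u 0 (wd b (n * G) 0) := by
    intro m u
    have e1 : ∀ n : ℕ, wd b 0 (n * G) = b + n * G := fun n => by
      unfold wd
      push_cast
      ring
    have e2 : ∀ n : ℕ, wd b (n * G) 0 = b + -(n * G) := fun n => by
      unfold wd
      push_cast
      ring
    constructor
    · rintro ⟨d, h1, h2⟩
      obtain ⟨n, rfl | rfl⟩ := (hG d).1 h1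
      · exact ⟨n, Or.inl (by rw [e1]; exact h2)⟩
      · exact ⟨n, Or.inr (by rw [e2]; exact h2)⟩
    · rintro ⟨n, h | h⟩
      · rw [e1] at h
        exact ⟨_, (hG _).2 ⟨n, Or.inl rfl⟩, h⟩
      · rw [e2] at h
        exact ⟨_, (hG _).2 ⟨n, Or.inr rfl⟩, h⟩
  obtain ⟨N, hN⟩ := bdd_lt m0 (fun m N => ∀ z, VX T S X 0 z → z.unpair.1.unpair.1 = m → z < N)
    (fun m _ => by
      obtain ⟨a, ha⟩ := level_finite (sysX (T := T) (S := S) X) m 0
      refine ⟨a, fun c hc z hz hzm => ?_⟩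
      obtain ⟨s, hs⟩ := hz
      have := ha z s hs hzm
      omega)
  let F : List ℕ := (List.range N).filter (fun z => decide (¬ VX T S X 0 z))
  have a1 : SI W fun z : ℕ => (∃ n : ℕ,
      QX T S X z.unpair.1.unpair.1 z.unpair.1.unpair.2 0 (wd b 0 (n * G)) ∨
      QX T S X z.unpair.1.unpair.1 z.unpair.1.unpair.2 0 (wd b (n * G) 0)) ∧
      W (2 * z + 1) = false := by
    refine SI.and (SI.ex (p := fun (z n : ℕ) =>
      QX T S X z.unpair.1.unpair.1 z.unpair.1.unpair.2 0 (wd b 0 (n * G)) ∨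
      QX T S X z.unpair.1.unpair.1 z.unpair.1.unpair.2 0 (wd b (n * G) 0)) (SI.or ?_ ?_))
      (SI.query.comp (f := fun z : ℕ => (2 * z + 1, false)) (by fun_prop))
    · exact ((si_Q hg hg' cg cg' X).trans hX).comp (f := fun x : ℕ × ℕ =>
        ((x.1.unpair.1.unpair.1, x.1.unpair.1.unpair.2), wd b 0 (x.2 * G))) (by fun_prop)
    · exact ((si_Q hg hg' cg cg' X).trans hX).comp (f := fun x : ℕ × ℕ =>
        ((x.1.unpair.1.unpair.1, x.1.unpair.1.unpair.2), wd b (x.2 * G) 0)) (by fun_prop)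
  have a2 : SI W fun z : ℕ => (N ≤ z ∧ z.unpair.1.unpair.1 < m0) ∨ z ∈ F :=
    SI.of_prim (PrimrecPred.or (PrimrecPred.and (pp_le (by fun_prop) (by fun_prop))
      (pp_lt (by fun_prop) (by fun_prop))) (pp_mem (by fun_prop) (by fun_prop)))
  have a3 : SI W fun z : ℕ => ∃ s, z.unpair.1.unpair.2 < s ∧
      (Chg (QX T S X) z.unpair.1.unpair.1 s 0 ∧ ¬ VZ (AX T S X) s 0 z) := by
    refine SI.ex (p := fun (z s : ℕ) => z.unpair.1.unpair.2 < s ∧
      (Chg (QX T S X) z.unpair.1.unpair.1 s 0 ∧ ¬ VZ (AX T S X) s 0 z)) (SI.and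
      (SI.of_prim (pp_lt (by fun_prop) (by fun_prop))) (SI.and ?_ ?_))
    · exact ((si_Chg hg hg' cg cg' X).trans hX).comp (f := fun x : ℕ × ℕ =>
        (x.1.unpair.1.unpair.1, x.2)) (by fun_prop)
    · exact ((si_nVV hg hg' cg cg' X).trans hX).comp (f := fun x : ℕ × ℕ => (x.2, x.1))
        (by fun_prop)
  refine (SI.or a1 (SI.or a2 a3)).of_eq fun z => ?_
  have hz : z.unpair.1 = Nat.pair z.unpair.1.unpair.1 z.unpair.1.unpair.2 :=
    (Nat.pair_unpair _).symm
  rw [← hgood]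
  constructor
  · rintro (⟨h1, h2⟩ | (⟨h1, h2⟩ | h1) | ⟨s, h1, h2, h3⟩) h4
    · have h5 : VX T S X b z := (good_iff anti_lk hz h1).1 h4
      rw [(hW z).2 h5] at h2
      exact Bool.false_ne_true h2.symm
    · have := hN _ h2 N le_rfl z h4 rfl
      omega
    · have := (List.mem_filter.1 h1).2
      rw [decide_eq_true_eq] at this
      exact this h4
    · exact h3 ((bad_iff anti_lk hz h1 h2).1 h4)
  · intro h
    by_cases hm : z.unpair.1.unpair.1 < m0
    · right; left
      by_cases hzN : z < N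
      · exact Or.inr (List.mem_filter.2 ⟨List.mem_range.2 hzN, by simpa using h⟩)
      · exact Or.inl ⟨by omega, hm⟩
    · by_cases hgd : ∃ d, Sy (vY (ch T S X)) (lk T S X) d ∧
          QX T S X z.unpair.1.unpair.1 z.unpair.1.unpair.2 0 (b + d)
      · left
        refine ⟨hgd, ?_⟩
        have h5 : ¬ VX T S X b z := fun h6 => h ((good_iff anti_lk hz hgd).2 h6)
        rw [← hW, Bool.not_eq_true] at h5
        exact h5
      · right; right
        obtain ⟨s, h1, h2⟩ := bad_chg anti_lk (H _ (by omega)) hgd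
        exact ⟨s, h1, h2, fun h3 => h ((bad_iff anti_lk hz h1 h2).2 h3)⟩

theorem WX_le_of (hg : Apx g T) (hg' : Apx g' S) (cg : Computable g) (cg' : Computable g')
    (X W : ℕ → Bool) (hneg : SI W fun z => ¬ VX T S X 0 z) (hX : TLe X W) :
    TLe (WX T S X) W := by
  have hpos : SI W fun m : ℕ => WX T S X m = true := (si_WX hg hg' cg cg' X).trans hX
  have hev : SI W fun m : ℕ => m % 2 = 0 ∧ X (m / 2) = false :=
    SI.and (SI.of_prim (pp_eq (by fun_prop) (by fun_prop)))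
      (((SI.query (B := X)).trans hX).comp (f := fun m : ℕ => (m / 2, false)) (by fun_prop))
  have hod : SI W fun m : ℕ => m % 2 = 1 ∧ ¬ VX T S X 0 (m / 2) :=
    SI.and (SI.of_prim (pp_eq (by fun_prop) (by fun_prop)))
      (hneg.comp (f := fun m : ℕ => m / 2) (by fun_prop))
  rw [tLe_iff_SI]
  have h4 : SI W fun x : ℕ × Bool => (WX T S X x.1 = true ∧ x.2 = true) ∨
      (((x.1 % 2 = 0 ∧ X (x.1 / 2) = false) ∨ (x.1 % 2 = 1 ∧ ¬ VX T S X 0 (x.1 / 2))) ∧
        x.2 = false) := by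
    refine SI.or (SI.and (hpos.comp Primrec.fst) (SI.of_prim ?_))
      (SI.and ((SI.or hev hod).comp (f := fun x : ℕ × Bool => x.1) Primrec.fst) (SI.of_prim ?_))
    · exact Primrec.eq.comp Primrec.snd (Primrec.const true)
    · exact Primrec.eq.comp Primrec.snd (Primrec.const false)
  refine h4.of_eq fun x => ?_
  rcases x with ⟨m, b⟩
  cases b with
  | true => simp
  | false =>
    rcases Nat.even_or_odd' m with ⟨n, rfl | rfl⟩
    · have e1 : (2 * n) % 2 = 0 := by omega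
      have e2 : (2 * n) / 2 = n := by omega
      simp [e1, e2, WX_even]
    · have e1 : (2 * n + 1) % 2 = 1 := by omega
      have e2 : (2 * n + 1) / 2 = n := by omega
      have e3 : WX T S X (2 * n + 1) = false ↔ ¬ VX T S X 0 n := by
        rw [← WX_odd, Bool.not_eq_true]
      simp only [e1, e2, e3]
      simp

/-- Invariance under the functional. -/
theorem WX_eqv (hg : Apx g T) (hg' : Apx g' S) (cg : Computable g) (cg' : Computable g')
    (X : ℕ → Bool) (h : S (T X) = X) :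
    TLe (WX T S X) (WX T S (T X)) ∧ TLe (WX T S (T X)) (WX T S X) := by
  have hX : TLe X (WX T S (T X)) := by
    have h1 := apx_le hg' cg' (T X)
    rw [h] at h1
    exact TuringReducible.trans h1 (le_WX _)
  have hTX : TLe (T X) (WX T S X) := TuringReducible.trans (apx_le hg cg X) (le_WX _)
  constructor
  · refine WX_le_of hg hg' cg cg' X _ (inv_neg hg hg' cg cg' X _ 1 (fun z => ?_) hX ?_) hX
    · rw [WX_odd]
      exact exists_congr fun s => AA_next h s 0 z
    · obtain ⟨m0, hm0⟩ := exh (anti_lk (T := T) (S := S) (X := X)) (fine_vY _) hsym 0 (tl_zero h)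
      refine ⟨m0, fun m hm => ?_⟩
      obtain ⟨d, h1, s0, h2⟩ := hm0 m hm
      refine ⟨-d, sy_neg h1, s0, fun s hs => ?_⟩
      have h3 := (qz_sy (sy_neg h1)).2 (h2 s hs)
      rw [zero_add, zero_add, add_neg_cancel] at h3
      exact (sysX X).cls.symm _ _ _ _ h3
  · refine WX_le_of hg hg' cg cg' (T X) _ (inv_neg hg hg' cg cg' (T X) _ (-1) (fun z => ?_) hTX ?_)
      hTX
    · rw [WX_odd]
      refine exists_congr fun s => ?_
      have := (AA_next h s (-1) z).symm
      rwa [neg_add_cancel] at this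
    · have htl : TL (lk T S (T X)) (-1) := fun s => (lk_shift h (-1) s).2 (tl_zero h s)
      obtain ⟨m0, hm0⟩ := exh (anti_lk (T := T) (S := S) (X := T X)) (fine_vY _) hsym (-1) htl
      refine ⟨m0, fun m hm => ?_⟩
      obtain ⟨d, h1, s0, h2⟩ := hm0 m hm
      exact ⟨d, h1, s0, h2⟩

end

/-- For two total computable functionals there is an index `e` which solves Post's problem and
which is invariant under both of them where they are inverse to each other. -/
theorem main (δ δ' : ℕ → List Bool → Bool) (u u' : ℕ → ℕ) (hδ : Computable₂ δ)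
    (hδ' : Computable₂ δ') (hu : Computable u) (hu' : Computable u') : ∃ e : ℕ,
    (∀ X : ℕ → Bool, TLe X (chr (WE X e)) ∧ ¬ TLe (chr (WE X e)) X ∧
      TLe (chr (WE X e)) (jump X) ∧ ¬ TLe (jump X) (chr (WE X e)) ∧
      TLe (jump (chr (WE X e))) (jump X)) ∧
    ∀ X : ℕ → Bool, TT δ' u' (TT δ u X) = X →
      TLe (chr (WE X e)) (chr (WE (TT δ u X) e)) ∧
      TLe (chr (WE (TT δ u X) e)) (chr (WE X e)) := by
  have hg := apx_GG (δ := δ) (u := u)
  have hg' := apx_GG (δ := δ') (u := u')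
  have cg := comp_GG hδ hu
  have cg' := comp_GG hδ' hu'
  obtain ⟨e, he⟩ := exists_index hg hg' cg cg'
  refine ⟨e, fun X => ?_, fun X h => ?_⟩
  · rw [he X, chr_WX]
    have hl := low hg hg' cg cg' X
    exact ⟨le_WX X, not_WX_le X, WX_le_jump hg hg' cg cg' X,
      fun h => not_jump_le _ (TuringReducible.trans hl h), hl⟩
  · rw [he, he, chr_WX, chr_WX]
    exact WX_eqv hg hg' cg cg' X h

end Pool.Agent.TH769.ZA
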