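import Pool.Agent.TH769.ZA.Cst

set_option autoImplicit false

/-!
The construction is primitive recursive in finite data.
-/

namespace Pool.Agent.TH769.ZA

open Encodable Pool.Agent.Helper227 Pool.Agent.H548R2.Post
open Nat.Partrec (Code)
open Pool.Agent.TH769.CD (jp jp_congr bdd_lt pf_add pf_mul pf_div pf_mod pf_pow pf_getD pf_take
  pf_append pf_cons pf_length pf_range pf_natPair pf_unpair pf_encode pf_testBit pf_xorb pf_andb
  pf_hlt pf_xor pp_exlt pp_alllt pp_imp pp_eq pp_le pp_lt pp_mem pf_decide pf_pre pp_En pf_ext)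

attribute [local fun_prop] Primrec
attribute [local fun_prop] Primrec.id Primrec.const Primrec.comp Primrec.pair Primrec.fst Primrec.snd
attribute [local fun_prop] pf_add pf_mul pf_div pf_mod pf_pow pf_getD pf_take pf_append pf_cons
  pf_length pf_range pf_natPair pf_unpair pf_encode pf_testBit pf_xorb pf_andb pf_hlt pf_xor

theorem enc_eq (q : ℤ) : encode q = if 0 ≤ q then 2 * q.toNat else 2 * (-q).toNat - 1 := by
  cases q with
  | ofNat n =>
    have : encode (Int.ofNat n) = 2 * n := rfl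
    rw [this]
    simp
  | negSucc n =>
    have : encode (Int.negSucc n) = 2 * n + 1 := rfl
    rw [this]
    split_ifs with h
    · exact absurd h (by simp)
    · have : (-Int.negSucc n).toNat = n + 1 := by
        simp [Int.neg_negSucc]
      omega

section basic

variable {α : Type} [Primcodable α]

@[local fun_prop] theorem pf_sub {f g : α → ℕ} (hf : Primrec f) (hg : Primrec g) :
    Primrec fun a => f a - g a := Primrec.nat_sub.comp hf hg

theorem pf_wd {p : α → ℤ} {r i : α → ℕ} (hp : Primrec p) (hr : Primrec r)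
    (hi : Primrec i) : Primrec fun a => wd (p a) (r a) (i a) := by
  rw [← Primrec.encode_iff]
  have h : Primrec fun a => if encode (p a) % 2 = 0 then
      (if r a ≤ encode (p a) / 2 + i a then 2 * (encode (p a) / 2 + i a - r a)
        else 2 * (r a - (encode (p a) / 2 + i a)) - 1)
      else (if r a + encode (p a) / 2 + 1 ≤ i a then 2 * (i a - (r a + encode (p a) / 2 + 1))
        else 2 * ((r a + encode (p a) / 2 + 1) - i a) - 1) := by
    refine Primrec.ite (pp_eq (by fun_prop) (by fun_prop)) (Primrec.ite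
      (pp_le (by fun_prop) (by fun_prop)) (by fun_prop) (by fun_prop)) (Primrec.ite
      (pp_le (by fun_prop) (by fun_prop)) (by fun_prop) (by fun_prop))
  refine h.of_eq fun a => ?_
  rw [enc_eq (wd _ _ _), enc_eq (p a)]
  unfold wd
  split_ifs <;> omega

theorem pp_zle {p q : α → ℤ} (hp : Primrec p) (hq : Primrec q) :
    PrimrecPred fun a => p a ≤ q a := by
  have h : PrimrecPred fun a => (encode (p a) % 2 = 0 ∧ encode (q a) % 2 = 0 ∧
      encode (p a) ≤ encode (q a)) ∨ (encode (p a) % 2 = 1 ∧ encode (q a) % 2 = 0) ∨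
      (encode (p a) % 2 = 1 ∧ encode (q a) % 2 = 1 ∧ encode (q a) ≤ encode (p a)) := by
    refine PrimrecPred.or (PrimrecPred.and (pp_eq (by fun_prop) (by fun_prop)) (PrimrecPred.and
      (pp_eq (by fun_prop) (by fun_prop)) (pp_le (by fun_prop) (by fun_prop)))) (PrimrecPred.or
      (PrimrecPred.and (pp_eq (by fun_prop) (by fun_prop)) (pp_eq (by fun_prop) (by fun_prop)))
      (PrimrecPred.and (pp_eq (by fun_prop) (by fun_prop)) (PrimrecPred.and
      (pp_eq (by fun_prop) (by fun_prop)) (pp_le (by fun_prop) (by fun_prop)))))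
  refine h.of_eq fun a => ?_
  rw [enc_eq (p a), enc_eq (q a)]
  split_ifs <;> omega

theorem pp_zlt {p q : α → ℤ} (hp : Primrec p) (hq : Primrec q) :
    PrimrecPred fun a => p a < q a :=
  (PrimrecPred.not (pp_zle hq hp)).of_eq fun _ => not_le

end basic

attribute [local fun_prop] pf_sub pf_wd

section step

variable {α β : Type} [Primcodable α] [Primcodable β] {v : α → ℕ → ℤ → ℕ} {L : α → ℤ → ℕ → Prop}

theorem pf_v (hv : Primrec fun x : α × ℕ × ℤ => v x.1 x.2.1 x.2.2) {a : β → α} {m : β → ℕ}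
    {p : β → ℤ} (ha : Primrec a) (hm : Primrec m) (hp : Primrec p) :
    Primrec fun b => v (a b) (m b) (p b) :=
  hv.comp (f := fun x : α × ℕ × ℤ => v x.1 x.2.1 x.2.2) (g := fun b => (a b, m b, p b))
    (by fun_prop)

theorem pp_L (hL : PrimrecPred fun x : α × ℤ × ℕ => L x.1 x.2.1 x.2.2) {a : β → α}
    {p : β → ℤ} {s : β → ℕ} (ha : Primrec a) (hp : Primrec p) (hs : Primrec s) :
    PrimrecPred fun b => L (a b) (p b) (s b) :=
  hL.comp (p := fun x : α × ℤ × ℕ => L x.1 x.2.1 x.2.2) (f := fun b => (a b, p b, s b))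
    (by fun_prop)

theorem pp_Conn (hL : PrimrecPred fun x : α × ℤ × ℕ => L x.1 x.2.1 x.2.2) {a : β → α}
    {s : β → ℕ} {p w : β → ℤ} (ha : Primrec a) (hs : Primrec s) (hp : Primrec p)
    (hw : Primrec w) : PrimrecPred fun b => Conn (L (a b)) (s b) (p b) (w b) := by
  refine pp_alllt (by fun_prop) (pp_imp (PrimrecPred.or (PrimrecPred.and
    (pp_zle (by fun_prop) (by fun_prop)) (pp_zlt (by fun_prop) (by fun_prop)))
    (PrimrecPred.and (pp_zle (by fun_prop) (by fun_prop)) (pp_zlt (by fun_prop) (by fun_prop)))) ?_)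
  exact pp_L hL (by fun_prop) (by fun_prop) (by fun_prop)

theorem pp_Mk (hv : Primrec fun x : α × ℕ × ℤ => v x.1 x.2.1 x.2.2)
    (hL : PrimrecPred fun x : α × ℤ × ℕ => L x.1 x.2.1 x.2.2) {a : β → α}
    {m s : β → ℕ} {p : β → ℤ} (ha : Primrec a) (hm : Primrec m) (hs : Primrec s)
    (hp : Primrec p) : PrimrecPred fun b => Mk (v (a b)) (L (a b)) (m b) (s b) (p b) := by
  refine pp_alllt (by fun_prop) (pp_imp (pp_Conn hL (by fun_prop) (by fun_prop) (by fun_prop)
    (by fun_prop)) (pp_le (pf_v hv (by fun_prop) (by fun_prop) (by fun_prop))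
      (pf_v hv (by fun_prop) (by fun_prop) (by fun_prop))))

theorem pp_SP (hv : Primrec fun x : α × ℕ × ℤ => v x.1 x.2.1 x.2.2)
    (hL : PrimrecPred fun x : α × ℤ × ℕ => L x.1 x.2.1 x.2.2) {a : β → α}
    {j s : β → ℕ} {p : β → ℤ} (ha : Primrec a) (hj : Primrec j) (hs : Primrec s)
    (hp : Primrec p) : PrimrecPred fun b => SP (v (a b)) (L (a b)) (j b) (s b) (p b) := by
  have h1 : PrimrecPred fun b => L (a b) (p b - 1) (s b) := by
    refine (pp_L hL (p := fun b => wd (p b) 1 0) ha (by fun_prop) hs).of_eq fun b => ?_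
    rw [show wd (p b) 1 0 = p b - 1 by unfold wd; omega]
  refine PrimrecPred.or (PrimrecPred.and (pp_eq (by fun_prop) (by fun_prop)) (PrimrecPred.not h1))
    (PrimrecPred.or (PrimrecPred.and (pp_eq (by fun_prop) (by fun_prop)) (PrimrecPred.not
      (pp_L hL ha hp hs))) (PrimrecPred.or (PrimrecPred.and (pp_eq (by fun_prop) (by fun_prop))
      (pp_Mk hv hL ha hs hs hp)) (PrimrecPred.or (PrimrecPred.and (pp_le (by fun_prop)
      (by fun_prop)) (PrimrecPred.and (pp_eq (by fun_prop) (by fun_prop)) (PrimrecPred.and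
      (pp_Mk hv hL ha (by fun_prop) hs hp) ?_))) (PrimrecPred.and (pp_le (by fun_prop)
      (by fun_prop)) (PrimrecPred.and (pp_eq (by fun_prop) (by fun_prop)) (PrimrecPred.and
      (pp_Mk hv hL ha (by fun_prop) hs hp) ?_))))))
  · refine pp_alllt (by fun_prop) (pp_imp (pp_zlt (by fun_prop) (by fun_prop)) (pp_imp
      (pp_Conn hL (by fun_prop) (by fun_prop) (by fun_prop) (by fun_prop)) (PrimrecPred.not
      (pp_eq (pf_v hv (by fun_prop) (by fun_prop) (by fun_prop))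
      (pf_v hv (by fun_prop) (by fun_prop) (by fun_prop))))))
  · refine pp_alllt (by fun_prop) (pp_imp (pp_zlt (by fun_prop) (by fun_prop)) (pp_imp
      (pp_Conn hL (by fun_prop) (by fun_prop) (by fun_prop) (by fun_prop)) (PrimrecPred.not
      (pp_eq (pf_v hv (by fun_prop) (by fun_prop) (by fun_prop))
      (pf_v hv (by fun_prop) (by fun_prop) (by fun_prop))))))

theorem pp_Near (hv : Primrec fun x : α × ℕ × ℤ => v x.1 x.2.1 x.2.2)
    (hL : PrimrecPred fun x : α × ℤ × ℕ => L x.1 x.2.1 x.2.2) {a : β → α}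
    {m s j i : β → ℕ} {p : β → ℤ} (ha : Primrec a) (hm : Primrec m) (hs : Primrec s)
    (hp : Primrec p) (hj : Primrec j) (hi : Primrec i) :
    PrimrecPred fun b => Near (v (a b)) (L (a b)) (m b) (s b) (p b) (j b) (i b) :=
  PrimrecPred.and (pp_Conn hL (by fun_prop) (by fun_prop) (by fun_prop) (by fun_prop))
    (pp_SP hv hL (by fun_prop) (by fun_prop) (by fun_prop) (by fun_prop))

theorem pp_Ord (hv : Primrec fun x : α × ℕ × ℤ => v x.1 x.2.1 x.2.2)
    (hL : PrimrecPred fun x : α × ℤ × ℕ => L x.1 x.2.1 x.2.2) {a : β → α}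
    {m s : β → ℕ} {p l : β → ℤ} (ha : Primrec a) (hm : Primrec m) (hs : Primrec s)
    (hp : Primrec p) (hl : Primrec l) :
    PrimrecPred fun b => Ord (v (a b)) (L (a b)) (m b) (s b) (p b) (l b) := by
  have h1 : PrimrecPred fun b => p b ≤ l b + s b := by
    refine (pp_zle (q := fun b => wd (l b) 0 (s b)) hp (by fun_prop)).of_eq fun b => ?_
    rw [show wd (l b) 0 (s b) = l b + s b by unfold wd; omega]
  refine PrimrecPred.and (pp_zle (by fun_prop) (by fun_prop)) (PrimrecPred.and h1 (PrimrecPred.and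
    (pp_Conn hL (by fun_prop) (by fun_prop) (by fun_prop) (by fun_prop)) (PrimrecPred.and
    (pp_Mk hv hL (by fun_prop) (by fun_prop) (by fun_prop) (by fun_prop)) (PrimrecPred.and ?_ ?_))))
  · refine pp_alllt (by fun_prop) (pp_imp (pp_zlt (by fun_prop) (by fun_prop)) (pp_imp
      (pp_zle (by fun_prop) (by fun_prop)) (PrimrecPred.not
      (pp_Mk hv hL (by fun_prop) (by fun_prop) (by fun_prop) (by fun_prop)))))
  · refine pp_exlt (by fun_prop) (PrimrecPred.and (pp_zlt (by fun_prop) (by fun_prop))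
      (PrimrecPred.and (pp_Conn hL (by fun_prop) (by fun_prop) (by fun_prop) (by fun_prop))
      (pp_Mk hv hL (by fun_prop) (by fun_prop) (by fun_prop) (by fun_prop))))

theorem pp_Rep (hv : Primrec fun x : α × ℕ × ℤ => v x.1 x.2.1 x.2.2)
    (hL : PrimrecPred fun x : α × ℤ × ℕ => L x.1 x.2.1 x.2.2) {a : β → α}
    {m s : β → ℕ} {p c : β → ℤ} (ha : Primrec a) (hm : Primrec m) (hs : Primrec s)
    (hp : Primrec p) (hc : Primrec c) :
    PrimrecPred fun b => Rep (v (a b)) (L (a b)) (m b) (s b) (p b) (c b) := by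
  refine PrimrecPred.or (PrimrecPred.and (pp_le (by fun_prop) (by fun_prop))
    (pp_eq (by fun_prop) (by fun_prop))) (PrimrecPred.and (pp_lt (by fun_prop) (by fun_prop))
    (PrimrecPred.or ?_ (PrimrecPred.and ?_ (PrimrecPred.or
      (pp_Ord hv hL (by fun_prop) (by fun_prop) (by fun_prop) (by fun_prop) (by fun_prop))
      (PrimrecPred.and ?_ (pp_eq (by fun_prop) (by fun_prop)))))))
  · refine pp_exlt (by fun_prop) (pp_exlt (by fun_prop) (PrimrecPred.and
      (pp_eq (by fun_prop) (by fun_prop)) (PrimrecPred.and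
      (pp_Near hv hL (by fun_prop) (by fun_prop) (by fun_prop) (by fun_prop) (by fun_prop)
        (by fun_prop)) (pp_alllt (by fun_prop) (pp_alllt (by fun_prop) (pp_imp
        (PrimrecPred.or (pp_lt (by fun_prop) (by fun_prop)) (PrimrecPred.and
          (pp_eq (by fun_prop) (by fun_prop)) (pp_lt (by fun_prop) (by fun_prop))))
        (PrimrecPred.not (pp_Near hv hL (by fun_prop) (by fun_prop) (by fun_prop) (by fun_prop)
          (by fun_prop) (by fun_prop)))))))))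
  · refine pp_alllt (by fun_prop) (pp_alllt (by fun_prop) (PrimrecPred.not
      (pp_Near hv hL (by fun_prop) (by fun_prop) (by fun_prop) (by fun_prop)
          (by fun_prop) (by fun_prop))))
  · refine pp_alllt (by fun_prop) (PrimrecPred.not
      (pp_Ord hv hL (by fun_prop) (by fun_prop) (by fun_prop) (by fun_prop) (by fun_prop)))

theorem pp_QZ (hv : Primrec fun x : α × ℕ × ℤ => v x.1 x.2.1 x.2.2)
    (hL : PrimrecPred fun x : α × ℤ × ℕ => L x.1 x.2.1 x.2.2) :
    PrimrecPred fun x : α × ℕ × ℕ × ℤ × ℤ => QZ (v x.1) (L x.1) x.2.1 x.2.2.1 x.2.2.2.1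
      x.2.2.2.2 := by
  refine pp_exlt (by fun_prop) (PrimrecPred.and
    (pp_Rep hv hL (by fun_prop) (by fun_prop) (by fun_prop) (by fun_prop) (by fun_prop))
    (pp_Rep hv hL (by fun_prop) (by fun_prop) (by fun_prop) (by fun_prop) (by fun_prop)))

variable {E : α → ℕ → ℕ → ℕ → ℤ → Prop} {C : α → ℕ → ℕ → ℕ → ℤ → (ℕ → Prop) → Prop}
  {Q : α → ℕ → ℕ → ℤ → ℤ → Prop} {V : α → ℕ → ℤ → ℕ → Prop}

theorem pp_Q (hQ : PrimrecPred fun x : α × ℕ × ℕ × ℤ × ℤ => Q x.1 x.2.1 x.2.2.1 x.2.2.2.1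
      x.2.2.2.2) {a : β → α} {m s : β → ℕ} {p q : β → ℤ} (ha : Primrec a) (hm : Primrec m)
    (hs : Primrec s) (hp : Primrec p) (hq : Primrec q) :
    PrimrecPred fun b => Q (a b) (m b) (s b) (p b) (q b) :=
  hQ.comp (p := fun x : α × ℕ × ℕ × ℤ × ℤ => Q x.1 x.2.1 x.2.2.1 x.2.2.2.1 x.2.2.2.2)
    (f := fun b => (a b, m b, s b, p b, q b)) (by fun_prop)

theorem pp_Chg (hQ : PrimrecPred fun x : α × ℕ × ℕ × ℤ × ℤ => Q x.1 x.2.1 x.2.2.1 x.2.2.2.1
      x.2.2.2.2) {a : β → α} {m s : β → ℕ} {p : β → ℤ} (ha : Primrec a) (hm : Primrec m)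
    (hs : Primrec s) (hp : Primrec p) :
    PrimrecPred fun b => Chg (Q (a b)) (m b) (s b) (p b) := by
  have h : PrimrecPred fun b => ∃ i < 2 * (2 * s b) + 1,
      ¬ ((Q (a b) (m b) (s b - 1) (p b) (wd (p b) (2 * s b) i) →
          Q (a b) (m b) (s b) (p b) (wd (p b) (2 * s b) i)) ∧
        (Q (a b) (m b) (s b) (p b) (wd (p b) (2 * s b) i) →
          Q (a b) (m b) (s b - 1) (p b) (wd (p b) (2 * s b) i))) := by
    refine pp_exlt (by fun_prop) (PrimrecPred.not (PrimrecPred.and (pp_imp ?_ ?_) (pp_imp ?_ ?_)))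
    all_goals exact pp_Q hQ (by fun_prop) (by fun_prop) (by fun_prop) (by fun_prop) (by fun_prop)
  refine h.of_eq fun b => exists_congr fun i => and_congr_right fun _ => not_congr ?_
  exact ⟨fun h => ⟨h.1, h.2⟩, fun h => ⟨h.1, h.2⟩⟩

theorem pp_IsSt (hQ : PrimrecPred fun x : α × ℕ × ℕ × ℤ × ℤ => Q x.1 x.2.1 x.2.2.1 x.2.2.2.1
      x.2.2.2.2) {a : β → α} {m s u : β → ℕ} {p : β → ℤ} (ha : Primrec a) (hm : Primrec m)
    (hs : Primrec s) (hp : Primrec p) (hu : Primrec u) :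
    PrimrecPred fun b => IsSt (Q (a b)) (m b) (s b) (p b) (u b) := by
  refine PrimrecPred.and (PrimrecPred.or (pp_eq (by fun_prop) (by fun_prop))
    (pp_Chg hQ (by fun_prop) (by fun_prop) (by fun_prop) (by fun_prop))) (pp_alllt (by fun_prop)
    (pp_imp (pp_lt (by fun_prop) (by fun_prop)) (PrimrecPred.not
    (pp_Chg hQ (by fun_prop) (by fun_prop) (by fun_prop) (by fun_prop)))))

theorem pp_E (hE : PrimrecPred fun x : α × ℕ × ℕ × ℕ × ℤ =>
      E x.1 x.2.1 x.2.2.1 x.2.2.2.1 x.2.2.2.2)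
    {a : β → α} {t n z : β → ℕ} {p : β → ℤ} (ha : Primrec a) (ht : Primrec t) (hn : Primrec n)
    (hz : Primrec z) (hp : Primrec p) :
    PrimrecPred fun b => E (a b) (t b) (n b) (z b) (p b) :=
  hE.comp (p := fun x : α × ℕ × ℕ × ℕ × ℤ => E x.1 x.2.1 x.2.2.1 x.2.2.2.1 x.2.2.2.2)
    (f := fun b => (a b, t b, n b, z b, p b)) (by fun_prop)

theorem pp_C (hC : PrimrecPred fun x : α × ℕ × ℕ × ℕ × ℤ =>
      C x.1 x.2.1 x.2.2.1 x.2.2.2.1 x.2.2.2.2 (V x.1 x.2.1 x.2.2.2.2))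
    {a : β → α} {t e u : β → ℕ} {p : β → ℤ} (ha : Primrec a) (ht : Primrec t) (he : Primrec e)
    (hu : Primrec u) (hp : Primrec p) :
    PrimrecPred fun b => C (a b) (t b) (e b) (u b) (p b) (V (a b) (t b) (p b)) :=
  hC.comp (p := fun x : α × ℕ × ℕ × ℕ × ℤ =>
      C x.1 x.2.1 x.2.2.1 x.2.2.2.1 x.2.2.2.2 (V x.1 x.2.1 x.2.2.2.2))
    (f := fun b => (a b, t b, e b, u b, p b)) (by fun_prop)

theorem pp_V (hV : PrimrecPred fun x : α × ℕ × ℤ × ℕ => V x.1 x.2.1 x.2.2.1 x.2.2.2)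
    {a : β → α} {t z : β → ℕ} {p : β → ℤ} (ha : Primrec a) (ht : Primrec t)
    (hp : Primrec p) (hz : Primrec z) :
    PrimrecPred fun b => V (a b) (t b) (p b) (z b) :=
  hV.comp (p := fun x : α × ℕ × ℤ × ℕ => V x.1 x.2.1 x.2.2.1 x.2.2.2)
    (f := fun b => (a b, t b, p b, z b)) (by fun_prop)

theorem pp_Ok (hC : PrimrecPred fun x : α × ℕ × ℕ × ℕ × ℤ =>
      C x.1 x.2.1 x.2.2.1 x.2.2.2.1 x.2.2.2.2 (V x.1 x.2.1 x.2.2.2.2))
    {a : β → α} {t e z : β → ℕ} {p : β → ℤ} (ha : Primrec a) (ht : Primrec t) (he : Primrec e)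
    (hz : Primrec z) (hp : Primrec p) :
    PrimrecPred fun b => Ok (C (a b)) (t b) (e b) (z b) (p b) (V (a b) (t b) (p b)) := by
  refine pp_imp (pp_exlt (by fun_prop) ?_) (pp_exlt (by fun_prop) (PrimrecPred.and
    (pp_lt (by fun_prop) (by fun_prop)) ?_))
  · exact pp_C hC (by fun_prop) (by fun_prop) (by fun_prop) (by fun_prop) (by fun_prop)
  · exact pp_C hC (by fun_prop) (by fun_prop) (by fun_prop) (by fun_prop) (by fun_prop)

theorem pp_Cand (hE : PrimrecPred fun x : α × ℕ × ℕ × ℕ × ℤ =>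
      E x.1 x.2.1 x.2.2.1 x.2.2.2.1 x.2.2.2.2)
    (hC : PrimrecPred fun x : α × ℕ × ℕ × ℕ × ℤ =>
      C x.1 x.2.1 x.2.2.1 x.2.2.2.1 x.2.2.2.2 (V x.1 x.2.1 x.2.2.2.2))
    (hQ : PrimrecPred fun x : α × ℕ × ℕ × ℤ × ℤ => Q x.1 x.2.1 x.2.2.1 x.2.2.2.1 x.2.2.2.2)
    (hV : PrimrecPred fun x : α × ℕ × ℤ × ℕ => V x.1 x.2.1 x.2.2.1 x.2.2.2)
    {a : β → α} {m s z : β → ℕ} {p : β → ℤ} (ha : Primrec a) (hm : Primrec m)
    (hs : Primrec s) (hp : Primrec p) (hz : Primrec z) :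
    PrimrecPred fun b => Cand (E (a b)) (C (a b)) (Q (a b)) (V (a b)) (m b) (s b) (p b) (z b) := by
  refine PrimrecPred.and (pp_lt (by fun_prop) (by fun_prop)) (PrimrecPred.and ?_
    (PrimrecPred.and ?_ ?_))
  · refine pp_exlt (by fun_prop) (PrimrecPred.and
      (pp_IsSt hQ (by fun_prop) (by fun_prop) (by fun_prop) (by fun_prop) (by fun_prop))
      (pp_eq (by fun_prop) (by fun_prop)))
  · refine pp_exlt (by fun_prop) (PrimrecPred.and
      (pp_Q hQ (by fun_prop) (by fun_prop) (by fun_prop) (by fun_prop) (by fun_prop))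
      (PrimrecPred.and (pp_E hE (by fun_prop) (by fun_prop) (by fun_prop) (by fun_prop)
        (by fun_prop)) (pp_alllt (by fun_prop) (pp_imp (pp_V hV (by fun_prop) (by fun_prop)
        (by fun_prop) (by fun_prop)) (PrimrecPred.not (pp_E hE (by fun_prop) (by fun_prop)
        (by fun_prop) (by fun_prop) (by fun_prop)))))))
  · refine pp_alllt (by fun_prop) (pp_imp
      (pp_Q hQ (by fun_prop) (by fun_prop) (by fun_prop) (by fun_prop) (by fun_prop))
      (pp_alllt (by fun_prop) (pp_Ok hC (by fun_prop) (by fun_prop) (by fun_prop) (by fun_prop)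
        (by fun_prop))))

theorem pp_Step (hE : PrimrecPred fun x : α × ℕ × ℕ × ℕ × ℤ =>
      E x.1 x.2.1 x.2.2.1 x.2.2.2.1 x.2.2.2.2)
    (hC : PrimrecPred fun x : α × ℕ × ℕ × ℕ × ℤ =>
      C x.1 x.2.1 x.2.2.1 x.2.2.2.1 x.2.2.2.2 (V x.1 x.2.1 x.2.2.2.2))
    (hQ : PrimrecPred fun x : α × ℕ × ℕ × ℤ × ℤ => Q x.1 x.2.1 x.2.2.1 x.2.2.2.1 x.2.2.2.2)
    (hV : PrimrecPred fun x : α × ℕ × ℤ × ℕ => V x.1 x.2.1 x.2.2.1 x.2.2.2)
    {a : β → α} {s z : β → ℕ} {p : β → ℤ} (ha : Primrec a)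
    (hs : Primrec s) (hp : Primrec p) (hz : Primrec z) :
    PrimrecPred fun b => Step (E (a b)) (C (a b)) (Q (a b)) (V (a b)) (s b) (p b) (z b) := by
  refine pp_exlt hs (PrimrecPred.and ?_ (pp_alllt (by fun_prop) (PrimrecPred.not ?_)))
  · exact pp_Cand hE hC hQ hV (by fun_prop) (by fun_prop) (by fun_prop) (by fun_prop) (by fun_prop)
  · exact pp_Cand hE hC hQ hV (by fun_prop) (by fun_prop) (by fun_prop) (by fun_prop) (by fun_prop)

end step

end Pool.Agent.TH769.ZA
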