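import Pool.Agent.TH769.ZA.Cls

set_option autoImplicit false

/-!
Locality and translation of the finite classes.
-/

namespace Pool.Agent.TH769.ZA

open Encodable Pool.Agent.Helper227
open Pool.Agent.TH769.CD (bdd_lt)

theorem wd_add (p d : ℤ) (r i : ℕ) : wd (p + d) r i = wd p r i + d := by
  unfold wd
  omega

/-- the data on the interval from `lo` to `hi` agree after the translation by `d` -/
structure Ag (v : ℕ → ℤ → ℕ) (L : ℤ → ℕ → Prop) (v' : ℕ → ℤ → ℕ) (L' : ℤ → ℕ → Prop)
    (d lo hi : ℤ) (N : ℕ) : Prop where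
  hv : ∀ w, lo ≤ w → w ≤ hi → ∀ m < N, v' m (w + d) = v m w
  hL : ∀ w, lo ≤ w → w ≤ hi → ∀ s < N, (L' (w + d) s ↔ L w s)

section

variable {v v' : ℕ → ℤ → ℕ} {L L' : ℤ → ℕ → Prop} {d lo hi : ℤ} {N : ℕ}

theorem conn_tr (h : Ag v L v' L' d lo hi N) {s : ℕ} {p w : ℤ} (hs : s < N) (h1 : lo ≤ p - s)
    (h2 : p + s ≤ hi) : Conn L' s (p + d) (w + d) ↔ Conn L s p w := by
  unfold Conn
  refine forall_congr' fun i => forall_congr' fun hi => ?_
  have hb := wd_bd (p := p) hi
  rw [wd_add, h.hL _ (by omega) (by omega) s hs]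
  simp only [add_le_add_iff_right, add_lt_add_iff_right]

theorem mk_tr (h : Ag v L v' L' d lo hi N) {m s : ℕ} {p : ℤ} (hs : s < N) (hm : m < N)
    (h1 : lo ≤ p - s) (h2 : p + s ≤ hi) : Mk v' L' m s (p + d) ↔ Mk v L m s p := by
  unfold Mk
  refine forall_congr' fun i => forall_congr' fun hi => ?_
  have hb := wd_bd (p := p) hi
  rw [wd_add, conn_tr h hs h1 h2, h.hv _ (by omega) (by omega) m hm,
    h.hv _ (by omega) (by omega) m hm]

theorem sp_tr (h : Ag v L v' L' d lo hi N) {j s : ℕ} {p : ℤ} (hs : s < N) (hj : (j - 3) / 2 < N)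
    (h1 : lo ≤ p - s - 1) (h2 : p + s ≤ hi) : SP v' L' j s (p + d) ↔ SP v L j s p := by
  unfold SP
  have e1 : L' (p + d - 1) s ↔ L (p - 1) s := by
    rw [show p + d - 1 = (p - 1) + d by omega]
    exact h.hL _ (by omega) (by omega) s hs
  rw [e1, h.hL p (by omega) (by omega) s hs, mk_tr h hs hs (by omega) (by omega),
    mk_tr h hs hj (by omega) (by omega)]
  refine or_congr Iff.rfl (or_congr Iff.rfl (or_congr Iff.rfl (or_congr ?_ ?_)))
  · refine and_congr Iff.rfl (and_congr Iff.rfl (and_congr Iff.rfl ?_))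
    refine forall_congr' fun i => forall_congr' fun hi => ?_
    have hb := wd_bd (p := p) hi
    rw [wd_add, conn_tr h hs (by omega) (by omega), h.hv _ (by omega) (by omega) _ hj,
      h.hv _ (by omega) (by omega) _ hj, add_lt_add_iff_right]
  · refine and_congr Iff.rfl (and_congr Iff.rfl (and_congr Iff.rfl ?_))
    refine forall_congr' fun i => forall_congr' fun hi => ?_
    have hb := wd_bd (p := p) hi
    rw [wd_add, conn_tr h hs (by omega) (by omega), h.hv _ (by omega) (by omega) _ hj,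
      h.hv _ (by omega) (by omega) _ hj, add_lt_add_iff_right]

theorem near_tr (h : Ag v L v' L' d lo hi N) {m s j i : ℕ} {p : ℤ} (hs : s < N) (hms : m < s)
    (hj : j < m + 1) (hi' : i < 2 * m + 1)
    (h1 : lo ≤ p - 3 * s - 1) (h2 : p + 3 * s + 1 ≤ hi) :
    Near v' L' m s (p + d) j i ↔ Near v L m s p j i := by
  unfold Near
  have hb := wd_bd (p := p) hi'
  rw [wd_add, conn_tr h hs (by omega) (by omega),
    sp_tr h hs (by omega) (by omega) (by omega)]

theorem ord_tr (h : Ag v L v' L' d lo hi N) {m s : ℕ} {p l : ℤ} (hs : s < N) (hms : m < s)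
    (h1 : lo ≤ p - 3 * s - 1) (h2 : p + 3 * s + 1 ≤ hi) :
    Ord v' L' m s (p + d) (l + d) ↔ Ord v L m s p l := by
  unfold Ord
  by_cases hb : l ≤ p ∧ p ≤ l + s
  · obtain ⟨g1, g2⟩ := hb
    have e1 : (l + d ≤ p + d) ↔ l ≤ p := by omega
    have e2 : (p + d ≤ l + d + s) ↔ p ≤ l + s := by omega
    rw [e1, e2, conn_tr h hs (by omega) (by omega), mk_tr h hs (by omega) (by omega) (by omega)]
    refine and_congr Iff.rfl (and_congr Iff.rfl (and_congr Iff.rfl (and_congr Iff.rfl
      (and_congr ?_ ?_))))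
    · refine forall_congr' fun i => forall_congr' fun hi => ?_
      have hb := wd_bd (p := p) hi
      rw [wd_add, mk_tr h hs (by omega) (by omega) (by omega)]
      simp only [add_le_add_iff_right, add_lt_add_iff_right]
    · refine exists_congr fun i => and_congr_right fun hi => ?_
      have hb := wd_bd (p := l) hi
      rw [wd_add, mk_tr h hs (by omega) (by omega) (by omega),
        conn_tr h hs (by omega) (by omega)]
      simp only [add_lt_add_iff_right]
  · constructor
    · rintro ⟨g1, g2, -⟩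
      exact absurd ⟨by omega, by omega⟩ hb
    · rintro ⟨g1, g2, -⟩
      exact absurd ⟨g1, g2⟩ hb

theorem rep_tr (h : Ag v L v' L' d lo hi N) {m s : ℕ} {p c : ℤ} (hs : s < N)
    (h1 : lo ≤ p - 3 * s - 1) (h2 : p + 3 * s + 1 ≤ hi) :
    Rep v' L' m s (p + d) (c + d) ↔ Rep v L m s p c := by
  unfold Rep
  refine or_congr ?_ (and_congr_right fun hms => ?_)
  · rw [add_left_inj]
  · refine or_congr ?_ ?_
    · refine exists_congr fun j => and_congr_right fun hj => exists_congr fun i =>
        and_congr_right fun hi => ?_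
      rw [wd_add, add_left_inj, near_tr h hs hms hj hi h1 h2]
      refine and_congr Iff.rfl (and_congr Iff.rfl ?_)
      refine forall_congr' fun j' => forall_congr' fun hj' => forall_congr' fun i' =>
        forall_congr' fun hi' => ?_
      rw [near_tr h hs hms hj' hi' h1 h2]
    · refine and_congr ?_ ?_
      · refine forall_congr' fun j' => forall_congr' fun hj' => forall_congr' fun i' =>
          forall_congr' fun hi' => ?_
        rw [near_tr h hs hms hj' hi' h1 h2]
      · rw [ord_tr h hs hms h1 h2, add_left_inj]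
        refine or_congr Iff.rfl (and_congr ?_ Iff.rfl)
        refine forall_congr' fun i => forall_congr' fun hi => ?_
        rw [wd_add, ord_tr h hs hms h1 h2]

theorem qz_tr (h : Ag v L v' L' d lo hi N) {m s : ℕ} {p q : ℤ} (hs : s < N)
    (h1 : lo ≤ p - 5 * s - 1) (h2 : p + 5 * s + 1 ≤ hi) :
    QZ v' L' m s (p + d) (q + d) ↔ QZ v L m s p q := by
  unfold QZ
  refine exists_congr fun i => and_congr_right fun hi => ?_
  rw [wd_add, rep_tr h hs (by omega) (by omega)]
  have hb := wd_bd (p := p) hi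
  by_cases hq : wd p s i - s ≤ q ∧ q ≤ wd p s i + s
  · rw [rep_tr h hs (by omega) (by omega)]
  · constructor
    · rintro ⟨-, g⟩
      have := rep_bd g
      exact absurd ⟨by omega, by omega⟩ hq
    · rintro ⟨-, g⟩
      have := rep_bd g
      exact absurd ⟨by omega, by omega⟩ hq

theorem chg_tr (h : Ag v L v' L' d lo hi N) {m s : ℕ} {p : ℤ} (hs : s < N)
    (h1 : lo ≤ p - 5 * s - 1) (h2 : p + 5 * s + 1 ≤ hi) :
    Chg (QZ v' L') m s (p + d) ↔ Chg (QZ v L) m s p := by
  unfold Chg
  refine exists_congr fun i => and_congr_right fun hi => ?_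
  rw [wd_add, qz_tr h hs h1 h2, qz_tr h (by omega) (by omega) (by omega)]

theorem isSt_tr (h : Ag v L v' L' d lo hi N) {m s u : ℕ} {p : ℤ} (hs : s < N) (hu : u ≤ s)
    (h1 : lo ≤ p - 5 * s - 1) (h2 : p + 5 * s + 1 ≤ hi) :
    IsSt (QZ v' L') m s (p + d) u ↔ IsSt (QZ v L) m s p u := by
  unfold IsSt
  rw [chg_tr h (by omega) (by omega) (by omega)]
  refine and_congr Iff.rfl (forall_congr' fun s' => forall_congr' fun hs' => ?_)
  rw [chg_tr h (by omega) (by omega) (by omega)]

end

end Pool.Agent.TH769.ZA
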